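import Pool.Agent.H670R4.Defs

/-!
# Graphs without induced 4-cycles, and the transfer of modification problems
-/

set_option autoImplicit false

namespace Pool.Agent.H670R4

open Pool.Agent.NPC Pool.Agent.H622R2

/-- no induced 4-cycle -/
def C4Free {V : Type} (G : SimpleGraph V) : Prop :=
  ∀ a b c d, G.Adj a b → G.Adj b c → G.Adj c d → G.Adj d a → a ≠ c → b ≠ d →
    G.Adj a c ∨ G.Adj b d

theorem cyc4_adj (i j : Fin 4) : (SimpleGraph.cycleGraph 4).Adj i j ↔ (i = j + 1 ∨ j = i + 1) := by
  revert i j
  decide

theorem famFree_C4 {V : Type} (G : SimpleGraph V) : FamFree [C4] G ↔ C4Free G := by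
  constructor
  · intro h a b c d hab hbc hcd hda hac hbd
    by_contra hcon
    push Not at hcon
    obtain ⟨h1, h2⟩ := hcon
    refine (h C4 (by simp)).false (show SimpleGraph.cycleGraph 4 ↪g G from ?_)
    let f : Fin 4 → V := ![a, b, c, d]
    have hf : Function.Injective f := by
      have e1 := hab.ne
      have e2 := hbc.ne
      have e3 := hcd.ne
      have e4 := hda.ne
      intro i j hij
      fin_cases i <;> fin_cases j <;> simp_all [f]
    refine ⟨⟨f, hf⟩, ?_⟩
    intro i j
    change G.Adj (f i) (f j) ↔ (SimpleGraph.cycleGraph 4).Adj i j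
    rw [cyc4_adj]
    have i1 := hab.symm
    have i2 := hbc.symm
    have i3 := hcd.symm
    have i4 := hda.symm
    have h1' : ¬ G.Adj c a := fun h => h1 h.symm
    have h2' : ¬ G.Adj d b := fun h => h2 h.symm
    fin_cases i <;> fin_cases j <;>
      first
      | exact iff_of_true hab (by decide)
      | exact iff_of_true hbc (by decide)
      | exact iff_of_true hcd (by decide)
      | exact iff_of_true hda (by decide)
      | exact iff_of_true i1 (by decide)
      | exact iff_of_true i2 (by decide)
      | exact iff_of_true i3 (by decide)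
      | exact iff_of_true i4 (by decide)
      | exact iff_of_false h1 (by decide)
      | exact iff_of_false h2 (by decide)
      | exact iff_of_false h1' (by decide)
      | exact iff_of_false h2' (by decide)
      | exact iff_of_false (G.loopless.irrefl _) (by decide)
  · intro h H hH
    rw [List.mem_singleton] at hH
    subst hH
    refine ⟨fun f0 => ?_⟩
    obtain ⟨f⟩ : Nonempty (SimpleGraph.cycleGraph 4 ↪g G) := ⟨f0⟩
    have key : ∀ i j : Fin 4, G.Adj (f i) (f j) ↔ (i = j + 1 ∨ j = i + 1) := fun i j => by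
      rw [← cyc4_adj]
      exact f.map_rel_iff'
    have hinj : ∀ i j : Fin 4, f i = f j → i = j := fun i j e => f.injective e
    have h1 := h (f 0) (f 1) (f 2) (f 3)
      ((key 0 1).2 (by decide)) ((key 1 2).2 (by decide)) ((key 2 3).2 (by decide))
      ((key 3 0).2 (by decide)) (fun e => absurd (hinj 0 2 e) (by decide))
      (fun e => absurd (hinj 1 3 e) (by decide))
    rcases h1 with h1 | h1
    · exact absurd ((key 0 2).1 h1) (by decide)
    · exact absurd ((key 1 3).1 h1) (by decide)

/-- Isomorphic graphs are equally modifiable. -/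
theorem Modifiable.iso {M : ModType} {𝓕 : List FinGraph} {V W : Type} {G : SimpleGraph V}
    {H : SimpleGraph W} (e : G ≃g H) {k : ℕ} (h : Modifiable M 𝓕 G k) : Modifiable M 𝓕 H k := by
  obtain ⟨G', h1, h2, h3⟩ := h
  let H' : SimpleGraph W := G'.map e.toEquiv.toEmbedding
  have hadj : ∀ a b : V, H'.Adj (e a) (e b) ↔ G'.Adj a b := fun a b =>
    SimpleGraph.map_adj_apply
  have hadj' : ∀ a b : V, H.Adj (e a) (e b) ↔ G.Adj a b := fun a b => e.map_rel_iff'
  let e' : G' ≃g H' := ⟨e.toEquiv, fun {a b} => hadj a b⟩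
  refine ⟨H', ?_, ?_, ?_⟩
  · cases M
    · intro a b hab
      obtain ⟨a, rfl⟩ := e.surjective a
      obtain ⟨b, rfl⟩ := e.surjective b
      exact (hadj' a b).2 (h1 ((hadj a b).1 hab))
    · intro a b hab
      obtain ⟨a, rfl⟩ := e.surjective a
      obtain ⟨b, rfl⟩ := e.surjective b
      exact (hadj a b).2 (h1 ((hadj' a b).1 hab))
    · trivial
  · intro K hK
    refine ⟨fun f => (h2 K hK).false (f.trans e'.symm.toRelEmbedding)⟩
  · have : symmDiff H.edgeSet H'.edgeSet = Sym2.map e '' symmDiff G.edgeSet G'.edgeSet := by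
      ext z
      induction z using Sym2.ind with
      | _ x y =>
        obtain ⟨a, rfl⟩ := e.surjective x
        obtain ⟨b, rfl⟩ := e.surjective y
        have e1 : s(e a, e b) = Sym2.map e s(a, b) := rfl
        rw [e1, (Sym2.map.injective e.injective).mem_set_image, ← e1]
        simp only [Set.mem_symmDiff, SimpleGraph.mem_edgeSet, hadj, hadj']
    rw [this, Set.ncard_image_of_injective _ (Sym2.map.injective e.injective)]
    exact h3

theorem modifiable_iso_iff {M : ModType} {𝓕 : List FinGraph} {V W : Type} {G : SimpleGraph V}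
    {H : SimpleGraph W} (e : G ≃g H) (k : ℕ) : Modifiable M 𝓕 G k ↔ Modifiable M 𝓕 H k :=
  ⟨Modifiable.iso e, Modifiable.iso e.symm⟩

/-- the adjacency of `G` and of `G'` differ at no more than `k` pairs -/
def Near {V : Type} (G G' : SimpleGraph V) (k : ℕ) : Prop :=
  ∃ F : Finset (Sym2 V), F.card ≤ k ∧ ∀ a b, ¬ (G.Adj a b ↔ G'.Adj a b) → s(a, b) ∈ F

theorem near_iff {V : Type} [Finite V] (G G' : SimpleGraph V) (k : ℕ) :
    (symmDiff G.edgeSet G'.edgeSet).ncard ≤ k ↔ Near G G' k := by
  have key : ∀ a b, s(a, b) ∈ symmDiff G.edgeSet G'.edgeSet ↔ ¬ (G.Adj a b ↔ G'.Adj a b) := by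
    intro a b
    rw [Set.mem_symmDiff, SimpleGraph.mem_edgeSet, SimpleGraph.mem_edgeSet]
    tauto
  constructor
  · intro h
    have hfin : (symmDiff G.edgeSet G'.edgeSet).Finite := Set.toFinite _
    refine ⟨hfin.toFinset, ?_, ?_⟩
    · rwa [← Set.ncard_eq_toFinset_card _ hfin]
    · intro a b hab
      rw [Set.Finite.mem_toFinset]
      exact (key a b).2 hab
  · rintro ⟨F, hF, h⟩
    refine le_trans ?_ hF
    rw [← Set.ncard_coe_finset]
    refine Set.ncard_le_ncard ?_ (Finset.finite_toSet F)
    intro z hz
    induction z using Sym2.ind with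
    | _ x y => exact h x y ((key x y).1 hz)

/-! ### Graphs given by lists of labels -/

/-- The graph on all labels in which the labels outside the list are isolated. -/
def listG {Λ : Type} (vs : List Λ) (adj : Λ → Λ → Bool) : SimpleGraph Λ where
  Adj u v := u ∈ vs ∧ v ∈ vs ∧ u ≠ v ∧ (adj u v = true ∨ adj v u = true)
  symm := ⟨fun _ _ h => ⟨h.2.1, h.1, h.2.2.1.symm, h.2.2.2.symm⟩⟩
  loopless := ⟨fun _ h => h.2.2.1 rfl⟩

/-- The graph of the matrix can be edited iff the graph on the labels can. -/
theorem editable_listG {Λ : Type} [DecidableEq Λ] (vs : List Λ) (adj : Λ → Λ → Bool)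
    (hnd : vs.Nodup) (k : ℕ) :
    Modifiable ModType.editing [C4] (matGraph (mat vs adj)) k ↔
      ∃ G' : SimpleGraph Λ, C4Free G' ∧ Near (listG vs adj) G' k := by
  rw [modifiable_iso_iff (matIso vs adj hnd)]
  constructor
  · rintro ⟨G', -, h2, h3⟩
    rw [famFree_C4] at h2
    rw [near_iff] at h3
    refine ⟨G'.map (Function.Embedding.subtype _), ?_, ?_⟩
    · intro a b c d hab hbc hcd hda hac hbd
      rw [SimpleGraph.map_adj] at hab hbc hcd hda
      obtain ⟨a', b', h1, rfl, rfl⟩ := hab
      obtain ⟨b'', c', h1', e1, rfl⟩ := hbc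
      obtain ⟨c'', d', h1'', e2, rfl⟩ := hcd
      obtain ⟨d'', a'', h1''', e3, e4⟩ := hda
      have e1' := (Function.Embedding.injective _) e1
      have e2' := (Function.Embedding.injective _) e2
      have e3' := (Function.Embedding.injective _) e3
      have e4' := (Function.Embedding.injective _) e4
      subst e1' e2' e3' e4'
      have h5 := h2 _ _ _ _ h1 h1' h1'' h1''' (fun e => hac (by rw [e])) (fun e => hbd (by rw [e]))
      rcases h5 with h5 | h5
      · left
        exact (SimpleGraph.map_adj _ _ _ _).2 ⟨_, _, h5, rfl, rfl⟩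
      · right
        exact (SimpleGraph.map_adj _ _ _ _).2 ⟨_, _, h5, rfl, rfl⟩
    · obtain ⟨F, hF, h⟩ := h3
      refine ⟨F.image (Sym2.map (Function.Embedding.subtype _)), Finset.card_image_le.trans hF, ?_⟩
      intro a b hab
      have hab' : a ∈ vs ∧ b ∈ vs := by
        by_contra hcon
        apply hab
        constructor
        · intro hh
          exact absurd ⟨hh.1, hh.2.1⟩ hcon
        · intro hh
          rw [SimpleGraph.map_adj] at hh
          obtain ⟨x, y, -, rfl, rfl⟩ := hh
          exact absurd ⟨x.2, y.2⟩ hcon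
      rw [Finset.mem_image]
      refine ⟨s(⟨a, hab'.1⟩, ⟨b, hab'.2⟩), h _ _ ?_, rfl⟩
      intro hcon
      apply hab
      have e1 : (listG vs adj).Adj a b ↔ (labGraph vs adj).Adj ⟨a, hab'.1⟩ ⟨b, hab'.2⟩ := by
        simp [listG, labGraph, hab'.1, hab'.2]
      have e2 : (G'.map (Function.Embedding.subtype _)).Adj a b ↔
          G'.Adj ⟨a, hab'.1⟩ ⟨b, hab'.2⟩ := by
        rw [SimpleGraph.map_adj]
        constructor
        · rintro ⟨x, y, h, rfl, rfl⟩
          exact h
        · intro h
          exact ⟨_, _, h, rfl, rfl⟩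
      rw [e1, e2]
      exact hcon
  · rintro ⟨G', h2, h3⟩
    refine ⟨G'.comap (Function.Embedding.subtype _), trivial, ?_, ?_⟩
    · rw [famFree_C4]
      intro a b c d hab hbc hcd hda hac hbd
      exact h2 a.1 b.1 c.1 d.1 hab hbc hcd hda (fun e => hac (Subtype.ext e))
        (fun e => hbd (Subtype.ext e))
    · rw [near_iff]
      obtain ⟨F, hF, h⟩ := h3
      classical
      refine ⟨F.preimage (Sym2.map (Function.Embedding.subtype _))
        (Sym2.map.injective (Function.Embedding.injective _)).injOn, ?_, ?_⟩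
      · refine le_trans ?_ hF
        exact Finset.card_le_card_of_injOn (Sym2.map (Function.Embedding.subtype _))
          (fun x hx => by simpa using hx)
          (Sym2.map.injective (Function.Embedding.injective _)).injOn
      · intro a b hab
        rw [Finset.mem_preimage]
        refine h a.1 b.1 ?_
        intro hcon
        apply hab
        have e1 : (listG vs adj).Adj a.1 b.1 ↔ (labGraph vs adj).Adj a b := by
          simp [listG, labGraph, a.2, b.2, Subtype.ext_iff]
        rw [← e1]
        exact hcon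

end Pool.Agent.H670R4
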