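import Pool.Agent.H670R4.Helper

/-!
# The core of the construction
-/

set_option autoImplicit false

namespace Pool.Agent.H670R4

/-- the labels of the core -/
inductive Core (X : Type) : Type
  | P (x : X) : Core X
  | Q (x : X) : Core X
  | U (x : X) (j : X) (i : Fin 3) : Core X
  | V (x : X) (j : X) (i : Fin 3) : Core X
  | C (j : X) (i : Fin 3) : Core X
  | D (x : X) (l : ℕ) : Core X
  deriving DecidableEq

open Pool.Agent.H670R4.Core

/-- A system of triples of variables. -/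
structure NS (X : Type) where
  /-- the names of the triples -/
  js : List X
  /-- the `i`-th variable of the triple `j` -/
  vr : X → Fin 3 → X
  /-- the variables -/
  vars : List X
  /-- the heavy variables -/
  hv : X → Bool
  /-- the additional weight of the heavy variables -/
  w : ℕ
  /-- the root -/
  r : X
  /-- the root is a variable -/
  hr : r ∈ vars
  /-- the members of the triples are variables -/
  hvr : ∀ j ∈ js, ∀ i, vr j i ∈ vars
  /-- the members of a triple are different -/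
  hd : ∀ j ∈ js, ∀ i i', vr j i = vr j i' → i = i'

namespace NS

variable {X : Type} (S : NS X)

/-- the vertices -/
def sup : Core X → Prop
  | P x => x ∈ S.vars
  | Q x => x ∈ S.vars
  | U x j i => j ∈ S.js ∧ x = S.vr j i
  | V x j i => j ∈ S.js ∧ x = S.vr j i
  | C j _ => j ∈ S.js
  | D x l => x ∈ S.vars ∧ S.hv x = true ∧ l < S.w

/-- the deletable edges, oriented -/
def _root_.Pool.Agent.H670R4.dlU {X : Type} : Core X → Core X → Prop
  | P x, Q y => x = y
  | Q x, U y _ _ => x = y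
  | U x j i, V y j' i' => x = y ∧ j = j' ∧ i = i'
  | V _ j i, C j' i' => j = j' ∧ i' = i
  | C j i, C j' i' => j = j' ∧ i' = i + 1
  | Q x, D y _ => x = y
  | _, _ => False

/-- the other edges, oriented -/
def _root_.Pool.Agent.H670R4.fxU {X : Type} : Core X → Core X → Prop
  | P x, U y _ _ => x = y
  | P x, D y _ => x = y
  | Q x, V y _ _ => x = y
  | U _ j i, C j' i' => j = j' ∧ i' = i
  | V _ j i, C j' i' => j = j' ∧ i' = i + 1
  | _, _ => False

theorem _root_.Pool.Agent.H670R4.dlU_irrefl {X : Type} (s : Core X) : ¬ dlU s s := by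
  cases s <;> simp [dlU]

theorem _root_.Pool.Agent.H670R4.fxU_irrefl {X : Type} (s : Core X) : ¬ fxU s s := by
  cases s <;> simp [fxU]

theorem _root_.Pool.Agent.H670R4.fin3_add_ne (i : Fin 3) : i ≠ i + 1 ∧ i ≠ i + 1 + 1 ∧
    i + 1 + 1 + 1 = i := by
  revert i
  decide

theorem _root_.Pool.Agent.H670R4.dlU_asymm {X : Type} {s t : Core X} (h : dlU s t) :
    ¬ dlU t s := by
  intro h'
  cases s <;> cases t <;> simp only [dlU] at h h'
  obtain ⟨rfl, rfl⟩ := h
  exact (fin3_add_ne _).2.1 h'.2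

/-- the core graph -/
def G : SimpleGraph (Core X) where
  Adj s t := S.sup s ∧ S.sup t ∧ (dlU s t ∨ dlU t s ∨ fxU s t ∨ fxU t s)
  symm := ⟨fun s t h => ⟨h.2.1, h.1, by tauto⟩⟩
  loopless := ⟨fun s h => by
    have h1 := dlU_irrefl s
    have h2 := fxU_irrefl s
    tauto⟩

/-- the deletable edges -/
def dl (s t : Core X) : Prop := S.sup s ∧ S.sup t ∧ dlU s t

theorem dl_adj {s t : Core X} (h : S.dl s t) : S.G.Adj s t := ⟨h.1, h.2.1, Or.inl h.2.2⟩

theorem dl_asymm (s t : Core X) (h : S.dl s t) : ¬ S.dl t s := fun h' => dlU_asymm h.2.2 h'.2.2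

/-! ### Neighbours -/

theorem adjD {x : X} {l : ℕ} {t : Core X} (h : S.G.Adj (D x l) t) : t = P x ∨ t = Q x := by
  obtain ⟨-, -, h⟩ := h
  cases t <;> simp only [dlU, fxU, or_false, false_or] at h
  · exact Or.inl (by rw [h])
  · exact Or.inr (by rw [h])

theorem adjU {x : X} {j : X} {i : Fin 3} {t : Core X} (h : S.G.Adj (U x j i) t) :
    t = P x ∨ t = Q x ∨ t = V x j i ∨ t = C j i := by
  obtain ⟨-, -, h⟩ := h
  cases t <;> simp only [dlU, fxU, or_false, false_or] at h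
  · exact Or.inl (by rw [h])
  · exact Or.inr (Or.inl (by rw [h]))
  · obtain ⟨rfl, rfl, rfl⟩ := h
    exact Or.inr (Or.inr (Or.inl rfl))
  · obtain ⟨rfl, rfl⟩ := h
    exact Or.inr (Or.inr (Or.inr rfl))

theorem adjV {x : X} {j : X} {i : Fin 3} {t : Core X} (h : S.G.Adj (V x j i) t) :
    t = Q x ∨ t = U x j i ∨ t = C j i ∨ t = C j (i + 1) := by
  obtain ⟨-, -, h⟩ := h
  cases t <;> simp only [dlU, fxU, or_false, false_or] at h
  · exact Or.inl (by rw [h])
  · obtain ⟨rfl, rfl, rfl⟩ := h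
    exact Or.inr (Or.inl rfl)
  · rcases h with ⟨rfl, rfl⟩ | ⟨rfl, rfl⟩
    · exact Or.inr (Or.inr (Or.inl rfl))
    · exact Or.inr (Or.inr (Or.inr rfl))

theorem adjC {j : X} {i : Fin 3} {t : Core X} (h : S.G.Adj (C j i) t) :
    (∃ i', t = C j i' ∧ i' ≠ i) ∨ t = U (S.vr j i) j i ∨ t = V (S.vr j i) j i ∨
      t = V (S.vr j (i + 1 + 1)) j (i + 1 + 1) := by
  obtain ⟨-, hs, h⟩ := h
  cases t <;> simp only [dlU, fxU, or_false, false_or] at h
  · obtain ⟨rfl, rfl⟩ := h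
    rw [hs.2]
    exact Or.inr (Or.inl rfl)
  · rcases h with ⟨rfl, rfl⟩ | ⟨rfl, rfl⟩
    · rw [hs.2]
      exact Or.inr (Or.inr (Or.inl rfl))
    · rw [hs.2, (fin3_add_ne _).2.2]
      exact Or.inr (Or.inr (Or.inr rfl))
  · rcases h with ⟨rfl, rfl⟩ | ⟨rfl, rfl⟩
    · exact Or.inl ⟨_, rfl, (fin3_add_ne _).1.symm⟩
    · exact Or.inl ⟨_, rfl, (fin3_add_ne _).1⟩

theorem fin3_cases {i i' : Fin 3} (h : i' ≠ i) : i' = i + 1 ∨ i' = i + 1 + 1 := by
  revert i i'
  decide

/-! ### No induced 4-cycles -/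

theorem pq_adj {x : X} (h : x ∈ S.vars) : S.G.Adj (P x) (Q x) := ⟨h, h, Or.inl rfl⟩

theorem c4_D {x : X} {l : ℕ} {b d : Core X} (hab : S.G.Adj (D x l) b) (hda : S.G.Adj d (D x l))
    (hbd : b ≠ d) : S.G.Adj b d := by
  have hx : x ∈ S.vars := hab.1.1
  rcases S.adjD hab with rfl | rfl <;> rcases S.adjD hda.symm with rfl | rfl
  · exact absurd rfl hbd
  · exact S.pq_adj hx
  · exact (S.pq_adj hx).symm
  · exact absurd rfl hbd

theorem c4_U' {x : X} {j : X} {i : Fin 3} {b c d : Core X} (hab : S.G.Adj (U x j i) b)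
    (hbc : S.G.Adj b c) (hcd : S.G.Adj c d) (hda : S.G.Adj d (U x j i)) (hac : U x j i ≠ c)
    (hbd : b ≠ d) (hord : (b = P x ∧ (d = Q x ∨ d = V x j i ∨ d = C j i)) ∨
      (b = Q x ∧ (d = V x j i ∨ d = C j i)) ∨ (b = V x j i ∧ d = C j i)) :
    S.G.Adj (U x j i) c ∨ S.G.Adj b d := by
  have hj : j ∈ S.js := hab.1.1
  have hx : x = S.vr j i := hab.1.2
  have hxv : x ∈ S.vars := by rw [hx]; exact S.hvr j hj i
  rcases hord with ⟨rfl, rfl | rfl | rfl⟩ | ⟨rfl, rfl | rfl⟩ | ⟨rfl, rfl⟩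
  · right; exact S.pq_adj hxv
  · rcases S.adjV hcd.symm with rfl | rfl | rfl | rfl
    · left; exact ⟨⟨hj, hx⟩, hxv, by simp [dlU]⟩
    · exact absurd rfl hac
    · exfalso
      simp [G, dlU, fxU] at hbc
    · exfalso
      simp [G, dlU, fxU] at hbc
  · rcases S.adjC hcd.symm with ⟨i', rfl, -⟩ | rfl | rfl | rfl
    · exfalso
      simp [G, dlU, fxU] at hbc
    · rw [← hx] at hac
      exact absurd rfl hac
    · exfalso
      simp [G, dlU, fxU] at hbc
    · exfalso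
      simp [G, dlU, fxU] at hbc
  · right; exact ⟨hxv, ⟨hj, hx⟩, by simp [fxU]⟩
  · rcases S.adjC hcd.symm with ⟨i', rfl, -⟩ | rfl | rfl | rfl
    · exfalso
      simp [G, dlU, fxU] at hbc
    · rw [← hx] at hac
      exact absurd rfl hac
    · left
      rw [← hx]
      exact ⟨⟨hj, hx⟩, ⟨hj, hx⟩, by simp [dlU]⟩
    · exfalso
      have h1 : x = S.vr j (i + 1 + 1) := by simpa [dlU, fxU] using hbc.2.2
      exact (fin3_add_ne i).2.1 (S.hd j hj _ _ (hx ▸ h1))
  · right; exact ⟨⟨hj, hx⟩, hj, by simp [dlU]⟩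

theorem c4_U {x : X} {j : X} {i : Fin 3} {b c d : Core X} (hab : S.G.Adj (U x j i) b)
    (hbc : S.G.Adj b c) (hcd : S.G.Adj c d) (hda : S.G.Adj d (U x j i)) (hac : U x j i ≠ c)
    (hbd : b ≠ d) : S.G.Adj (U x j i) c ∨ S.G.Adj b d := by
  have hb := S.adjU hab
  have hd := S.adjU hda.symm
  by_cases hord : (b = P x ∧ (d = Q x ∨ d = V x j i ∨ d = C j i)) ∨
      (b = Q x ∧ (d = V x j i ∨ d = C j i)) ∨ (b = V x j i ∧ d = C j i)
  · exact S.c4_U' hab hbc hcd hda hac hbd hord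
  · rcases S.c4_U' hda.symm hcd.symm hbc.symm hab.symm hac hbd.symm (by
      rcases hb with rfl | rfl | rfl | rfl <;> rcases hd with rfl | rfl | rfl | rfl <;>
        simp_all) with h | h
    · exact Or.inl h
    · exact Or.inr h.symm

theorem c4_V' {x : X} {j : X} {i : Fin 3} {b c d : Core X} (hab : S.G.Adj (V x j i) b)
    (hbc : S.G.Adj b c) (hcd : S.G.Adj c d) (hda : S.G.Adj d (V x j i)) (hac : V x j i ≠ c)
    (hbd : b ≠ d) (hord : (b = Q x ∧ (d = U x j i ∨ d = C j i ∨ d = C j (i + 1))) ∨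
      (b = U x j i ∧ (d = C j i ∨ d = C j (i + 1))) ∨ (b = C j i ∧ d = C j (i + 1))) :
    S.G.Adj (V x j i) c ∨ S.G.Adj b d := by
  have hj : j ∈ S.js := hab.1.1
  have hx : x = S.vr j i := hab.1.2
  have hxv : x ∈ S.vars := by rw [hx]; exact S.hvr j hj i
  rcases hord with ⟨rfl, rfl | rfl | rfl⟩ | ⟨rfl, rfl | rfl⟩ | ⟨rfl, rfl⟩
  · right; exact ⟨hxv, ⟨hj, hx⟩, by simp [dlU]⟩
  · rcases S.adjC hcd.symm with ⟨i', rfl, -⟩ | rfl | rfl | rfl
    · exfalso
      simp [G, dlU, fxU] at hbc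
    · left
      rw [← hx]
      exact ⟨⟨hj, hx⟩, ⟨hj, hx⟩, by simp [dlU]⟩
    · rw [← hx] at hac
      exact absurd rfl hac
    · exfalso
      have h1 : x = S.vr j (i + 1 + 1) := by simpa [dlU, fxU] using hbc.2.2
      exact (fin3_add_ne i).2.1 (S.hd j hj _ _ (hx ▸ h1))
  · rcases S.adjC hcd.symm with ⟨i', rfl, -⟩ | rfl | rfl | rfl
    · exfalso
      simp [G, dlU, fxU] at hbc
    · exfalso
      have h1 : x = S.vr j (i + 1) := by simpa [dlU, fxU] using hbc.2.2
      exact (fin3_add_ne i).1 (S.hd j hj _ _ (hx ▸ h1))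
    · exfalso
      have h1 : x = S.vr j (i + 1) := by simpa [dlU, fxU] using hbc.2.2
      exact (fin3_add_ne i).1 (S.hd j hj _ _ (hx ▸ h1))
    · rw [(fin3_add_ne i).2.2, ← hx] at hac
      exact absurd rfl hac
  · right; exact ⟨⟨hj, hx⟩, hj, by simp [fxU]⟩
  · rcases S.adjU hbc with rfl | rfl | rfl | rfl
    · exfalso
      simp [G, dlU, fxU] at hcd
    · exfalso
      simp [G, dlU, fxU] at hcd
    · exact absurd rfl hac
    · left
      exact ⟨⟨hj, hx⟩, hj, by simp [dlU]⟩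
  · right; exact ⟨hj, hj, by simp [dlU]⟩

theorem c4_V {x : X} {j : X} {i : Fin 3} {b c d : Core X} (hab : S.G.Adj (V x j i) b)
    (hbc : S.G.Adj b c) (hcd : S.G.Adj c d) (hda : S.G.Adj d (V x j i)) (hac : V x j i ≠ c)
    (hbd : b ≠ d) : S.G.Adj (V x j i) c ∨ S.G.Adj b d := by
  have hb := S.adjV hab
  have hd := S.adjV hda.symm
  by_cases hord : (b = Q x ∧ (d = U x j i ∨ d = C j i ∨ d = C j (i + 1))) ∨
      (b = U x j i ∧ (d = C j i ∨ d = C j (i + 1))) ∨ (b = C j i ∧ d = C j (i + 1))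
  · exact S.c4_V' hab hbc hcd hda hac hbd hord
  · rcases S.c4_V' hda.symm hcd.symm hbc.symm hab.symm hac hbd.symm (by
      rcases hb with rfl | rfl | rfl | rfl <;> rcases hd with rfl | rfl | rfl | rfl <;>
        simp_all) with h | h
    · exact Or.inl h
    · exact Or.inr h.symm

theorem c4free : C4Free S.G := by
  intro a b c d hab hbc hcd hda hac hbd
  rcases a with x | x | ⟨x, j, i⟩ | ⟨x, j, i⟩ | ⟨j, i⟩ | ⟨x, l⟩
  case U => exact S.c4_U hab hbc hcd hda hac hbd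
  case V => exact S.c4_V hab hbc hcd hda hac hbd
  case D => exact Or.inr (S.c4_D hab hda hbd)
  all_goals rcases b with y | y | ⟨y, j', i'⟩ | ⟨y, j', i'⟩ | ⟨j', i'⟩ | ⟨y, l'⟩
  case P.U | Q.U | C.U =>
    rcases S.c4_U hbc hcd hda hab hbd hac.symm with h | h
    · exact Or.inr h
    · exact Or.inl h.symm
  case P.V | Q.V | C.V =>
    rcases S.c4_V hbc hcd hda hab hbd hac.symm with h | h
    · exact Or.inr h
    · exact Or.inl h.symm
  case P.D | Q.D | C.D => exact Or.inl (S.c4_D hbc hab hac.symm).symm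
  all_goals rcases d with z | z | ⟨z, j'', i''⟩ | ⟨z, j'', i''⟩ | ⟨j'', i''⟩ | ⟨z, l''⟩
  case P.P.U | P.Q.U | P.C.U | Q.P.U | Q.Q.U | Q.C.U | C.P.U | C.Q.U | C.C.U =>
    rcases S.c4_U hda hab hbc hcd hbd.symm hac with h | h
    · exact Or.inr h.symm
    · exact Or.inl h
  case P.P.V | P.Q.V | P.C.V | Q.P.V | Q.Q.V | Q.C.V | C.P.V | C.Q.V | C.C.V =>
    rcases S.c4_V hda hab hbc hcd hbd.symm hac with h | h
    · exact Or.inr h.symm
    · exact Or.inl h
  case P.P.D | P.Q.D | P.C.D | Q.P.D | Q.Q.D | Q.C.D | C.P.D | C.Q.D | C.C.D =>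
    exact Or.inl (S.c4_D hda hcd hac)
  all_goals
    have h1 := hab.2.2
    have h2 := hda.2.2
    have s1 := hab.1
    have s2 := hab.2.1
    have s3 := hda.1
    simp only [dlU, fxU, or_false, false_or] at h1 h2
    try subst h1
    try subst h2
  · exact absurd rfl hbd
  · exact absurd rfl hbd
  · right
    have e1 : j = j' := by rcases h1 with h1 | h1 <;> simp [h1.1]
    have e2 : j = j'' := by rcases h2 with h2 | h2 <;> simp [h2.1]
    subst e1 e2
    refine ⟨s2, s3, ?_⟩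
    have hne : i'' ≠ i' := fun h => hbd (by rw [h])
    rcases fin3_cases hne with h | h
    · left
      exact ⟨rfl, h⟩
    · right; left
      refine ⟨rfl, ?_⟩
      rw [h, (fin3_add_ne _).2.2]

end NS

end Pool.Agent.H670R4
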