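import Pool.Agent.NPC.Classes
import Pool.Agent.H622R2.MatGraph
import Pool.Agent.H671R2.CK.Defs

/-!
# Edge modification problems and their kernels
-/

set_option autoImplicit false

namespace Pool.Agent.H670R4

open Pool.Agent.NPC Pool.Agent.H622R2

/-- A finite simple graph, on the vertex set `{0, ..., n - 1}`. -/
abbrev FinGraph : Type := Σ n : ℕ, SimpleGraph (Fin n)

/-- `G` is `𝓕`-free: no induced subgraph of `G` is isomorphic to a member of `𝓕`. -/
def FamFree (𝓕 : List FinGraph) {V : Type} (G : SimpleGraph V) : Prop :=
  ∀ H ∈ 𝓕, IsEmpty (H.2 ↪g G)

/-- The three types of edge modification. -/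
inductive ModType : Type
  | deletion : ModType
  | completion : ModType
  | editing : ModType

/-- `M.Allows G G'`: the graph `G'` may be obtained from `G` by a modification of type `M`
(edges are only removed, only added, or both). -/
def ModType.Allows {V : Type} : ModType → SimpleGraph V → SimpleGraph V → Prop
  | ModType.deletion, G, G' => G' ≤ G
  | ModType.completion, G, G' => G ≤ G'
  | ModType.editing, _, _ => True

/-- `G` can be made `𝓕`-free by a modification of type `M` which changes at most `k` pairs of
vertices. -/
def Modifiable (M : ModType) (𝓕 : List FinGraph) {V : Type} (G : SimpleGraph V) (k : ℕ) : Prop :=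
  ∃ G' : SimpleGraph V, M.Allows G G' ∧ FamFree 𝓕 G' ∧
    (symmDiff G.edgeSet G'.edgeSet).ncard ≤ k

/-- The `𝓕`-free edge modification problem of type `M`, parameterized by the number `k` of
modifications, has a polynomial kernel: some polynomial-time algorithm `K` maps every instance, a
graph given by an adjacency matrix `A` and a number `k`, to an equivalent instance of the same
problem whose size, the length of its code, is at most `p k` for a fixed polynomial `p`. -/
def HasPolyKernel (M : ModType) (𝓕 : List FinGraph) : Prop :=
  ∃ (K : List Bool → List Bool) (p : Polynomial ℕ), PolyTime K ∧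
    ∀ (A : List (List Bool)) (k : ℕ), ∃ (A' : List (List Bool)) (k' : ℕ),
      K (bits (A, k)) = bits (A', k') ∧
      (Modifiable M 𝓕 (matGraph A) k ↔ Modifiable M 𝓕 (matGraph A') k') ∧
      (bits (A', k')).length ≤ p.eval k

/-- The cycle with four vertices. -/
def C4 : FinGraph := ⟨4, SimpleGraph.cycleGraph 4⟩

/-- The complement of a graph. -/
def co (H : FinGraph) : FinGraph := ⟨H.1, H.2ᶜ⟩

/-- Two disjoint edges, the complement of the cycle with four vertices. -/
def TwoK2 : FinGraph := ⟨4, (SimpleGraph.cycleGraph 4)ᶜ⟩

end Pool.Agent.H670R4
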