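import Pool.Agent.H670R4.Basic

/-!
# Fixing pairs of vertices

To every pair of vertices which must not be changed, `K + 1` gadgets with two new vertices each are
attached.
-/

set_option autoImplicit false

namespace Pool.Agent.H670R4

/-- the labels with the new vertices -/
abbrev FL (β : Type) : Type := β ⊕ (β × β × ℕ × Bool)

section
variable {β : Type}

/-- adjacency between an old vertex and a new vertex of the gadget for `(s, t)` -/
def attach (B0 : SimpleGraph β) (a s t : β) (e : Bool) : Prop :=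
  (B0.Adj s t ∧ (a = s ∨ a = t)) ∨ (¬ B0.Adj s t ∧ ((e = false ∧ a = s) ∨ (e = true ∧ a = t)))

/-- the graph `B` with the gadgets for the pairs in `Fx`, whose shape is determined by `B0` -/
def plus (B0 B : SimpleGraph β) (Fx : β → β → Prop) (K : ℕ) : SimpleGraph (FL β) where
  Adj u v := match u, v with
    | Sum.inl a, Sum.inl b => B.Adj a b
    | Sum.inl a, Sum.inr (s, t, l, e) => Fx s t ∧ l ≤ K ∧ attach B0 a s t e
    | Sum.inr (s, t, l, e), Sum.inl a => Fx s t ∧ l ≤ K ∧ attach B0 a s t e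
    | Sum.inr (s, t, l, e), Sum.inr (s', t', l', e') =>
      Fx s t ∧ l ≤ K ∧ ¬ B0.Adj s t ∧ s = s' ∧ t = t' ∧ l = l' ∧ e ≠ e'
  symm := ⟨by
    rintro (a | ⟨s, t, l, e⟩) (b | ⟨s', t', l', e'⟩) h
    · exact h.symm
    · exact h
    · exact h
    · obtain ⟨h1, h2, h3, rfl, rfl, rfl, h4⟩ := h
      exact ⟨h1, h2, h3, rfl, rfl, rfl, h4.symm⟩⟩
  loopless := ⟨by
    rintro (a | ⟨s, t, l, e⟩) h
    · exact B.loopless.irrefl a h
    · exact h.2.2.2.2.2.2 rfl⟩

@[simp] theorem plus_ll {B0 B : SimpleGraph β} {Fx : β → β → Prop} {K : ℕ} {a b : β} :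
    (plus B0 B Fx K).Adj (Sum.inl a) (Sum.inl b) ↔ B.Adj a b := Iff.rfl

@[simp] theorem plus_lr {B0 B : SimpleGraph β} {Fx : β → β → Prop} {K : ℕ} {a s t : β} {l : ℕ}
    {e : Bool} : (plus B0 B Fx K).Adj (Sum.inl a) (Sum.inr (s, t, l, e)) ↔
      Fx s t ∧ l ≤ K ∧ attach B0 a s t e := Iff.rfl

@[simp] theorem plus_rl {B0 B : SimpleGraph β} {Fx : β → β → Prop} {K : ℕ} {a s t : β} {l : ℕ}
    {e : Bool} : (plus B0 B Fx K).Adj (Sum.inr (s, t, l, e)) (Sum.inl a) ↔
      Fx s t ∧ l ≤ K ∧ attach B0 a s t e := Iff.rfl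

@[simp] theorem plus_rr {B0 B : SimpleGraph β} {Fx : β → β → Prop} {K : ℕ} {s t s' t' : β}
    {l l' : ℕ} {e e' : Bool} :
    (plus B0 B Fx K).Adj (Sum.inr (s, t, l, e)) (Sum.inr (s', t', l', e')) ↔
      Fx s t ∧ l ≤ K ∧ ¬ B0.Adj s t ∧ s = s' ∧ t = t' ∧ l = l' ∧ e ≠ e' := Iff.rfl

/-- no bad 4-cycle passes through a new vertex -/
theorem plus_new {B0 B : SimpleGraph β} {Fx : β → β → Prop} {K : ℕ}
    (hag : ∀ s t, Fx s t → (B0.Adj s t ↔ B.Adj s t)) (z : β × β × ℕ × Bool) (b c d : FL β)
    (hab : (plus B0 B Fx K).Adj (Sum.inr z) b) (hbc : (plus B0 B Fx K).Adj b c)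
    (hcd : (plus B0 B Fx K).Adj c d) (hda : (plus B0 B Fx K).Adj d (Sum.inr z))
    (hac : Sum.inr z ≠ c) (hbd : b ≠ d) : (plus B0 B Fx K).Adj b d := by
  obtain ⟨s, t, l, e⟩ := z
  by_cases hst : B0.Adj s t
  · -- the neighbours are `s` and `t`
    have hnb : ∀ y, (plus B0 B Fx K).Adj (Sum.inr (s, t, l, e)) y →
        Fx s t ∧ (y = Sum.inl s ∨ y = Sum.inl t) := by
      rintro (y | ⟨s', t', l', e'⟩) hy
      · obtain ⟨h1, h2, h3⟩ := plus_rl.1 hy
        refine ⟨h1, ?_⟩
        rcases h3 with h3 | h3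
        · rcases h3.2 with h4 | h4
          · exact Or.inl (by rw [h4])
          · exact Or.inr (by rw [h4])
        · exact absurd hst h3.1
      · exact absurd hst (plus_rr.1 hy).2.2.1
    obtain ⟨hfx, hb⟩ := hnb b hab
    obtain ⟨-, hd⟩ := hnb d hda.symm
    have hB := (hag s t hfx).1 hst
    rcases hb with rfl | rfl <;> rcases hd with rfl | rfl
    · exact absurd rfl hbd
    · exact hB
    · exact hB.symm
    · exact absurd rfl hbd
  · have hnb : ∀ y, (plus B0 B Fx K).Adj (Sum.inr (s, t, l, e)) y →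
        Fx s t ∧ (y = Sum.inl (if e then t else s) ∨ y = Sum.inr (s, t, l, !e)) := by
      rintro (y | ⟨s', t', l', e'⟩) hy
      · obtain ⟨h1, h2, h3⟩ := plus_rl.1 hy
        refine ⟨h1, Or.inl ?_⟩
        rcases h3 with h3 | h3
        · exact absurd h3.1 hst
        · rcases h3.2 with h4 | h4
          · rw [h4.1, h4.2]; rfl
          · rw [h4.1, h4.2]; rfl
      · obtain ⟨h1, h2, h3, rfl, rfl, rfl, h4⟩ := plus_rr.1 hy
        refine ⟨h1, Or.inr ?_⟩
        cases e <;> cases e' <;> simp_all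
    have hnb' : ∀ y, (plus B0 B Fx K).Adj (Sum.inr (s, t, l, !e)) y →
        (y = Sum.inl (if e then s else t) ∨ y = Sum.inr (s, t, l, e)) := by
      rintro (y | ⟨s', t', l', e'⟩) hy
      · obtain ⟨h1, h2, h3⟩ := plus_rl.1 hy
        refine Or.inl ?_
        rcases h3 with h3 | h3
        · exact absurd h3.1 hst
        · rcases h3.2 with h4 | h4
          · have : e = true := by simpa using h4.1
            rw [this, h4.2]; rfl
          · have : e = false := by simpa using h4.1
            rw [this, h4.2]; rfl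
      · obtain ⟨h1, h2, h3, rfl, rfl, rfl, h4⟩ := plus_rr.1 hy
        refine Or.inr ?_
        cases e <;> cases e' <;> simp_all
    obtain ⟨hfx, hb⟩ := hnb b hab
    obtain ⟨-, hd⟩ := hnb d hda.symm
    have hB : ¬ B.Adj s t := fun h => hst ((hag s t hfx).2 h)
    have hB' : ¬ B.Adj t s := fun h => hB h.symm
    exfalso
    rcases hb with rfl | rfl <;> rcases hd with rfl | rfl
    · exact hbd rfl
    · rcases hnb' c hcd.symm with rfl | rfl
      · cases e
        · exact hB hbc
        · exact hB' hbc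
      · exact hac rfl
    · rcases hnb' c hbc with rfl | rfl
      · cases e
        · exact hB' hcd
        · exact hB hcd
      · exact hac rfl
    · exact hbd rfl

theorem plus_c4free {B0 B : SimpleGraph β} {Fx : β → β → Prop} {K : ℕ}
    (hag : ∀ s t, Fx s t → (B0.Adj s t ↔ B.Adj s t)) (hB : C4Free B) :
    C4Free (plus B0 B Fx K) := by
  intro a b c d hab hbc hcd hda hac hbd
  rcases a with a | a
  · rcases b with b | b
    · rcases c with c | c
      · rcases d with d | d
        · exact hB a b c d hab hbc hcd hda (fun e => hac (by rw [e])) (fun e => hbd (by rw [e]))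
        · exact Or.inl (plus_new hag d _ _ _ hda hab hbc hcd hbd.symm hac)
      · exact Or.inr (plus_new hag c _ _ _ hcd hda hab hbc hac.symm hbd.symm).symm
    · exact Or.inl (plus_new hag b _ _ _ hbc hcd hda hab hbd hac.symm).symm
  · exact Or.inr (plus_new hag a _ _ _ hab hbc hcd hda hac hbd)

theorem plus_near {B0 B B' : SimpleGraph β} {Fx : β → β → Prop} {K k : ℕ}
    (h : Near B B' k) : Near (plus B0 B Fx K) (plus B0 B' Fx K) k := by
  classical
  obtain ⟨F, hF, h⟩ := h
  refine ⟨F.image (Sym2.map Sum.inl), Finset.card_image_le.trans hF, ?_⟩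
  rintro (a | ⟨s, t, l, e⟩) (b | ⟨s', t', l', e'⟩) hab
  · exact Finset.mem_image.2 ⟨s(a, b), h a b hab, rfl⟩
  · exact absurd Iff.rfl hab
  · exact absurd Iff.rfl hab
  · exact absurd Iff.rfl hab

/-- the pairs with gadgets cannot be changed by at most `K` modifications -/
theorem plus_fixed {B : SimpleGraph β} {Fx : β → β → Prop} {K : ℕ} (hne : ∀ s t, Fx s t → s ≠ t)
    {G' : SimpleGraph (FL β)} (hG' : C4Free G') (hn : Near (plus B B Fx K) G' K) {s t : β}
    (hst : Fx s t) : B.Adj s t ↔ G'.Adj (Sum.inl s) (Sum.inl t) := by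
  classical
  by_contra hdiff
  obtain ⟨F, hF, h⟩ := hn
  have hne' := hne s t hst
  let z : ℕ → Bool → FL β := fun l e => Sum.inr (s, t, l, e)
  have key : ∀ l : ℕ, l ≤ K → ∃ (e : Bool) (y : FL β), s(z l e, y) ∈ F ∧
      (y = Sum.inl s ∨ y = Sum.inl t ∨ y = z l !e) := by
    intro l hl
    by_contra hcon
    push Not at hcon
    have h1 : ∀ (e : Bool) (y : FL β), (y = Sum.inl s ∨ y = Sum.inl t ∨ y = z l !e) →
        ((plus B B Fx K).Adj (z l e) y ↔ G'.Adj (z l e) y) := by
      intro e y hy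
      by_contra hc
      have h2 := hcon e y (h _ _ hc)
      rcases hy with hy | hy | hy
      · exact h2.1 hy
      · exact h2.2.1 hy
      · exact h2.2.2 hy
    by_cases hB : B.Adj s t
    · have hnG : ¬ G'.Adj (Sum.inl s) (Sum.inl t) := fun hc => hdiff ⟨fun _ => hc, fun _ => hB⟩
      have a1 : ∀ e, G'.Adj (z l e) (Sum.inl s) := fun e =>
        (h1 e _ (Or.inl rfl)).1 (plus_rl.2 ⟨hst, hl, Or.inl ⟨hB, Or.inl rfl⟩⟩)
      have a2 : ∀ e, G'.Adj (z l e) (Sum.inl t) := fun e =>
        (h1 e _ (Or.inr (Or.inl rfl))).1 (plus_rl.2 ⟨hst, hl, Or.inl ⟨hB, Or.inr rfl⟩⟩)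
      have a3 : ¬ G'.Adj (z l false) (z l true) := by
        rw [← h1 false (z l true) (Or.inr (Or.inr rfl))]
        intro hc
        exact hc.2.2.1 hB
      rcases hG' (Sum.inl s) (z l false) (Sum.inl t) (z l true) (a1 false).symm (a2 false)
        (a2 true).symm (a1 true) (fun e => hne' (Sum.inl.inj e))
        (fun e => by simp [z] at e) with h3 | h3
      · exact hnG h3
      · exact a3 h3
    · have hG : G'.Adj (Sum.inl s) (Sum.inl t) := by
        by_contra hc
        exact hdiff ⟨fun h' => absurd h' hB, fun h' => absurd h' hc⟩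
      have a1 : G'.Adj (z l false) (Sum.inl s) :=
        (h1 false _ (Or.inl rfl)).1 (plus_rl.2 ⟨hst, hl, Or.inr ⟨hB, Or.inl ⟨rfl, rfl⟩⟩⟩)
      have a2 : G'.Adj (z l true) (Sum.inl t) :=
        (h1 true _ (Or.inr (Or.inl rfl))).1 (plus_rl.2 ⟨hst, hl, Or.inr ⟨hB, Or.inr ⟨rfl, rfl⟩⟩⟩)
      have a3 : G'.Adj (z l false) (z l true) :=
        (h1 false _ (Or.inr (Or.inr rfl))).1 (plus_rr.2 ⟨hst, hl, hB, rfl, rfl, rfl, by simp⟩)
      have a4 : ¬ G'.Adj (z l false) (Sum.inl t) := by
        rw [← h1 false _ (Or.inr (Or.inl rfl))]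
        intro hc
        rcases (plus_rl.1 hc).2.2 with hc | hc
        · exact hB hc.1
        · rcases hc.2 with hc | hc
          · exact hne' hc.2.symm
          · exact absurd hc.1 (by simp)
      have a5 : ¬ G'.Adj (z l true) (Sum.inl s) := by
        rw [← h1 true _ (Or.inl rfl)]
        intro hc
        rcases (plus_rl.1 hc).2.2 with hc | hc
        · exact hB hc.1
        · rcases hc.2 with hc | hc
          · exact absurd hc.1 (by simp)
          · exact hne' hc.2
      rcases hG' (Sum.inl s) (z l false) (z l true) (Sum.inl t) a1.symm a3 a2 hG.symm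
        (fun e => by simp [z] at e) (fun e => by simp [z] at e) with h3 | h3
      · exact a5 h3.symm
      · exact a4 h3
  haveI : Nonempty (FL β) := ⟨Sum.inl s⟩
  choose! e y hy1 hy2 using key
  have hcard : (Finset.range (K + 1)).card ≤ F.card := by
    refine Finset.card_le_card_of_injOn (fun l => s(z l (e l), y l)) ?_ ?_
    · intro l hl
      rw [Finset.coe_range, Set.mem_Iio] at hl
      exact hy1 l (by omega)
    · intro l hl l' hl' heq
      rw [Finset.coe_range, Set.mem_Iio] at hl hl'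
      have h1 : z l (e l) ∈ s(z l' (e l'), y l') := by
        rw [show s(z l' (e l'), y l') = s(z l (e l), y l) from heq.symm]
        exact Sym2.mem_mk_left _ _
      rw [Sym2.mem_iff] at h1
      rcases h1 with h1 | h1
      · simp only [z, Sum.inr.injEq, Prod.mk.injEq] at h1
        exact h1.2.2.1
      · rcases hy2 l' (by omega) with h2 | h2 | h2
        · rw [h2] at h1
          simp [z] at h1
        · rw [h2] at h1
          simp [z] at h1
        · rw [h2] at h1
          simp only [z, Sum.inr.injEq, Prod.mk.injEq] at h1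
          exact h1.2.2.1
  rw [Finset.card_range] at hcard
  omega

end

end Pool.Agent.H670R4
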