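import Pool.Agent.H670R4.Fix

/-!
# A common neighbour for every deletable edge
-/

set_option autoImplicit false

namespace Pool.Agent.H670R4

/-- the labels with the helpers -/
abbrev HL (α : Type) : Type := α ⊕ (α × α)

section
variable {α : Type}

/-- the graph `R` with a new common neighbour of `s` and `t` for all `s`, `t` with `dl s t` -/
def hp (dl : α → α → Prop) (R : SimpleGraph α) : SimpleGraph (HL α) where
  Adj u v := match u, v with
    | Sum.inl a, Sum.inl b => R.Adj a b
    | Sum.inl a, Sum.inr (s, t) => dl s t ∧ (a = s ∨ a = t)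
    | Sum.inr (s, t), Sum.inl a => dl s t ∧ (a = s ∨ a = t)
    | Sum.inr _, Sum.inr _ => False
  symm := ⟨by
    rintro (a | ⟨s, t⟩) (b | ⟨s', t'⟩) h
    · exact h.symm
    · exact h
    · exact h
    · exact h⟩
  loopless := ⟨by
    rintro (a | ⟨s, t⟩) h
    · exact R.loopless.irrefl a h
    · exact h⟩

@[simp] theorem hp_ll {dl : α → α → Prop} {R : SimpleGraph α} {a b : α} :
    (hp dl R).Adj (Sum.inl a) (Sum.inl b) ↔ R.Adj a b := Iff.rfl

@[simp] theorem hp_lr {dl : α → α → Prop} {R : SimpleGraph α} {a s t : α} :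
    (hp dl R).Adj (Sum.inl a) (Sum.inr (s, t)) ↔ dl s t ∧ (a = s ∨ a = t) := Iff.rfl

@[simp] theorem hp_rl {dl : α → α → Prop} {R : SimpleGraph α} {a s t : α} :
    (hp dl R).Adj (Sum.inr (s, t)) (Sum.inl a) ↔ dl s t ∧ (a = s ∨ a = t) := Iff.rfl

@[simp] theorem hp_rr {dl : α → α → Prop} {R : SimpleGraph α} {p q : α × α} :
    (hp dl R).Adj (Sum.inr p) (Sum.inr q) ↔ False := Iff.rfl

theorem hp_new {dl : α → α → Prop} {G R : SimpleGraph α}
    (has : ∀ s t, dl s t → ¬ dl t s) (hdlG : ∀ s t, dl s t → G.Adj s t)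
    (htri : ∀ a b c, G.Adj a b → ¬ R.Adj a b → R.Adj a c → R.Adj b c → False)
    (z : α × α) (b c d : HL α)
    (hab : (hp dl R).Adj (Sum.inr z) b) (hbc : (hp dl R).Adj b c)
    (hcd : (hp dl R).Adj c d) (hda : (hp dl R).Adj d (Sum.inr z))
    (hac : Sum.inr z ≠ c) (hbd : b ≠ d) : (hp dl R).Adj b d := by
  obtain ⟨s, t⟩ := z
  have hnb : ∀ y, (hp dl R).Adj (Sum.inr (s, t)) y → dl s t ∧ (y = Sum.inl s ∨ y = Sum.inl t) := by
    rintro (y | ⟨s', t'⟩) hy
    · obtain ⟨h1, h2⟩ := hp_rl.1 hy
      refine ⟨h1, ?_⟩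
      rcases h2 with h2 | h2
      · exact Or.inl (by rw [h2])
      · exact Or.inr (by rw [h2])
    · exact absurd hy (fun h => h)
  obtain ⟨hst, hb⟩ := hnb b hab
  obtain ⟨-, hd⟩ := hnb d hda.symm
  have hG := hdlG s t hst
  have hcs : (hp dl R).Adj c (Sum.inl s) := by
    rcases hb with rfl | rfl <;> rcases hd with rfl | rfl
    · exact absurd rfl hbd
    · exact hbc.symm
    · exact hcd
    · exact absurd rfl hbd
  have hct : (hp dl R).Adj c (Sum.inl t) := by
    rcases hb with rfl | rfl <;> rcases hd with rfl | rfl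
    · exact absurd rfl hbd
    · exact hcd
    · exact hbc.symm
    · exact absurd rfl hbd
  have hR : R.Adj s t := by
    rcases c with c | ⟨s', t'⟩
    · by_contra hn
      exact htri s t c hG hn (hp_ll.1 hcs).symm (hp_ll.1 hct).symm
    · obtain ⟨h1, h2⟩ := hp_rl.1 hcs
      obtain ⟨-, h3⟩ := hp_rl.1 hct
      rcases h2 with rfl | rfl
      · rcases h3 with rfl | rfl
        · exact absurd rfl hG.ne
        · exact absurd rfl hac
      · rcases h3 with rfl | rfl
        · exact absurd h1 (has _ _ hst)
        · exact absurd rfl hG.ne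
  rcases hb with rfl | rfl <;> rcases hd with rfl | rfl
  · exact absurd rfl hbd
  · exact hR
  · exact hR.symm
  · exact absurd rfl hbd

/-- the graph with the helpers has no induced 4-cycle if no triangle loses exactly one edge -/
theorem hp_c4free {dl : α → α → Prop} {G R : SimpleGraph α} (hG : C4Free G) (hle : R ≤ G)
    (has : ∀ s t, dl s t → ¬ dl t s) (hdlG : ∀ s t, dl s t → G.Adj s t)
    (htri : ∀ a b c, G.Adj a b → ¬ R.Adj a b → R.Adj a c → R.Adj b c → False) :
    C4Free (hp dl R) := by
  intro a b c d hab hbc hcd hda hac hbd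
  rcases a with a | a
  · rcases b with b | b
    · rcases c with c | c
      · rcases d with d | d
        · have h1 : R.Adj a b := hab
          have h2 : R.Adj b c := hbc
          have h3 : R.Adj c d := hcd
          have h4 : R.Adj d a := hda
          rcases hG a b c d (hle h1) (hle h2) (hle h3) (hle h4) (fun e => hac (by rw [e]))
            (fun e => hbd (by rw [e])) with h | h
          · left
            by_contra hn
            exact htri a c b h hn h1 h2.symm
          · right
            by_contra hn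
            exact htri b d c h hn h2 h3.symm
        · exact Or.inl (hp_new has hdlG htri d _ _ _ hda hab hbc hcd hbd.symm hac)
      · exact Or.inr (hp_new has hdlG htri c _ _ _ hcd hda hab hbc hac.symm hbd.symm).symm
    · exact Or.inl (hp_new has hdlG htri b _ _ _ hbc hcd hda hab hbd hac.symm).symm
  · exact Or.inr (hp_new has hdlG htri a _ _ _ hab hbc hcd hda hac hbd)

end

end Pool.Agent.H670R4
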