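import Pool.Agent.H670R4.PInst2
import Pool.Agent.H671R2.CK.K3
import Pool.Agent.H671R2.Search
import Pool.Agent.H622R2.CoNP

/-!
# `C4`-free and `2K2`-free edge editing have no polynomial kernels
-/

set_option autoImplicit false

namespace Pool.Agent.H670R4

open Pool.Agent.NPC Pool.Agent.H622R2 Pool.Agent.NPC.R671 Pool.Agent.CK

/-- The kernelization applied to the instance of a list of strings. -/
def cmp (F : List Bool → List Bool) (red : List Bool → Fm) (xs : List (List Bool)) :
    Option (List (List Bool) × ℕ) :=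
  unbits (List (List Bool) × ℕ) (F (bits (instM (xs.map red), H670R4.instK (xs.map red))))

theorem poly_cmp {F : List Bool → List Bool} {red : List Bool → Fm} (hF : PolyTime F)
    (hred : Poly red) : Poly (cmp F red) := by
  have h1 : Poly (fun xs : List (List Bool) => xs.map red) :=
    NPC.Poly.map (F := fun _ x => red x) NPC.Poly.id (hred.comp (NPC.Poly.snd NPC.Poly.id))
  have h2 : Poly (fun xs : List (List Bool) => (instM (xs.map red),
      H670R4.instK (xs.map red))) := H670R4.poly_inst h1
  have h3 : Poly (fun xs : List (List Bool) => bits (instM (xs.map red),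
      H670R4.instK (xs.map red))) := poly_bits.comp h2
  have h4 := (poly_of_polyTime hF).comp h3
  exact (poly_unbits (α := List (List Bool) × ℕ)).comp h4

theorem eval_mono'' (p : Polynomial ℕ) {a b : ℕ} (h : a ≤ b) : p.eval a ≤ p.eval b := by
  rw [Polynomial.eval_eq_sum, Polynomial.eval_eq_sum]
  exact Finset.sum_le_sum fun i _ => Nat.mul_le_mul_left _ (Nat.pow_le_pow_left h i)

theorem incomp_C4 (h : HasPolyKernel ModType.editing [C4]) : CoNPSubsetNPPoly := by
  obtain ⟨F, g, hF, hker⟩ := h
  intro L hL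
  obtain ⟨red, hred, hpr, hL'⟩ := hardPr_SAT3b Lᶜ hL
  have hredP : Poly red := PC.comp (g := red) (f := fun x => x) hred rawOut
  obtain ⟨p, hp⟩ := hredP.sz_le
  obtain ⟨q1, hq1⟩ := H670R4.instK_bound
  have key : ∀ xs : List (List Bool), xs ≠ [] → ∃ (A' : List (List Bool)) (k' : ℕ),
      cmp F red xs = some (A', k') ∧
      (Modifiable ModType.editing [C4] (matGraph A') k' ↔ ∃ x ∈ xs, x ∉ L) ∧
      (bits (A', k')).length ≤ g.eval (H670R4.instK (xs.map red)) := by
    intro xs hxs
    have hb : Good (xs.map red) := by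
      intro φ hφ
      obtain ⟨x, -, rfl⟩ := List.mem_map.1 hφ
      exact ⟨(hpr x).1, (hpr x).2.1⟩
    obtain ⟨A', k', h3, h4, h5⟩ := hker (instM (xs.map red)) (H670R4.instK (xs.map red))
    refine ⟨A', k', ?_, ?_, h5⟩
    · unfold cmp
      rw [h3, unbits_bits]
    · rw [← h4, H670R4.inst_iff hb (by simpa using hxs)]
      constructor
      · rintro ⟨φ, hφ, hs⟩
        obtain ⟨x, hx, rfl⟩ := List.mem_map.1 hφ
        exact ⟨x, hx, (hL' x).2 hs⟩
      · rintro ⟨x, hx, hxL⟩
        exact ⟨red x, List.mem_map_of_mem hx, (hL' x).1 hxL⟩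
  refine fs L (cmp F red) (poly_cmp hF hredP)
    (fun y => ∃ A' k', y = some (A', k') ∧ Modifiable ModType.editing [C4] (matGraph A') k')
    (g.comp (q1.comp (p.comp (Polynomial.C 4 * Polynomial.X + 1) + Polynomial.X)) +
      Polynomial.C 2) ?_ ?_
  · intro n xs hne hn
    obtain ⟨A', k', h1, -, h4⟩ := key xs hne
    have hlen : ∀ φ ∈ xs.map red, φ.length ≤ p.eval (4 * n + 1) := by
      intro φ hφ
      obtain ⟨x, hx, rfl⟩ := List.mem_map.1 hφ
      have e1 := length_lt_sz (red x)
      have e2 := hp x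
      have e3 := sz_listBool_le x
      rw [hn x hx] at e3
      have e4 := eval_mono'' p e3
      omega
    have h5 := hq1 (xs.map red) _ hlen
    rw [List.length_map] at h5
    rw [h1, sz_some, ← bits_length]
    simp only [Polynomial.eval_add, Polynomial.eval_comp, Polynomial.eval_mul, Polynomial.eval_C,
      Polynomial.eval_X, Polynomial.eval_one]
    refine Nat.add_le_add_right (h4.trans (eval_mono'' g (h5.trans (eval_mono'' q1 ?_)))) 2
    have e5 : p.eval (4 * n + 1) ≤ p.eval (4 * (n + xs.length.size) + 1) :=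
      eval_mono'' p (by omega)
    omega
  · intro n xs hne _
    obtain ⟨A', k', h1, h2, -⟩ := key xs hne
    rw [h1]
    constructor
    · rintro ⟨A'', k'', i1, i2⟩
      rw [Option.some.injEq, Prod.mk.injEq] at i1
      obtain ⟨rfl, rfl⟩ := i1
      exact h2.1 i2
    · intro hx
      exact ⟨A', k', rfl, h2.2 hx⟩

/-! ### Complements -/

/-- the complement matrix -/
def coM (A : List (List Bool)) : List (List Bool) :=
  (List.range A.length).map fun i => (List.range A.length).map fun j =>
    !(entry A i j || entry A j i)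

theorem coM_length (A : List (List Bool)) : (coM A).length = A.length := by simp [coM]

theorem coM_entry (A : List (List Bool)) {i j : ℕ} (hi : i < A.length) (hj : j < A.length) :
    entry (coM A) i j = !(entry A i j || entry A j i) := by
  have hmap := entry_mat (List.range A.length) (fun i j => !(entry A i j || entry A j i)) i j
    (by simpa using hi) (by simpa using hj)
  have : mat (List.range A.length) (fun i j => !(entry A i j || entry A j i)) = coM A := rfl
  rw [this] at hmap
  rw [hmap]
  simp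

/-- the graph of the complement matrix is the complement -/
noncomputable def coIso (A : List (List Bool)) : matGraph (coM A) ≃g (matGraph A)ᶜ where
  toEquiv := finCongr (coM_length A)
  map_rel_iff' := by
    intro a b
    have ha : a.1 < A.length := lt_of_lt_of_eq a.2 (coM_length A)
    have hb : b.1 < A.length := lt_of_lt_of_eq b.2 (coM_length A)
    simp only [SimpleGraph.compl_adj, matGraph, finCongr_apply, Fin.val_cast]
    rw [coM_entry A ha hb, coM_entry A hb ha]
    have h1 : (Fin.cast (coM_length A) a ≠ Fin.cast (coM_length A) b) ↔ a ≠ b := by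
      simp [Fin.ext_iff]
    rw [h1]
    cases entry A a.1 b.1 <;> cases entry A b.1 a.1 <;> simp

theorem symmDiff_compl {V : Type} (G H : SimpleGraph V) :
    symmDiff Gᶜ.edgeSet Hᶜ.edgeSet = symmDiff G.edgeSet H.edgeSet := by
  ext z
  induction z using Sym2.ind with
  | _ x y =>
    simp only [Set.mem_symmDiff, SimpleGraph.mem_edgeSet, SimpleGraph.compl_adj]
    have h1 : G.Adj x y → x ≠ y := fun h => h.ne
    have h2 : H.Adj x y → x ≠ y := fun h => h.ne
    tauto

/-- an embedding of a complement -/
def coEmb {V W : Type} {G : SimpleGraph V} {H : SimpleGraph W} (f : G ↪g H) : Gᶜ ↪g Hᶜ where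
  toEmbedding := f.toEmbedding
  map_rel_iff' := by
    intro a b
    have h1 : H.Adj (f a) (f b) ↔ G.Adj a b := f.map_rel_iff'
    have h2 : (f a = f b) ↔ a = b := f.injective.eq_iff
    change (Hᶜ).Adj (f a) (f b) ↔ _
    rw [SimpleGraph.compl_adj, SimpleGraph.compl_adj, h1, ne_eq, h2]

theorem famFree_co (𝓕 : List FinGraph) {V : Type} (G : SimpleGraph V) :
    FamFree (𝓕.map co) Gᶜ ↔ FamFree 𝓕 G := by
  constructor
  · intro h H hH
    refine ⟨fun f => (h (co H) (List.mem_map_of_mem hH)).false (coEmb f)⟩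
  · intro h H hH
    obtain ⟨K, hK, rfl⟩ := List.mem_map.1 hH
    refine ⟨fun f => (h K hK).false ?_⟩
    have f' : K.2ᶜ ↪g Gᶜ := f
    have g := coEmb f'
    rw [compl_compl, compl_compl] at g
    exact g

theorem modifiable_co_of (𝓕 : List FinGraph) {V : Type} (G : SimpleGraph V) (k : ℕ)
    (h : Modifiable ModType.editing 𝓕 G k) : Modifiable ModType.editing (𝓕.map co) Gᶜ k := by
  obtain ⟨G', -, h2, h3⟩ := h
  refine ⟨G'ᶜ, trivial, (famFree_co 𝓕 G').2 h2, ?_⟩
  rw [symmDiff_compl]
  exact h3

theorem modifiable_co (𝓕 : List FinGraph) {V : Type} (G : SimpleGraph V) (k : ℕ) :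
    Modifiable ModType.editing (𝓕.map co) Gᶜ k ↔ Modifiable ModType.editing 𝓕 G k := by
  constructor
  · rintro ⟨G', -, h2, h3⟩
    refine ⟨G'ᶜ, trivial, ?_, ?_⟩
    · rw [← famFree_co, compl_compl]
      exact h2
    · rw [← symmDiff_compl, compl_compl]
      exact h3
  · exact modifiable_co_of 𝓕 G k

theorem poly_coM {α : Type} [TEnc α] {A : α → List (List Bool)} (hA : Poly A) :
    Poly (fun a => coM (A a)) := by
  have hr : Poly (fun a => List.range (A a).length) := (UPoly.length hA).range
  have e1 : Poly (fun p : (α × ℕ) × ℕ => A p.1.1) := hA.comp (NPC.Poly.fst (NPC.Poly.fst NPC.Poly.id))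
  have e2 : Poly (fun p : (α × ℕ) × ℕ => p.1.2) := NPC.Poly.snd (NPC.Poly.fst NPC.Poly.id)
  have e3 : Poly (fun p : (α × ℕ) × ℕ => p.2) := NPC.Poly.snd NPC.Poly.id
  have e4 : Poly (fun p : (α × ℕ) × ℕ => (A p.1.1).getD p.1.2 []) :=
    NPC.Poly.getD e1 e2 (NPC.Poly.const _)
  have e5 : Poly (fun p : (α × ℕ) × ℕ => (A p.1.1).getD p.2 []) :=
    NPC.Poly.getD e1 e3 (NPC.Poly.const _)
  have e6 : Poly (fun p : (α × ℕ) × ℕ => entry (A p.1.1) p.1.2 p.2) :=
    NPC.Poly.getD e4 e3 (NPC.Poly.const _)
  have e7 : Poly (fun p : (α × ℕ) × ℕ => entry (A p.1.1) p.2 p.1.2) :=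
    NPC.Poly.getD e5 e2 (NPC.Poly.const _)
  have e8 : Poly (fun p : (α × ℕ) × ℕ =>
      (!(entry (A p.1.1) p.1.2 p.2 || entry (A p.1.1) p.2 p.1.2))) :=
    NPC.Poly.not (NPC.Poly.or e6 e7)
  have hr' : Poly (fun p : α × ℕ => List.range (A p.1).length) := hr.comp (NPC.Poly.fst NPC.Poly.id)
  have e9 : Poly (fun p : α × ℕ => (List.range (A p.1).length).map fun j =>
      !(entry (A p.1) p.2 j || entry (A p.1) j p.2)) :=
    NPC.Poly.map (F := fun (p : α × ℕ) (j : ℕ) =>
      !(entry (A p.1) p.2 j || entry (A p.1) j p.2)) hr' e8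
  exact NPC.Poly.map (F := fun (a : α) (i : ℕ) => (List.range (A a).length).map fun j =>
      !(entry (A a) i j || entry (A a) j i)) hr e9

theorem coM_sz : ∃ p : Polynomial ℕ, ∀ A : List (List Bool), ∀ k : ℕ,
    (bits (coM A, k)).length ≤ p.eval (bits (A, k)).length := by
  have h : Poly (fun x : List (List Bool) × ℕ => (coM x.1, x.2)) :=
    NPC.Poly.pair (poly_coM (NPC.Poly.fst NPC.Poly.id)) (NPC.Poly.snd NPC.Poly.id)
  obtain ⟨p, hp⟩ := h.sz_le
  exact ⟨p, fun A k => hp (A, k)⟩

/-- instances -/
abbrev Ins : Type := List (List Bool) × ℕ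

/-- the complementary instance -/
def coI (y : Ins) : Ins := (coM y.1, y.2)

theorem poly_coI : Poly coI :=
  NPC.Poly.pair (poly_coM (NPC.Poly.fst NPC.Poly.id)) (NPC.Poly.snd NPC.Poly.id)

/-- the kernelization for the complementary problem, with decoded values -/
def kco (F : List Bool → List Bool) (y : Ins) : Option Ins :=
  (unbits Ins (F (bits (coI y)))).map coI

theorem poly_kco {F : List Bool → List Bool} (hF : PolyTime F) : Poly (kco F) := by
  have h1 : Poly (fun y : Ins => bits (coI y)) := poly_bits.comp poly_coI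
  have h2 : Poly (fun y : Ins => F (bits (coI y))) := (poly_of_polyTime hF).comp h1
  have h3 : Poly (fun y : Ins => unbits Ins (F (bits (coI y)))) := (poly_unbits (α := Ins)).comp h2
  have h4 : Poly (fun p : Ins × Ins => coI p.2) := poly_coI.comp (NPC.Poly.snd NPC.Poly.id)
  exact NPC.Poly.optMap_fp (o := fun y : Ins => unbits Ins (F (bits (coI y))))
    (h := fun (_ : Ins) (z : Ins) => coI z) h3 h4

/-- the kernelization for the complementary problem -/
def kco' (F : List Bool → List Bool) (x : List Bool) : List Bool :=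
  ((unbits Ins x).bind (kco F)).elim [] bits

theorem polyTime_kco' {F : List Bool → List Bool} (hF : PolyTime F) : PolyTime (kco' F) := by
  refine polyTime_of_poly_list ?_
  have h0 : Poly (fun x : List Bool => unbits Ins x) := poly_unbits
  have h1 : Poly (fun p : List Bool × Ins => kco F p.2) :=
    (poly_kco hF).comp (NPC.Poly.snd NPC.Poly.id)
  have h2 : Poly (fun x : List Bool => (unbits Ins x).bind (kco F)) :=
    NPC.Poly.optBind (o := fun x : List Bool => unbits Ins x)
      (f := fun (_ : List Bool) (y : Ins) => kco F y) h0 h1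
  have h3 : Poly (fun p : List Bool × Ins => bits p.2) :=
    poly_bits.comp (NPC.Poly.snd NPC.Poly.id)
  exact NPC.Poly.optElim (o := fun x : List Bool => (unbits Ins x).bind (kco F))
    (g := fun _ => ([] : List Bool)) (h := fun (_ : List Bool) (y : Ins) => bits y) h2
    (NPC.Poly.const _) h3

/-- kernels for complementary families -/
theorem hasPolyKernel_co (𝓕 : List FinGraph) (h : HasPolyKernel ModType.editing (𝓕.map co)) :
    HasPolyKernel ModType.editing 𝓕 := by
  obtain ⟨F, g, hF, hker⟩ := h
  obtain ⟨p, hp⟩ := coM_sz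
  refine ⟨kco' F, p.comp g, polyTime_kco' hF, ?_⟩
  intro A k
  obtain ⟨A', k', h1, h2, h3⟩ := hker (coM A) k
  refine ⟨coM A', k', ?_, ?_, ?_⟩
  · unfold kco' kco coI
    rw [unbits_bits, Option.bind_some, h1, unbits_bits, Option.map_some, Option.elim_some]
  · have e1 : Modifiable ModType.editing (𝓕.map co) (matGraph (coM A)) k ↔
        Modifiable ModType.editing 𝓕 (matGraph A) k := by
      rw [modifiable_iso_iff (coIso A), modifiable_co]
    have e2 : Modifiable ModType.editing (𝓕.map co) (matGraph A') k' ↔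
        Modifiable ModType.editing 𝓕 (matGraph (coM A')) k' := by
      have e3 := modifiable_co 𝓕 (matGraph A')ᶜ k'
      rw [compl_compl] at e3
      rw [modifiable_iso_iff (coIso A')]
      exact e3
    rw [← e1, h2, e2]
  · refine (hp A' k').trans ?_
    rw [Polynomial.eval_comp]
    exact eval_mono'' p h3

theorem incomp_2K2 (h : HasPolyKernel ModType.editing [TwoK2]) : CoNPSubsetNPPoly := by
  refine incomp_C4 (hasPolyKernel_co [C4] ?_)
  exact h

end Pool.Agent.H670R4
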