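import Pool.Agent.H670R4.Sat
import Pool.Agent.H622R2.Base

/-!
# The instance of a list of formulas
-/

set_option autoImplicit false

namespace Pool.Agent.H670R4

open Pool.Agent.NPC Pool.Agent.H622R2

/-- the code of a label of the core -/
def encC : Core Nm → ℕ × Nm × Nm × ℕ
  | Core.P x => (0, x, (0, 0, 0), 0)
  | Core.Q x => (1, x, (0, 0, 0), 0)
  | Core.U x j i => (2, x, j, i.val)
  | Core.V x j i => (3, x, j, i.val)
  | Core.C j i => (4, (0, 0, 0), j, i.val)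
  | Core.D x l => (5, x, (0, 0, 0), l)

theorem encC_inj : Function.Injective encC := by
  intro a b h
  rcases a with x | x | ⟨x, j, i⟩ | ⟨x, j, i⟩ | ⟨j, i⟩ | ⟨x, l⟩ <;>
    rcases b with y | y | ⟨y, j', i'⟩ | ⟨y, j', i'⟩ | ⟨j', i'⟩ | ⟨y, l'⟩ <;>
    have h1 := congrArg Prod.fst h <;> have h2 := congrArg (fun z => z.2.1) h <;>
    have h3 := congrArg (fun z => z.2.2.1) h <;> have h4 := congrArg (fun z => z.2.2.2) h <;>
    simp only [encC] at h1 h2 h3 h4 <;> first | omega | skip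
  · rw [h2]
  · rw [h2]
  · rw [h2, h3, Fin.ext h4]
  · rw [h2, h3, Fin.ext h4]
  · rw [h3, Fin.ext h4]
  · rw [h2, h4]

instance : DecidableEq (HL (Core Nm)) := instDecidableEqSum

instance : DecidableEq (FL (HL (Core Nm))) := instDecidableEqSum

instance : TEnc (Core Nm) := ⟨fun c => toT (encC c), fun _ _ h => encC_inj (TEnc.inj h)⟩

/-- deletable edges, on codes -/
def dlT (s t : ℕ × Nm × Nm × ℕ) : Bool :=
  decide (s.1 = 0 ∧ t.1 = 1 ∧ s.2.1 = t.2.1) ||
  (decide (s.1 = 1 ∧ t.1 = 2 ∧ s.2.1 = t.2.1) ||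
  (decide (s.1 = 2 ∧ t.1 = 3 ∧ s.2.1 = t.2.1 ∧ s.2.2.1 = t.2.2.1 ∧ s.2.2.2 = t.2.2.2) ||
  (decide (s.1 = 3 ∧ t.1 = 4 ∧ s.2.2.1 = t.2.2.1 ∧ t.2.2.2 = s.2.2.2) ||
  (decide (s.1 = 4 ∧ t.1 = 4 ∧ s.2.2.1 = t.2.2.1 ∧ t.2.2.2 = (s.2.2.2 + 1) % 3) ||
  decide (s.1 = 1 ∧ t.1 = 5 ∧ s.2.1 = t.2.1)))))

/-- other edges, on codes -/
def fxT (s t : ℕ × Nm × Nm × ℕ) : Bool :=
  decide (s.1 = 0 ∧ t.1 = 2 ∧ s.2.1 = t.2.1) ||
  (decide (s.1 = 0 ∧ t.1 = 5 ∧ s.2.1 = t.2.1) ||
  (decide (s.1 = 1 ∧ t.1 = 3 ∧ s.2.1 = t.2.1) ||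
  (decide (s.1 = 2 ∧ t.1 = 4 ∧ s.2.2.1 = t.2.2.1 ∧ t.2.2.2 = s.2.2.2) ||
  decide (s.1 = 3 ∧ t.1 = 4 ∧ s.2.2.1 = t.2.2.1 ∧ t.2.2.2 = (s.2.2.2 + 1) % 3))))

theorem fin3_val (i i' : Fin 3) : (i' : ℕ) = ((i : ℕ) + 1) % 3 ↔ i' = i + 1 := by
  revert i i'
  decide

theorem dlT_iff (s t : Core Nm) : dlT (encC s) (encC t) = true ↔ dlU s t := by
  cases s <;> cases t <;> simp [dlT, encC, dlU, fin3_val, ← Fin.ext_iff]

theorem fxT_iff (s t : Core Nm) : fxT (encC s) (encC t) = true ↔ fxU s t := by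
  cases s <;> cases t <;> simp [fxT, encC, fxU, fin3_val, ← Fin.ext_iff]

/-- the root edge -/
def rootB (s t : Core Nm) : Bool :=
  (decide (s = Core.P (0, 0, 1)) && decide (t = Core.Q (0, 0, 1))) ||
    (decide (s = Core.Q (0, 0, 1)) && decide (t = Core.P (0, 0, 1)))

theorem rootB_iff (s t : Core Nm) : rootB s t = true ↔ rootE (0, 0, 1) s t := by
  simp [rootB, rootE]

/-- adjacency in the core -/
def adjC (s t : Core Nm) : Bool :=
  (dlT (encC s) (encC t) || (dlT (encC t) (encC s) || (fxT (encC s) (encC t) ||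
    fxT (encC t) (encC s)))) && !rootB s t

/-- adjacency in the base graph -/
def adjH (u v : HL (Core Nm)) : Bool :=
  Sum.elim (fun a => Sum.elim (fun b => adjC a b) (fun q => decide (a = q.1) || decide (a = q.2)) v)
    (fun p => Sum.elim (fun b => decide (b = p.1) || decide (b = p.2)) (fun _ => false) v) u

/-- the allowed pairs -/
def alH (u v : HL (Core Nm)) : Bool :=
  Sum.elim (fun a => Sum.elim (fun b => (dlT (encC a) (encC b) || dlT (encC b) (encC a)) &&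
    !rootB a b) (fun _ => false) v) (fun _ => false) u

/-- attachment -/
def attB (a : HL (Core Nm)) (q : HL (Core Nm) × HL (Core Nm) × ℕ × Bool) : Bool :=
  (adjH q.1 q.2.1 && (decide (a = q.1) || decide (a = q.2.1))) ||
    (!(adjH q.1 q.2.1) && ((!q.2.2.2 && decide (a = q.1)) || (q.2.2.2 && decide (a = q.2.1))))

/-- adjacency in the final graph -/
def adjF (u v : FL (HL (Core Nm))) : Bool :=
  Sum.elim (fun a => Sum.elim (fun b => adjH a b) (fun q => attB a q) v)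
    (fun p => Sum.elim (fun b => attB b p) (fun q => !(adjH p.1 p.2.1) && (decide (p.1 = q.1) &&
      (decide (p.2.1 = q.2.1) && (decide (p.2.2.1 = q.2.2.1) && (p.2.2.2 ^^ q.2.2.2))))) v) u

/-- the vertices of the core -/
def coreL (fs : List Fm) (w : ℕ) : List (Core Nm) :=
  (varsL fs).map Core.P ++ ((varsL fs).map Core.Q ++
    ((jsL fs).flatMap (fun j => [Core.U (trip fs j).1 j 0, Core.U (trip fs j).2.1 j 1,
      Core.U (trip fs j).2.2 j 2, Core.V (trip fs j).1 j 0, Core.V (trip fs j).2.1 j 1,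
      Core.V (trip fs j).2.2 j 2, Core.C j 0, Core.C j 1, Core.C j 2]) ++
    ((varsL fs).filter heavy).flatMap (fun x => (List.range w).map (fun l => Core.D x l))))

/-- the vertices of the base graph -/
def hlL (fs : List Fm) (w : ℕ) : List (HL (Core Nm)) :=
  (coreL fs w).map Sum.inl ++ (((coreL fs w) ×ˢ (coreL fs w)).filter
    (fun p => dlT (encC p.1) (encC p.2))).map Sum.inr

/-- the vertices of the final graph -/
def flL (fs : List Fm) (w K : ℕ) : List (FL (HL (Core Nm))) :=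
  (hlL fs w).map Sum.inl ++
    (((hlL fs w) ×ˢ (hlL fs w)).filter (fun p => !decide (p.1 = p.2) && !alH p.1 p.2)).flatMap
      (fun p => (List.range (K + 1)).flatMap
        (fun l => [Sum.inr (p.1, p.2, l, false), Sum.inr (p.1, p.2, l, true)]))

section

variable {fs : List Fm} (hg : Good fs) (w K : ℕ)

theorem mem_coreL (s : Core Nm) : s ∈ coreL fs w ↔ (sys fs hg w).sup s := by
  simp only [coreL, List.mem_append, List.mem_map, List.mem_flatMap, List.mem_filter,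
    List.mem_range]
  cases s with
  | P x => simp [NS.sup, sys]
  | Q x => simp [NS.sup, sys]
  | U x j i =>
    simp only [NS.sup, sys, reduceCtorEq, and_false, exists_false, List.mem_cons, Core.U.injEq,
      List.not_mem_nil, false_or, or_false]
    constructor
    · rintro ⟨j', hj', ⟨rfl, rfl, rfl⟩ | ⟨rfl, rfl, rfl⟩ | ⟨rfl, rfl, rfl⟩⟩
      · exact ⟨hj', rfl⟩
      · exact ⟨hj', rfl⟩
      · exact ⟨hj', rfl⟩
    · rintro ⟨hj, rfl⟩
      refine ⟨j, hj, ?_⟩
      fin_cases i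
      · exact Or.inl ⟨rfl, rfl, rfl⟩
      · exact Or.inr (Or.inl ⟨rfl, rfl, rfl⟩)
      · exact Or.inr (Or.inr ⟨rfl, rfl, rfl⟩)
  | V x j i =>
    simp only [NS.sup, sys, reduceCtorEq, and_false, exists_false, List.mem_cons, Core.V.injEq,
      List.not_mem_nil, false_or, or_false]
    constructor
    · rintro ⟨j', hj', ⟨rfl, rfl, rfl⟩ | ⟨rfl, rfl, rfl⟩ | ⟨rfl, rfl, rfl⟩⟩
      · exact ⟨hj', rfl⟩
      · exact ⟨hj', rfl⟩
      · exact ⟨hj', rfl⟩
    · rintro ⟨hj, rfl⟩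
      refine ⟨j, hj, ?_⟩
      fin_cases i
      · exact Or.inl ⟨rfl, rfl, rfl⟩
      · exact Or.inr (Or.inl ⟨rfl, rfl, rfl⟩)
      · exact Or.inr (Or.inr ⟨rfl, rfl, rfl⟩)
  | C j i =>
    simp only [NS.sup, sys, reduceCtorEq, and_false, exists_false, List.mem_cons, Core.C.injEq,
      List.not_mem_nil, false_or, or_false]
    constructor
    · rintro ⟨j', hj', ⟨rfl, rfl⟩ | ⟨rfl, rfl⟩ | ⟨rfl, rfl⟩⟩
      · exact hj'
      · exact hj'
      · exact hj'
    · intro hj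
      refine ⟨j, hj, ?_⟩
      fin_cases i
      · exact Or.inl ⟨rfl, rfl⟩
      · exact Or.inr (Or.inl ⟨rfl, rfl⟩)
      · exact Or.inr (Or.inr ⟨rfl, rfl⟩)
  | D x l =>
    simp only [NS.sup, sys, reduceCtorEq, and_false, exists_false, List.mem_cons, Core.D.injEq,
      List.not_mem_nil, false_or, or_false]
    constructor
    · rintro ⟨x', ⟨h1, h2⟩, l', h3, rfl, rfl⟩
      exact ⟨h1, h2, h3⟩
    · rintro ⟨h1, h2, h3⟩
      exact ⟨x, ⟨h1, h2⟩, l, h3, rfl, rfl⟩

theorem mem_hlL (u : HL (Core Nm)) : u ∈ hlL fs w ↔ (sys fs hg w).supB u := by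
  simp only [hlL, List.mem_append, List.mem_map, List.mem_filter]
  rcases u with a | ⟨s, t⟩
  · simp [NS.supB, mem_coreL hg w]
  · simp only [reduceCtorEq, and_false, exists_false, false_or, Sum.inr.injEq, exists_eq_right,
      List.mem_product, mem_coreL hg w, dlT_iff, NS.supB, NS.dl]
    tauto

theorem alH_iff {u v : HL (Core Nm)} (hu : (sys fs hg w).supB u) (hv : (sys fs hg w).supB v) :
    alH u v = true ↔ (sys fs hg w).Al u v := by
  rcases u with a | ⟨s, t⟩ <;> rcases v with b | ⟨s', t'⟩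
  · simp only [alH, Sum.elim_inl, Bool.and_eq_true, Bool.or_eq_true, dlT_iff,
      Bool.not_eq_true', NS.Al, NS.dl]
    rw [← Bool.not_eq_true, rootB_iff]
    have h1 : (sys fs hg w).sup a := hu
    have h2 : (sys fs hg w).sup b := hv
    have h3 : (sys fs hg w).r = (0, 0, 1) := rfl
    rw [h3]
    tauto
  · simp [alH, NS.Al]
  · simp [alH, NS.Al]
  · simp [alH, NS.Al]

theorem adjH_iff {u v : HL (Core Nm)} (hu : (sys fs hg w).supB u) (hv : (sys fs hg w).supB v) :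
    adjH u v = true ↔ (sys fs hg w).B.Adj u v := by
  rcases u with a | ⟨s, t⟩ <;> rcases v with b | ⟨s', t'⟩
  · simp only [adjH, Sum.elim_inl, adjC, Bool.and_eq_true, Bool.or_eq_true, dlT_iff, fxT_iff,
      Bool.not_eq_true', NS.B, hp_ll, NS.R0, NS.G]
    rw [← Bool.not_eq_true, rootB_iff]
    have h1 : (sys fs hg w).sup a := hu
    have h2 : (sys fs hg w).sup b := hv
    have h3 : (sys fs hg w).r = (0, 0, 1) := rfl
    rw [h3]
    tauto
  · have h1 : (sys fs hg w).dl s' t' := hv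
    simp [adjH, NS.B, h1]
  · have h1 : (sys fs hg w).dl s t := hu
    simp [adjH, NS.B, h1]
  · simp [adjH, NS.B]

theorem B_supB {u v : HL (Core Nm)} (h : (sys fs hg w).B.Adj u v) :
    (sys fs hg w).supB u ∧ (sys fs hg w).supB v := by
  rcases u with a | ⟨s, t⟩ <;> rcases v with b | ⟨s', t'⟩
  · exact ⟨h.1.1, h.1.2.1⟩
  · obtain ⟨h1, rfl | rfl⟩ := hp_lr.1 h
    · exact ⟨h1.1, h1⟩
    · exact ⟨h1.2.1, h1⟩
  · obtain ⟨h1, rfl | rfl⟩ := hp_rl.1 h
    · exact ⟨h1, h1.1⟩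
    · exact ⟨h1, h1.2.1⟩
  · exact absurd h (by simp [NS.B])

theorem mem_flL_inl (u : HL (Core Nm)) :
    (Sum.inl u : FL (HL (Core Nm))) ∈ flL fs w K ↔ (sys fs hg w).supB u := by
  simp [flL, mem_hlL hg w]

theorem mem_flL_inr (s t : HL (Core Nm)) (l : ℕ) (e : Bool) :
    (Sum.inr (s, t, l, e) : FL (HL (Core Nm))) ∈ flL fs w K ↔
      (sys fs hg w).Fx s t ∧ l ≤ K := by
  have hprod : ∀ p : HL (Core Nm) × HL (Core Nm), p ∈ (hlL fs w) ×ˢ (hlL fs w) ↔
      (sys fs hg w).supB p.1 ∧ (sys fs hg w).supB p.2 := by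
    rintro ⟨p1, p2⟩
    rw [List.mem_product, mem_hlL hg w, mem_hlL hg w]
  simp only [flL, List.mem_append, List.mem_map, reduceCtorEq, and_false, exists_false, false_or,
    List.mem_flatMap, List.mem_filter, hprod, List.mem_range, List.mem_cons,
    Sum.inr.injEq, Prod.mk.injEq, List.not_mem_nil, or_false, Bool.and_eq_true,
    Bool.not_eq_true', decide_eq_false_iff_not, NS.Fx]
  constructor
  · rintro ⟨⟨s', t'⟩, ⟨⟨h1, h2⟩, h3, h4⟩, l', hl', ⟨rfl, rfl, rfl, -⟩ | ⟨rfl, rfl, rfl, -⟩⟩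
    · refine ⟨⟨h1, h2, h3, ?_⟩, by omega⟩
      rw [← alH_iff hg w h1 h2]
      simpa using h4
    · refine ⟨⟨h1, h2, h3, ?_⟩, by omega⟩
      rw [← alH_iff hg w h1 h2]
      simpa using h4
  · rintro ⟨⟨h1, h2, h3, h4⟩, h5⟩
    rw [← alH_iff hg w h1 h2] at h4
    refine ⟨(s, t), ⟨⟨h1, h2⟩, h3, by simpa using h4⟩, l, by omega, ?_⟩
    cases e
    · exact Or.inl ⟨rfl, rfl, rfl, rfl⟩
    · exact Or.inr ⟨rfl, rfl, rfl, rfl⟩

theorem attB_iff {a s t : HL (Core Nm)} (l : ℕ) (e : Bool) (hs : (sys fs hg w).supB s)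
    (ht : (sys fs hg w).supB t) :
    attB a (s, t, l, e) = true ↔ attach (sys fs hg w).B a s t e := by
  unfold attB attach
  simp only [Bool.or_eq_true, Bool.and_eq_true, decide_eq_true_eq, adjH_iff hg w hs ht,
    Bool.not_eq_true']
  rw [← Bool.not_eq_true, adjH_iff hg w hs ht]

theorem listG_eq : listG (ddup (flL fs w K)) adjF = (sys fs hg w).final K := by
  ext u v
  simp only [listG, mem_ddup]
  rcases u with a | ⟨s, t, l, e⟩ <;> rcases v with b | ⟨s', t', l', e'⟩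
  · rw [mem_flL_inl hg, mem_flL_inl hg]
    simp only [NS.final, plus_ll]
    constructor
    · rintro ⟨h1, h2, -, h3 | h3⟩
      · exact (adjH_iff hg w h1 h2).1 h3
      · exact ((adjH_iff hg w h2 h1).1 h3).symm
    · intro h
      obtain ⟨h1, h2⟩ := B_supB hg w h
      exact ⟨h1, h2, fun e => h.ne (Sum.inl.inj e), Or.inl ((adjH_iff hg w h1 h2).2 h)⟩
  · rw [mem_flL_inl hg, mem_flL_inr hg]
    simp only [NS.final, plus_lr]
    constructor
    · rintro ⟨h1, ⟨h2, h2'⟩, -, h3⟩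
      refine ⟨h2, h2', ?_⟩
      rw [← attB_iff hg w l' e' h2.1 h2.2.1]
      rcases h3 with h3 | h3
      · exact h3
      · exact h3
    · rintro ⟨h1, h2, h3⟩
      refine ⟨?_, ⟨h1, h2⟩, by simp, ?_⟩
      · rcases h3 with h3 | h3
        · rcases h3.2 with rfl | rfl
          · exact h1.1
          · exact h1.2.1
        · rcases h3.2 with ⟨-, rfl⟩ | ⟨-, rfl⟩
          · exact h1.1
          · exact h1.2.1
      · exact Or.inl ((attB_iff hg w l' e' h1.1 h1.2.1).2 h3)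
  · rw [mem_flL_inl hg, mem_flL_inr hg]
    simp only [NS.final, plus_rl]
    constructor
    · rintro ⟨⟨h2, h2'⟩, h1, -, h3⟩
      refine ⟨h2, h2', ?_⟩
      rw [← attB_iff hg w l e h2.1 h2.2.1]
      rcases h3 with h3 | h3
      · exact h3
      · exact h3
    · rintro ⟨h1, h2, h3⟩
      refine ⟨⟨h1, h2⟩, ?_, by simp, ?_⟩
      · rcases h3 with h3 | h3
        · rcases h3.2 with rfl | rfl
          · exact h1.1
          · exact h1.2.1
        · rcases h3.2 with ⟨-, rfl⟩ | ⟨-, rfl⟩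
          · exact h1.1
          · exact h1.2.1
      · exact Or.inl ((attB_iff hg w l e h1.1 h1.2.1).2 h3)
  · rw [mem_flL_inr hg, mem_flL_inr hg]
    simp only [NS.final, plus_rr, adjF, Sum.elim_inr, Bool.and_eq_true, Bool.not_eq_true',
      decide_eq_true_eq]
    constructor
    · rintro ⟨⟨h1, h2⟩, -, h3, h4 | h4⟩
      · obtain ⟨h5, rfl, rfl, rfl, h6⟩ := h4
        refine ⟨h1, h2, ?_, rfl, rfl, rfl, ?_⟩
        · rw [← adjH_iff hg w h1.1 h1.2.1]
          simpa using h5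
        · simpa using h6
      · obtain ⟨h5, rfl, rfl, rfl, h6⟩ := h4
        refine ⟨h1, h2, ?_, rfl, rfl, rfl, ?_⟩
        · rw [← adjH_iff hg w h1.1 h1.2.1]
          simpa using h5
        · cases e <;> cases e' <;> simp_all
    · rintro ⟨h1, h2, h3, rfl, rfl, rfl, h4⟩
      refine ⟨⟨h1, h2⟩, ⟨h1, h2⟩, ?_, Or.inl ⟨?_, rfl, rfl, rfl, ?_⟩⟩
      · simpa using h4
      · rw [← adjH_iff hg w h1.1 h1.2.1] at h3
        simpa using h3
      · simpa using h4

end

/-- the weight -/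
def instW (fs : List Fm) : ℕ := 13 * (2 * fs.length).size + 64 * maxL fs

/-- the number of modifications -/
def instK (fs : List Fm) : ℕ := 3 * maxL fs * instW fs + instW fs

/-- the matrix of the instance -/
def instM (fs : List Fm) : List (List Bool) :=
  mat (ddup (flL fs (instW fs) (instK fs))) adjF

theorem inst_iff {fs : List Fm} (hg : Good fs) (hne : fs ≠ []) :
    Modifiable ModType.editing [C4] (matGraph (instM fs)) (instK fs) ↔ ∃ φ ∈ fs, SAT3 φ := by
  unfold instM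
  rw [editable_listG _ _ (ddup_nodup _), listG_eq hg]
  constructor
  · rintro ⟨G', h1, h2⟩
    obtain ⟨T, hT1, hT2, hT3, hT4⟩ := (sys fs hg (instW fs)).no h1 h2 rfl
    refine sys_no hg hne (instW fs) (instK fs) ?_ T hT1 hT3 hT4
    unfold instK
    have : (3 * maxL fs + 1) * (instW fs + 1) = 3 * maxL fs * instW fs + instW fs +
      (3 * maxL fs + 1) := by ring
    omega
  · rintro ⟨φ, hφ, hs⟩
    obtain ⟨T, hT1, hT2, hT3⟩ := sys_yes hg (instW fs) hφ hs
    obtain ⟨G', h1, h2, -⟩ := (sys fs hg (instW fs)).yes (T := T) hT1 hT2 (K := instK fs) (by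
      unfold instK
      refine le_of_eq_of_le ?_ hT3
      congr
      exact Subsingleton.elim _ _)
    exact ⟨G', h1, h2⟩

end Pool.Agent.H670R4
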