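import Pool.Agent.H670R4.Inst
import Pool.Agent.H671R2.PolyAuto
import Pool.Agent.H671R2.CK.K7

/-!
# The instance is computed in polynomial time
-/

set_option autoImplicit false

namespace Pool.Agent.H670R4

open Pool.Agent.NPC Pool.Agent.H622R2

section
variable {α : Type} [TEnc α]

@[fun_prop]
theorem poly_encC {f : α → Core Nm} (hf : Poly f) : Poly (fun a => encC (f a)) :=
  Poly.of_toT (Poly.toT' hf)

theorem poly_ofEnc {f : α → Core Nm} (hf : Poly (fun a => encC (f a))) : Poly f :=
  Poly.of_toT (Poly.toT' hf)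

@[fun_prop]
theorem poly_P {x : α → Nm} (hx : Poly x) : Poly (fun a => Core.P (x a)) :=
  poly_ofEnc (f := fun a => Core.P (x a)) (by
    simp only [encC]
    fun_prop)

@[fun_prop]
theorem poly_Q {x : α → Nm} (hx : Poly x) : Poly (fun a => Core.Q (x a)) :=
  poly_ofEnc (f := fun a => Core.Q (x a)) (by
    simp only [encC]
    fun_prop)

@[fun_prop]
theorem poly_U {x j : α → Nm} (hx : Poly x) (hj : Poly j) (i : Fin 3) :
    Poly (fun a => Core.U (x a) (j a) i) :=
  poly_ofEnc (f := fun a => Core.U (x a) (j a) i) (by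
    simp only [encC]
    fun_prop)

@[fun_prop]
theorem poly_V {x j : α → Nm} (hx : Poly x) (hj : Poly j) (i : Fin 3) :
    Poly (fun a => Core.V (x a) (j a) i) :=
  poly_ofEnc (f := fun a => Core.V (x a) (j a) i) (by
    simp only [encC]
    fun_prop)

@[fun_prop]
theorem poly_C {j : α → Nm} (hj : Poly j) (i : Fin 3) :
    Poly (fun a => Core.C (j a) i) :=
  poly_ofEnc (f := fun a => Core.C (j a) i) (by
    simp only [encC]
    fun_prop)

@[fun_prop]
theorem poly_D {x : α → Nm} {l : α → ℕ} (hx : Poly x) (hl : Poly l) :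
    Poly (fun a => Core.D (x a) (l a)) :=
  poly_ofEnc (f := fun a => Core.D (x a) (l a)) (by
    simp only [encC]
    fun_prop)

@[fun_prop]
theorem poly_dlT {s t : α → ℕ × Nm × Nm × ℕ} (hs : Poly s) (ht : Poly t) :
    Poly (fun a => dlT (s a) (t a)) := by
  unfold dlT
  fun_prop

@[fun_prop]
theorem poly_fxT {s t : α → ℕ × Nm × Nm × ℕ} (hs : Poly s) (ht : Poly t) :
    Poly (fun a => fxT (s a) (t a)) := by
  unfold fxT
  fun_prop

@[fun_prop]
theorem poly_rootB {s t : α → Core Nm} (hs : Poly s) (ht : Poly t) :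
    Poly (fun a => rootB (s a) (t a)) := by
  unfold rootB
  fun_prop

@[fun_prop]
theorem poly_adjC {s t : α → Core Nm} (hs : Poly s) (ht : Poly t) :
    Poly (fun a => adjC (s a) (t a)) := by
  unfold adjC
  fun_prop

@[fun_prop]
theorem poly_adjH {s t : α → HL (Core Nm)} (hs : Poly s) (ht : Poly t) :
    Poly (fun a => adjH (s a) (t a)) := by
  unfold adjH
  refine Poly.sumElim (g := fun a b => Sum.elim (fun b' => adjC b b')
    (fun q => decide (b = q.1) || decide (b = q.2)) (t a))
    (h := fun a p => Sum.elim (fun b => decide (b = p.1) || decide (b = p.2))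
      (fun _ => false) (t a)) hs ?_ ?_
  · exact Poly.sumElim (g := fun (p : α × Core Nm) (b' : Core Nm) => adjC p.2 b')
      (h := fun (p : α × Core Nm) (q : Core Nm × Core Nm) =>
        decide (p.2 = q.1) || decide (p.2 = q.2))
      (ht.comp (Poly.fst Poly.id)) (by fun_prop) (by fun_prop)
  · exact Poly.sumElim (g := fun (p : α × (Core Nm × Core Nm)) (b : Core Nm) =>
      decide (b = p.2.1) || decide (b = p.2.2))
      (h := fun (p : α × (Core Nm × Core Nm)) (_ : Core Nm × Core Nm) => false)
      (ht.comp (Poly.fst Poly.id)) (by fun_prop) (NPC.Poly.const _)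

@[fun_prop]
theorem poly_alH {s t : α → HL (Core Nm)} (hs : Poly s) (ht : Poly t) :
    Poly (fun a => alH (s a) (t a)) := by
  unfold alH
  refine Poly.sumElim (g := fun a b => Sum.elim (fun b' => (dlT (encC b) (encC b') ||
    dlT (encC b') (encC b)) && !rootB b b') (fun _ => false) (t a))
    (h := fun a (_ : Core Nm × Core Nm) => false) hs ?_ (NPC.Poly.const _)
  exact Poly.sumElim (g := fun (p : α × Core Nm) (b' : Core Nm) =>
    (dlT (encC p.2) (encC b') || dlT (encC b') (encC p.2)) && !rootB p.2 b')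
    (h := fun (p : α × Core Nm) (_ : Core Nm × Core Nm) => false)
    (ht.comp (Poly.fst Poly.id)) (by fun_prop) (NPC.Poly.const _)

@[fun_prop]
theorem poly_attB {s : α → HL (Core Nm)} {q : α → HL (Core Nm) × HL (Core Nm) × ℕ × Bool}
    (hs : Poly s) (hq : Poly q) : Poly (fun a => attB (s a) (q a)) := by
  unfold attB
  fun_prop

@[fun_prop]
theorem poly_adjF {s t : α → FL (HL (Core Nm))} (hs : Poly s) (ht : Poly t) :
    Poly (fun a => adjF (s a) (t a)) := by
  unfold adjF
  refine Poly.sumElim (g := fun a b => Sum.elim (fun b' => adjH b b') (fun q => attB b q) (t a))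
    (h := fun a p => Sum.elim (fun b => attB b p) (fun q => !(adjH p.1 p.2.1) &&
      (decide (p.1 = q.1) && (decide (p.2.1 = q.2.1) && (decide (p.2.2.1 = q.2.2.1) &&
        (p.2.2.2 ^^ q.2.2.2))))) (t a)) hs ?_ ?_
  · exact Poly.sumElim (g := fun (p : α × HL (Core Nm)) (b' : HL (Core Nm)) => adjH p.2 b')
      (h := fun (p : α × HL (Core Nm)) (q : HL (Core Nm) × HL (Core Nm) × ℕ × Bool) =>
        attB p.2 q)
      (ht.comp (Poly.fst Poly.id)) (by fun_prop) (by fun_prop)
  · exact Poly.sumElim (g := fun (p : α × (HL (Core Nm) × HL (Core Nm) × ℕ × Bool))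
      (b : HL (Core Nm)) => attB b p.2)
      (h := fun (p : α × (HL (Core Nm) × HL (Core Nm) × ℕ × Bool))
        (q : HL (Core Nm) × HL (Core Nm) × ℕ × Bool) =>
        !(adjH p.2.1 p.2.2.1) && (decide (p.2.1 = q.1) && (decide (p.2.2.1 = q.2.1) &&
          (decide (p.2.2.2.1 = q.2.2.1) && (p.2.2.2.2 ^^ q.2.2.2)))))
      (ht.comp (Poly.fst Poly.id)) (by fun_prop) (by fun_prop)

/-! ### Lists -/

@[fun_prop]
theorem poly_fget {fs : α → List Fm} {i : α → ℕ} (hf : Poly fs) (hi : Poly i) :
    Poly (fun a => fget (fs a) (i a)) := by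
  unfold fget
  exact Poly.getD hf hi (NPC.Poly.const _)

@[fun_prop]
theorem poly_cget {φ : α → Fm} {i : α → ℕ} (hf : Poly φ) (hi : Poly i) :
    Poly (fun a => cget (φ a) (i a)) := by
  unfold cget
  exact Poly.getD hf hi (NPC.Poly.const _)

@[fun_prop]
theorem poly_ltn {i : α → ℕ} {l : α → Lit ℕ} (hi : Poly i) (hl : Poly l) :
    Poly (fun a => ltn (i a) (l a)) := by
  unfold ltn
  fun_prop

@[fun_prop]
theorem poly_trip {fs : α → List Fm} {j : α → Nm} (hf : Poly fs) (hj : Poly j) :
    Poly (fun a => trip (fs a) (j a)) := by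
  unfold trip
  fun_prop

theorem upoly_maxL {fs : α → List Fm} (hf : Poly fs) : UPoly (fun a => maxL (fs a)) :=
  CK.upoly_maxLen hf

theorem upoly_len {fs : α → List Fm} (hf : Poly fs) : UPoly (fun a => (fs a).length) :=
  UPoly.length hf

end

theorem poly_jsL : Poly jsL := by
  unfold jsL
  have h1 : Poly (fun fs : List Fm => List.range fs.length) :=
    (UPoly.length Poly.id).range
  have h2 : Poly (fun p : List Fm × ℕ => List.range (3 * maxL p.1)) :=
    (UPoly.mul (UPoly.const 3) (upoly_maxL (Poly.fst Poly.id))).range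
  have h3 : Poly (fun p : List Fm × ℕ => List.range (fget p.1 p.2).length) :=
    (UPoly.length (poly_fget (Poly.fst Poly.id) (Poly.snd Poly.id))).range
  refine Poly.append ?_ ?_
  · refine NPC.Poly.map (F := fun _ x => ((0, 0, x) : Nm)) ?_ (by fun_prop)
    exact Poly.filter (p := fun _ x => decide (1 ≤ x)) h1 (by fun_prop)
  · refine Poly.flatMap (F := fun fs i => (List.range (3 * maxL fs)).map
      (fun v => ((1, i, v) : Nm)) ++ (List.range (fget fs i).length).flatMap
        fun c => [((2, i, c) : Nm), (3, i, c)]) h1 ?_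
    refine Poly.append ?_ ?_
    · exact NPC.Poly.map (F := fun p v => ((1, p.2, v) : Nm)) h2 (by fun_prop)
    · exact Poly.flatMap (F := fun p c => [((2, p.2, c) : Nm), (3, p.2, c)]) h3 (by fun_prop)

theorem poly_varsL : Poly varsL := by
  unfold varsL
  have h0 : Poly (fun fs : List Fm => List.range (2 * fs.length + 2)) :=
    (UPoly.add (UPoly.mul (UPoly.const 2) (UPoly.length Poly.id)) (UPoly.const 2)).range
  have h1 : Poly (fun fs : List Fm => List.range fs.length) :=
    (UPoly.length Poly.id).range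
  have h2 : Poly (fun p : List Fm × ℕ => List.range (3 * maxL p.1)) :=
    (UPoly.mul (UPoly.const 3) (upoly_maxL (Poly.fst Poly.id))).range
  have h3 : Poly (fun p : List Fm × ℕ => List.range (fget p.1 p.2).length) :=
    (UPoly.length (poly_fget (Poly.fst Poly.id) (Poly.snd Poly.id))).range
  refine Poly.append ?_ ?_
  · refine NPC.Poly.map (F := fun _ x => ((0, 0, x) : Nm)) ?_ (by fun_prop)
    exact Poly.filter (p := fun _ x => decide (1 ≤ x)) h0 (by fun_prop)
  · refine Poly.flatMap (F := fun fs i => (List.range (3 * maxL fs)).flatMap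
      (fun v => [((1, i, v) : Nm), (2, i, v)]) ++ (List.range (fget fs i).length).map
        fun c => ((3, i, c) : Nm)) h1 ?_
    refine Poly.append ?_ ?_
    · exact Poly.flatMap (F := fun p v => [((1, p.2, v) : Nm), (2, p.2, v)]) h2 (by fun_prop)
    · exact NPC.Poly.map (F := fun p c => ((3, p.2, c) : Nm)) h3 (by fun_prop)

section
variable {α : Type} [TEnc α]

theorem poly_coreL {fs : α → List Fm} {w : α → ℕ} (hf : Poly fs) (hw : UPoly w) :
    Poly (fun a => coreL (fs a) (w a)) := by
  unfold coreL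
  have hv : Poly (fun a => varsL (fs a)) := poly_varsL.comp hf
  have hj : Poly (fun a => jsL (fs a)) := poly_jsL.comp hf
  refine Poly.append (NPC.Poly.map (F := fun _ x => Core.P x) hv (by fun_prop))
    (Poly.append (NPC.Poly.map (F := fun _ x => Core.Q x) hv (by fun_prop)) (Poly.append ?_ ?_))
  · exact Poly.flatMap (F := fun a j => [Core.U (trip (fs a) j).1 j 0,
      Core.U (trip (fs a) j).2.1 j 1,
      Core.U (trip (fs a) j).2.2 j 2, Core.V (trip (fs a) j).1 j 0, Core.V (trip (fs a) j).2.1 j 1,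
      Core.V (trip (fs a) j).2.2 j 2, Core.C j 0, Core.C j 1, Core.C j 2]) hj (by fun_prop)
  · refine Poly.flatMap (F := fun a x => (List.range (w a)).map (fun l => Core.D x l)) ?_ ?_
    · refine Poly.filter (p := fun _ x => heavy x) hv ?_
      unfold heavy
      fun_prop
    · exact NPC.Poly.map (F := fun p l => Core.D p.2 l)
        ((hw.comp (Poly.fst Poly.id)).range) (by fun_prop)

end

end Pool.Agent.H670R4
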