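import Pool.Agent.H670R4.PInst

/-!
# The instance is computed in polynomial time, second part
-/

set_option autoImplicit false

namespace Pool.Agent.H670R4

open Pool.Agent.NPC Pool.Agent.H622R2

section
variable {α : Type} [TEnc α]

theorem poly_hlL {fs : α → List Fm} {w : α → ℕ} (hf : Poly fs) (hw : UPoly w) :
    Poly (fun a => hlL (fs a) (w a)) := by
  have hc : Poly (fun a => coreL (fs a) (w a)) := poly_coreL hf hw
  have e1 : Poly (fun x : α × (Core Nm × Core Nm) => encC x.2.1) :=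
    poly_encC (Poly.fst (Poly.snd Poly.id))
  have e2 : Poly (fun x : α × (Core Nm × Core Nm) => encC x.2.2) :=
    poly_encC (Poly.snd (Poly.snd Poly.id))
  have e3 : Poly (fun x : α × (Core Nm × Core Nm) => dlT (encC x.2.1) (encC x.2.2)) :=
    poly_dlT e1 e2
  have h1 : Poly (fun a => coreL (fs a) (w a) ×ˢ coreL (fs a) (w a)) := R671.poly_product hc hc
  have h2 : Poly (fun a => (coreL (fs a) (w a) ×ˢ coreL (fs a) (w a)).filter
      (fun p => dlT (encC p.1) (encC p.2))) :=
    Poly.filter (p := fun (_ : α) (p : Core Nm × Core Nm) => dlT (encC p.1) (encC p.2)) h1 e3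
  have e4 : Poly (fun x : α × Core Nm => (Sum.inl x.2 : HL (Core Nm))) :=
    Poly.inl (Poly.snd Poly.id)
  have e5 : Poly (fun x : α × (Core Nm × Core Nm) => (Sum.inr x.2 : HL (Core Nm))) :=
    Poly.inr (Poly.snd Poly.id)
  have h3 : Poly (fun a => (coreL (fs a) (w a)).map (fun x => (Sum.inl x : HL (Core Nm)))) :=
    NPC.Poly.map (F := fun (_ : α) (x : Core Nm) => (Sum.inl x : HL (Core Nm))) hc e4
  have h4 : Poly (fun a => ((coreL (fs a) (w a) ×ˢ coreL (fs a) (w a)).filter
      (fun p => dlT (encC p.1) (encC p.2))).map (fun x => (Sum.inr x : HL (Core Nm)))) :=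
    NPC.Poly.map (F := fun (_ : α) (x : Core Nm × Core Nm) => (Sum.inr x : HL (Core Nm))) h2 e5
  exact Poly.append h3 h4

/-- the gadgets of a pair -/
def gad (K : ℕ) (p : HL (Core Nm) × HL (Core Nm)) : List (FL (HL (Core Nm))) :=
  (List.range (K + 1)).flatMap
    (fun l => [Sum.inr (p.1, p.2, l, false), Sum.inr (p.1, p.2, l, true)])

theorem poly_gad {K : α → ℕ} {p : α → HL (Core Nm) × HL (Core Nm)} (hK : UPoly K) (hp : Poly p) :
    Poly (fun a => gad (K a) (p a)) := by
  have hr : Poly (fun a => List.range (K a + 1)) := (UPoly.add hK (UPoly.const 1)).range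
  have hp' : Poly (fun x : α × ℕ => p x.1) := hp.comp (Poly.fst Poly.id)
  have e1 : Poly (fun x : α × ℕ => (p x.1).1) := Poly.fst hp'
  have e2 : Poly (fun x : α × ℕ => (p x.1).2) := Poly.snd hp'
  have e3 : Poly (fun x : α × ℕ => x.2) := Poly.snd Poly.id
  have e4 : ∀ b : Bool, Poly (fun x : α × ℕ =>
      (Sum.inr ((p x.1).1, (p x.1).2, x.2, b) : FL (HL (Core Nm)))) := by
    intro b
    have e5 : Poly (fun x : α × ℕ => (x.2, b)) := Poly.pair e3 (NPC.Poly.const b)
    have e6 : Poly (fun x : α × ℕ => ((p x.1).2, x.2, b)) := Poly.pair e2 e5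
    have e7 : Poly (fun x : α × ℕ => ((p x.1).1, (p x.1).2, x.2, b)) := Poly.pair e1 e6
    exact Poly.inr e7
  have e8 : Poly (fun x : α × ℕ => [(Sum.inr ((p x.1).1, (p x.1).2, x.2, false) :
      FL (HL (Core Nm))), Sum.inr ((p x.1).1, (p x.1).2, x.2, true)]) :=
    Poly.cons (e4 false) (Poly.cons (e4 true) (NPC.Poly.const []))
  exact Poly.flatMap (F := fun (a : α) (l : ℕ) =>
    [(Sum.inr ((p a).1, (p a).2, l, false) : FL (HL (Core Nm))),
      Sum.inr ((p a).1, (p a).2, l, true)]) hr e8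

theorem poly_flL {fs : α → List Fm} {w K : α → ℕ} (hf : Poly fs) (hw : UPoly w) (hK : UPoly K) :
    Poly (fun a => flL (fs a) (w a) (K a)) := by
  have hc : Poly (fun a => hlL (fs a) (w a)) := poly_hlL hf hw
  have hc2 : Poly (fun a => hlL (fs a) (w a) ×ˢ hlL (fs a) (w a)) := R671.poly_product hc hc
  have e1 : Poly (fun x : α × (HL (Core Nm) × HL (Core Nm)) => x.2.1) :=
    Poly.fst (Poly.snd Poly.id)
  have e2 : Poly (fun x : α × (HL (Core Nm) × HL (Core Nm)) => x.2.2) :=
    Poly.snd (Poly.snd Poly.id)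
  have e3 : Poly (fun x : α × (HL (Core Nm) × HL (Core Nm)) => decide (x.2.1 = x.2.2)) :=
    Poly.dec_eq e1 e2
  have e4 : Poly (fun x : α × (HL (Core Nm) × HL (Core Nm)) => alH x.2.1 x.2.2) :=
    poly_alH e1 e2
  have e5 : Poly (fun x : α × (HL (Core Nm) × HL (Core Nm)) =>
      (!decide (x.2.1 = x.2.2) && !alH x.2.1 x.2.2)) := Poly.and (Poly.not e3) (Poly.not e4)
  have h2 : Poly (fun a => (hlL (fs a) (w a) ×ˢ hlL (fs a) (w a)).filter
      (fun p => !decide (p.1 = p.2) && !alH p.1 p.2)) :=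
    Poly.filter (p := fun (_ : α) (p : HL (Core Nm) × HL (Core Nm)) =>
      !decide (p.1 = p.2) && !alH p.1 p.2) hc2 e5
  have hK' : UPoly (fun x : α × (HL (Core Nm) × HL (Core Nm)) => K x.1) :=
    hK.comp (Poly.fst Poly.id)
  have e6 : Poly (fun x : α × (HL (Core Nm) × HL (Core Nm)) => x.2) := Poly.snd Poly.id
  have e7 : Poly (fun x : α × (HL (Core Nm) × HL (Core Nm)) => gad (K x.1) x.2) :=
    poly_gad hK' e6
  have h3 : Poly (fun a => ((hlL (fs a) (w a) ×ˢ hlL (fs a) (w a)).filter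
      (fun p => !decide (p.1 = p.2) && !alH p.1 p.2)).flatMap (fun p => gad (K a) p)) :=
    Poly.flatMap (F := fun (a : α) (p : HL (Core Nm) × HL (Core Nm)) => gad (K a) p) h2 e7
  have e8 : Poly (fun x : α × HL (Core Nm) => (Sum.inl x.2 : FL (HL (Core Nm)))) :=
    Poly.inl (Poly.snd Poly.id)
  have h4 : Poly (fun a => (hlL (fs a) (w a)).map (fun x => (Sum.inl x : FL (HL (Core Nm))))) :=
    NPC.Poly.map (F := fun (_ : α) (x : HL (Core Nm)) => (Sum.inl x : FL (HL (Core Nm)))) hc e8
  exact Poly.append h4 h3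

theorem upoly_instW {fs : α → List Fm} (hf : Poly fs) : UPoly (fun a => instW (fs a)) := by
  unfold instW
  exact ((UPoly.const 13).mul (CK.upoly_size
    (Poly.mul (NPC.Poly.const 2) (Poly.length hf)))).add ((UPoly.const 64).mul (upoly_maxL hf))

theorem upoly_instK {fs : α → List Fm} (hf : Poly fs) : UPoly (fun a => instK (fs a)) := by
  unfold instK
  exact (((UPoly.const 3).mul (upoly_maxL hf)).mul (upoly_instW hf)).add (upoly_instW hf)

theorem poly_inst {fs : α → List Fm} (hf : Poly fs) :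
    Poly (fun a => (instM (fs a), instK (fs a))) := by
  have h1 : Poly (fun a => flL (fs a) (instW (fs a)) (instK (fs a))) :=
    poly_flL hf (upoly_instW hf) (upoly_instK hf)
  have h2 : Poly (fun a => ddup (flL (fs a) (instW (fs a)) (instK (fs a)))) := ddup_poly h1
  have e1 : Poly (fun p : (α × FL (HL (Core Nm))) × FL (HL (Core Nm)) => p.1.2) :=
    Poly.snd (Poly.fst Poly.id)
  have e2 : Poly (fun p : (α × FL (HL (Core Nm))) × FL (HL (Core Nm)) => p.2) :=
    Poly.snd Poly.id
  have e3 : Poly (fun p : (α × FL (HL (Core Nm))) × FL (HL (Core Nm)) => adjF p.1.2 p.2) :=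
    poly_adjF e1 e2
  have h3 : Poly (fun a => instM (fs a)) :=
    mat_poly (adj := fun (_ : α) (u v : FL (HL (Core Nm))) => adjF u v) h2 e3
  exact Poly.pair h3 (upoly_instK hf).toPoly

end

theorem instK_bound : ∃ q : Polynomial ℕ, ∀ (fs : List Fm) (m : ℕ), (∀ φ ∈ fs, φ.length ≤ m) →
    instK fs ≤ q.eval (m + fs.length.size) := by
  refine ⟨3 * (Polynomial.X + 1) * (13 * (Polynomial.X + 1) + 64 * (Polynomial.X + 1)) +
    (13 * (Polynomial.X + 1) + 64 * (Polynomial.X + 1)), ?_⟩
  intro fs m h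
  have hM : maxL fs ≤ m + 1 := maxL_le fs m h
  have hev : (3 * (Polynomial.X + 1) * (13 * (Polynomial.X + 1) + 64 * (Polynomial.X + 1)) +
    (13 * (Polynomial.X + 1) + 64 * (Polynomial.X + 1)) : Polynomial ℕ).eval
      (m + fs.length.size) = 3 * (m + fs.length.size + 1) * (13 * (m + fs.length.size + 1) +
        64 * (m + fs.length.size + 1)) + (13 * (m + fs.length.size + 1) +
        64 * (m + fs.length.size + 1)) := by
    simp
  rw [hev]
  unfold instK instW
  have h2 : maxL fs ≤ m + fs.length.size + 1 := by omega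
  have h3 : (2 * fs.length).size ≤ m + fs.length.size + 1 := by
    have : (2 * fs.length).size ≤ fs.length.size + 1 := by
      rw [Nat.size_le, pow_succ]
      have := Nat.lt_size_self fs.length
      omega
    omega
  gcongr

end Pool.Agent.H670R4
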