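import Pool.Agent.H670R4.Basic

/-!
# The structure of graphs without induced `C4` and `2K2`
-/

set_option autoImplicit false

namespace Pool.Agent.H670R4

/-- no two disjoint edges without edges between them -/
def TK {V : Type} (G : SimpleGraph V) : Prop :=
  ∀ a b c d, G.Adj a b → G.Adj c d → G.Adj a c ∨ G.Adj a d ∨ G.Adj b c ∨ G.Adj b d

/-- adjacency in the cycle with five vertices -/
def cyc5 (i j : Fin 5) : Prop := j = i + 1 ∨ i = j + 1

instance (i j : Fin 5) : Decidable (cyc5 i j) := by unfold cyc5; infer_instance

/-- a clique, a stable set -/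
def SplitBy {V : Type} (G : SimpleGraph V) (X C : V → Prop) : Prop :=
  (∀ u v, ¬ X u → ¬ X v → C u → C v → u ≠ v → G.Adj u v) ∧
    (∀ u v, ¬ X u → ¬ X v → ¬ C u → ¬ C v → ¬ G.Adj u v)

theorem five_pattern : ∀ a b c d e : Bool,
    (a = true → c = true → b = true) → (b = true → d = true → c = true) →
    (c = true → e = true → d = true) → (d = true → a = true → e = true) →
    (e = true → b = true → a = true) →
    (a = true → c = true ∨ d = true) → (b = true → d = true ∨ e = true) →
    (c = true → e = true ∨ a = true) → (d = true → a = true ∨ b = true) →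
    (e = true → b = true ∨ c = true) →
    (a = b ∧ b = c ∧ c = d ∧ d = e) := by
  intro a b c d e
  cases a <;> cases b <;> cases c <;> cases d <;> cases e <;> simp

theorem f5a : ∀ i : Fin 5, cyc5 i (i + 1) := by decide
theorem f5b : ∀ i : Fin 5, cyc5 (i + 1) (i + 2) := by decide
theorem f5c : ∀ i : Fin 5, ¬ cyc5 i (i + 2) := by decide
theorem f5d : ∀ i : Fin 5, i ≠ i + 2 := by decide
theorem f5e : ∀ i : Fin 5, cyc5 (i + 2) (i + 3) := by decide
theorem f5f : ∀ i : Fin 5, ¬ cyc5 i (i + 3) := by decide

section

variable {V : Type} {G : SimpleGraph V}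

theorem c5_all (h1 : C4Free G) (h2 : TK G) {f : Fin 5 → V} (hf : Function.Injective f)
    (hadj : ∀ i j, G.Adj (f i) (f j) ↔ cyc5 i j) {v : V} (hv : ∀ i, f i ≠ v) (i j : Fin 5) :
    G.Adj v (f i) ↔ G.Adj v (f j) := by
  classical
  have ha : ∀ i : Fin 5, G.Adj v (f i) → G.Adj v (f (i + 2)) → G.Adj v (f (i + 1)) := by
    intro i e1 e2
    have e3 : G.Adj (f i) (f (i + 1)) := (hadj _ _).2 (f5a i)
    have e4 : G.Adj (f (i + 1)) (f (i + 2)) := (hadj _ _).2 (f5b i)
    have e5 : ¬ G.Adj (f i) (f (i + 2)) := by
      rw [hadj]; exact f5c i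
    rcases h1 v (f i) (f (i + 1)) (f (i + 2)) e1 e3 e4 e2.symm (hv _).symm
      (fun h => absurd (hf h) (f5d i)) with h | h
    · exact h
    · exact absurd h e5
  have hb : ∀ i : Fin 5, G.Adj v (f i) → G.Adj v (f (i + 2)) ∨ G.Adj v (f (i + 3)) := by
    intro i e1
    have e3 : G.Adj (f (i + 2)) (f (i + 3)) := (hadj _ _).2 (f5e i)
    have e4 : ¬ G.Adj (f i) (f (i + 2)) := by
      rw [hadj]; exact f5c i
    have e5 : ¬ G.Adj (f i) (f (i + 3)) := by
      rw [hadj]; exact f5f i
    rcases h2 v (f i) (f (i + 2)) (f (i + 3)) e1 e3 with h | h | h | h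
    · exact Or.inl h
    · exact Or.inr h
    · exact absurd h e4
    · exact absurd h e5
  have key := five_pattern (decide (G.Adj v (f 0))) (decide (G.Adj v (f 1)))
    (decide (G.Adj v (f 2))) (decide (G.Adj v (f 3))) (decide (G.Adj v (f 4)))
  simp only [decide_eq_true_eq, decide_eq_decide] at key
  obtain ⟨k1, k2, k3, k4⟩ := key (ha 0) (ha 1) (ha 2) (ha 3) (ha 4) (hb 0) (hb 1) (hb 2) (hb 3)
    (hb 4)
  have all : ∀ i : Fin 5, G.Adj v (f i) ↔ G.Adj v (f 0) := by
    intro i
    fin_cases i
    · exact Iff.rfl
    · exact k1.symm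
    · exact (k1.trans k2).symm
    · exact (k1.trans (k2.trans k3)).symm
    · exact (k1.trans (k2.trans (k3.trans k4))).symm
  rw [all i, all j]

theorem c5_case (h1 : C4Free G) (h2 : TK G) {f : Fin 5 → V} (hf : Function.Injective f)
    (hadj : ∀ i j, G.Adj (f i) (f j) ↔ cyc5 i j) :
    (∀ v, (∀ i, f i ≠ v) → ∀ i, (G.Adj v (f i) ↔ G.Adj v (f 0))) ∧
      SplitBy G (fun v => ∃ i, f i = v) (fun v => G.Adj v (f 0)) := by
  have hall := fun (v : V) (hv : ∀ i, f i ≠ v) => c5_all h1 h2 hf hadj hv
  refine ⟨fun v hv i => hall v hv i 0, ?_, ?_⟩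
  · intro u v hu hv hCu hCv huv
    push Not at hu hv
    have e1 := (hall u hu 0 2).1 hCu
    have e2 := (hall v hv 0 2).1 hCv
    rcases h1 u (f 0) v (f 2) hCu hCv.symm e2 e1.symm huv
      (fun h => absurd (hf h) (by decide)) with h | h
    · exact h
    · rw [hadj] at h
      exact absurd h (by decide)
  · intro u v hu hv hCu hCv huv
    push Not at hu hv
    have e1 : G.Adj (f 0) (f 1) := (hadj _ _).2 (by decide)
    rcases h2 u v (f 0) (f 1) huv e1 with h | h | h | h
    · exact hCu h
    · exact hCu ((hall u hu 1 0).1 h)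
    · exact hCv h
    · exact hCv ((hall v hv 1 0).1 h)

end

section
variable {V : Type} [Fintype V] [DecidableEq V] {G : SimpleGraph V}

open Classical in
/-- the number of ordered adjacent pairs outside `K` -/
noncomputable def eout (G : SimpleGraph V) (K : Finset V) : ℕ :=
  ((Kᶜ ×ˢ Kᶜ).filter (fun p => G.Adj p.1 p.2)).card

open Classical in
theorem exists_clique (G : SimpleGraph V) : ∃ K : Finset V, G.IsClique K ∧
    (∀ K' : Finset V, G.IsClique K' → K'.card ≤ K.card) ∧
    (∀ K' : Finset V, G.IsClique K' → K'.card = K.card → eout G K ≤ eout G K') := by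
  let n := Fintype.card V
  have he : ∀ K, eout G K ≤ n ^ 2 := by
    intro K
    unfold eout
    refine (Finset.card_filter_le _ _).trans ?_
    rw [Finset.card_product, pow_two]
    exact Nat.mul_le_mul (Finset.card_le_univ _) (Finset.card_le_univ _)
  let S : Finset (Finset V) := Finset.univ.filter (fun K => G.IsClique (K : Set V))
  have hS : S.Nonempty := ⟨∅, by simp [S]⟩
  obtain ⟨K, hK, hmax⟩ := S.exists_max_image
    (fun K => K.card * (n ^ 2 + 1) + (n ^ 2 - eout G K)) hS
  have hK' : G.IsClique (K : Set V) := by simpa [S] using hK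
  refine ⟨K, hK', ?_, ?_⟩
  · intro K' hc
    have h := hmax K' (by simpa [S] using hc)
    by_contra hcon
    push Not at hcon
    have h1 : (K.card + 1) * (n ^ 2 + 1) ≤ K'.card * (n ^ 2 + 1) := Nat.mul_le_mul_right _ hcon
    have h2 : (K.card + 1) * (n ^ 2 + 1) = K.card * (n ^ 2 + 1) + (n ^ 2 + 1) := by ring
    omega
  · intro K' hc hcard
    have h := hmax K' (by simpa [S] using hc)
    rw [hcard] at h
    have h1 := he K
    have h2 := he K'
    omega

theorem split_aux (h1 : C4Free G) (h2 : TK G)
    (h3 : ∀ f : Fin 5 → V, Function.Injective f → ¬ ∀ i j, G.Adj (f i) (f j) ↔ cyc5 i j)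
    {K : Finset V} (hK : G.IsClique K)
    (hmax : ∀ K' : Finset V, G.IsClique K' → K'.card ≤ K.card)
    (hmin : ∀ K' : Finset V, G.IsClique K' → K'.card = K.card → eout G K ≤ eout G K')
    {x y : V} (hx : x ∉ K) (hy : y ∉ K) (hxy : G.Adj x y)
    (hsub : ∀ w ∈ K, ¬ G.Adj w x → ¬ G.Adj w y) : False := by
  classical
  obtain ⟨u, hu, hux⟩ : ∃ u ∈ K, ¬ G.Adj u x := by
    by_contra hcon
    push Not at hcon
    have hc : G.IsClique (insert x K : Finset V) := by
      rw [Finset.coe_insert, SimpleGraph.isClique_insert]
      exact ⟨hK, fun b hb _ => (hcon b hb).symm⟩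
    have := hmax _ hc
    rw [Finset.card_insert_of_notMem hx] at this
    omega
  have huy := hsub u hu hux
  have huniq : ∀ w ∈ K, w ≠ u → G.Adj w x := by
    intro w hw hwu
    by_contra hwx
    have hwy := hsub w hw hwx
    have hwu' : G.Adj u w := hK hu hw hwu.symm
    rcases h2 x y u w hxy hwu' with h | h | h | h
    · exact hux h.symm
    · exact hwx h.symm
    · exact huy h.symm
    · exact hwy h.symm
  have hxe : x ∉ K.erase u := fun h => hx (Finset.mem_of_mem_erase h)
  have hK' : G.IsClique (insert x (K.erase u) : Finset V) := by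
    rw [Finset.coe_insert, SimpleGraph.isClique_insert]
    refine ⟨hK.subset (by exact_mod_cast Finset.erase_subset _ _), ?_⟩
    intro b hb _
    rw [Finset.mem_coe, Finset.mem_erase] at hb
    exact (huniq b hb.2 hb.1).symm
  have hcard : (insert x (K.erase u)).card = K.card := by
    rw [Finset.card_insert_of_notMem hxe, Finset.card_erase_of_mem hu]
    have := Finset.card_pos.2 ⟨u, hu⟩
    omega
  have hmin' := hmin _ hK' hcard
  have hxu : x ≠ u := fun h => hx (h ▸ hu)
  have hyu : y ≠ u := fun h => hy (h ▸ hu)
  obtain ⟨z, hz, hzx, hzu, hzx'⟩ : ∃ z, z ∉ K ∧ z ≠ x ∧ G.Adj z u ∧ ¬ G.Adj z x := by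
    by_contra hcon
    push Not at hcon
    let σ : V → V := fun v => if v = u then x else v
    have hlt : eout G (insert x (K.erase u)) < eout G K := by
      unfold eout
      rw [← Finset.card_image_of_injOn (s := ((insert x (K.erase u))ᶜ ×ˢ
        (insert x (K.erase u))ᶜ).filter (fun p => G.Adj p.1 p.2))
        (f := fun p => (σ p.1, σ p.2))]
      · refine Finset.card_lt_card ?_
        rw [Finset.ssubset_iff_of_subset]
        · refine ⟨(x, y), ?_, ?_⟩
          · simp [hx, hy, hxy]
          · rw [Finset.mem_image]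
            rintro ⟨⟨a, b⟩, hab, heq⟩
            simp only [Finset.mem_filter, Finset.mem_product, Finset.mem_compl,
              Finset.mem_insert, Finset.mem_erase, not_or, not_and] at hab
            obtain ⟨⟨⟨ha1, ha2⟩, hb1, hb2⟩, hab'⟩ := hab
            simp only [Prod.mk.injEq, σ] at heq
            obtain ⟨e1, e2⟩ := heq
            split_ifs at e1 e2 with c1 c2
            · exact hxy.ne e2
            · subst c1 e2
              exact huy hab'
            · exact ha1 e1
            · exact ha1 e1
        · intro p hp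
          rw [Finset.mem_image] at hp
          obtain ⟨⟨a, b⟩, hab, rfl⟩ := hp
          simp only [Finset.mem_filter, Finset.mem_product, Finset.mem_compl,
              Finset.mem_insert, Finset.mem_erase, not_or, not_and] at hab ⊢
          obtain ⟨⟨⟨ha1, ha2⟩, hb1, hb2⟩, hab'⟩ := hab
          simp only [σ]
          split_ifs with c1 c2 c2
          · subst c1 c2
            exact absurd hab' (G.loopless.irrefl _)
          · subst c1
            exact ⟨⟨hx, hb2 c2⟩, (hcon b (hb2 c2) hb1 hab'.symm).symm⟩
          · subst c2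
            exact ⟨⟨ha2 c1, hx⟩, hcon a (ha2 c1) ha1 hab'⟩
          · exact ⟨⟨ha2 c1, hb2 c2⟩, hab'⟩
      · rintro ⟨a, b⟩ hab ⟨a', b'⟩ hab' heq
        simp only [Finset.coe_filter, Finset.mem_product, Finset.mem_compl,
              Finset.mem_insert, Finset.mem_erase, not_or, not_and, Set.mem_ofPred_eq] at hab hab'
        obtain ⟨⟨⟨ha1, -⟩, hb1, -⟩, -⟩ := hab
        obtain ⟨⟨⟨ha1', -⟩, hb1', -⟩, -⟩ := hab'
        simp only [Prod.mk.injEq, σ] at heq ⊢
        obtain ⟨e1, e2⟩ := heq
        constructor
        · split_ifs at e1 with c1 c2 c2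
          · rw [c1, c2]
          · exact absurd e1.symm ha1'
          · exact absurd e1 ha1
          · exact e1
        · split_ifs at e2 with c1 c2 c2
          · rw [c1, c2]
          · exact absurd e2.symm hb1'
          · exact absurd e2 hb1
          · exact e2
    omega
  have hyz : G.Adj y z := by
    rcases h2 x y u z hxy hzu.symm with h | h | h | h
    · exact absurd h.symm hux
    · exact absurd h.symm hzx'
    · exact absurd h.symm huy
    · exact h
  have hux' : ¬ G.Adj x u := fun h => hux h.symm
  have huy' : ¬ G.Adj y u := fun h => huy h.symm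
  have hxz' : ¬ G.Adj x z := fun h => hzx' h.symm
  have hall : ∀ w ∈ K, w ≠ u → G.Adj w y ∧ G.Adj w z := by
    intro w hw hwu
    have hwx := huniq w hw hwu
    have hwu' : G.Adj w u := hK hw hu hwu
    have hwy_ne : w ≠ y := fun h => hy (h ▸ hw)
    have hwz_ne : w ≠ z := fun h => hz (h ▸ hw)
    by_cases hwy : G.Adj w y
    · by_cases hwz : G.Adj w z
      · exact ⟨hwy, hwz⟩
      · exfalso
        rcases h1 w y z u hwy hyz hzu hwu'.symm hwz_ne hyu with h | h
        · exact hwz h
        · exact huy' h
    · by_cases hwz : G.Adj w z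
      · exfalso
        rcases h1 x y z w hxy hyz hwz.symm hwx hzx.symm hwy_ne.symm with h | h
        · exact hxz' h
        · exact hwy h.symm
      · exfalso
        have hwy' : ¬ G.Adj y w := fun h => hwy h.symm
        have hwz' : ¬ G.Adj z w := fun h => hwz h.symm
        let f : Fin 5 → V := ![x, y, z, u, w]
        refine h3 f ?_ ?_
        · have n1 := hxy.ne
          have n2 := hyz.ne
          have n3 := hzu.ne
          have n4 := hwu'.ne
          have n5 := hwx.ne
          intro i j hij
          fin_cases i <;> fin_cases j <;> simp_all [f]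
        · have s1 := hxy.symm
          have s2 := hyz.symm
          have s3 := hzu.symm
          have s4 := hwu'.symm
          have s5 := hwx.symm
          intro i j
          fin_cases i <;> fin_cases j <;>
            first
            | exact iff_of_true hxy (by decide)
            | exact iff_of_true hyz (by decide)
            | exact iff_of_true hzu (by decide)
            | exact iff_of_true hwu' (by decide)
            | exact iff_of_true hwx (by decide)
            | exact iff_of_true s1 (by decide)
            | exact iff_of_true s2 (by decide)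
            | exact iff_of_true s3 (by decide)
            | exact iff_of_true s4 (by decide)
            | exact iff_of_true s5 (by decide)
            | exact iff_of_false hux (by decide)
            | exact iff_of_false hux' (by decide)
            | exact iff_of_false huy (by decide)
            | exact iff_of_false huy' (by decide)
            | exact iff_of_false hzx' (by decide)
            | exact iff_of_false hxz' (by decide)
            | exact iff_of_false hwy (by decide)
            | exact iff_of_false hwy' (by decide)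
            | exact iff_of_false hwz (by decide)
            | exact iff_of_false hwz' (by decide)
            | exact iff_of_false (G.loopless.irrefl _) (by decide)
  have hze : z ∉ K.erase u := fun h => hz (Finset.mem_of_mem_erase h)
  have hye : y ∉ insert z (K.erase u) := by
    rw [Finset.mem_insert, not_or]
    exact ⟨hyz.ne, fun h => hy (Finset.mem_of_mem_erase h)⟩
  have hK'' : G.IsClique (insert y (insert z (K.erase u)) : Finset V) := by
    rw [Finset.coe_insert, SimpleGraph.isClique_insert, Finset.coe_insert,
      SimpleGraph.isClique_insert]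
    refine ⟨⟨hK.subset (by exact_mod_cast Finset.erase_subset _ _), ?_⟩, ?_⟩
    · intro b hb _
      rw [Finset.mem_coe, Finset.mem_erase] at hb
      exact (hall b hb.2 hb.1).2.symm
    · intro b hb _
      rcases hb with rfl | hb
      · exact hyz
      · rw [Finset.mem_coe, Finset.mem_erase] at hb
        exact (hall b hb.2 hb.1).1.symm
  have := hmax _ hK''
  rw [Finset.card_insert_of_notMem hye, Finset.card_insert_of_notMem hze,
    Finset.card_erase_of_mem hu] at this
  have := Finset.card_pos.2 ⟨u, hu⟩
  omega

theorem split_case (h1 : C4Free G) (h2 : TK G)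
    (h3 : ∀ f : Fin 5 → V, Function.Injective f → ¬ ∀ i j, G.Adj (f i) (f j) ↔ cyc5 i j) :
    ∃ C : V → Prop, SplitBy G (fun _ => False) C := by
  obtain ⟨K, hK, hmax, hmin⟩ := exists_clique G
  refine ⟨fun v => v ∈ K, ?_, ?_⟩
  · intro u v _ _ hu hv huv
    exact hK hu hv huv
  · intro x y _ _ hx hy hxy
    by_cases hsub : ∀ w ∈ K, ¬ G.Adj w x → ¬ G.Adj w y
    · exact split_aux h1 h2 h3 hK hmax hmin hx hy hxy hsub
    · push Not at hsub
      obtain ⟨a, ha, hax, hay⟩ := hsub
      refine split_aux h1 h2 h3 hK hmax hmin hy hx hxy.symm ?_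
      intro b hb hby hbx
      have hab : a ≠ b := by
        rintro rfl
        exact hby hay
      have hab' : G.Adj a b := hK ha hb hab
      rcases h1 x y a b hxy hay.symm hab' hbx (fun h => hx (h ▸ ha)) (fun h => hy (h ▸ hb))
        with h | h
      · exact hax h.symm
      · exact hby h.symm

end

end Pool.Agent.H670R4
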