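import Pool.Agent.H670R4.PS

/-!
# The nearest graph without induced `C4` and `2K2`
-/

set_option autoImplicit false

namespace Pool.Agent.H670R4

open Finset

theorem cyc5_symm : ∀ i j : Fin 5, cyc5 i j → cyc5 j i := by decide

theorem cyc5_c4 : ∀ i j k l : Fin 5, cyc5 i j → cyc5 j k → cyc5 k l → cyc5 l i → i ≠ k → j ≠ l →
    cyc5 i k ∨ cyc5 j l := by decide

theorem cyc5_tk : ∀ i j k l : Fin 5, cyc5 i j → cyc5 k l →
    cyc5 i k ∨ cyc5 i l ∨ cyc5 j k ∨ cyc5 j l := by decide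

section

variable {V : Type}

/-- the graph obtained from `G` by making `C` a clique, the vertices outside of `C` and `X`
independent, `X` with the adjacency `R`, completely joined to `C` and to nothing else -/
def tgt (G : SimpleGraph V) (X : V → Prop) (R : V → V → Prop) (C : V → Prop) (u v : V) : Prop :=
  u ≠ v ∧ ((X u ∧ X v ∧ R u v) ∨ (X u ∧ ¬ X v ∧ C v) ∨ (¬ X u ∧ X v ∧ C u) ∨
    (¬ X u ∧ ¬ X v ∧ ((C u ∧ C v) ∨ ((C u ∨ C v) ∧ G.Adj u v))))

/-- the graph `tgt` -/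
def tgtG (G : SimpleGraph V) (X : V → Prop) (R : V → V → Prop) (C : V → Prop)
    (hR : ∀ u v, R u v → R v u) : SimpleGraph V where
  Adj := tgt G X R C
  symm := ⟨by
    rintro u v ⟨h, h'⟩
    refine ⟨h.symm, ?_⟩
    rcases h' with ⟨h1, h2, h3⟩ | ⟨h1, h2, h3⟩ | ⟨h1, h2, h3⟩ | ⟨h1, h2, h3⟩
    · exact Or.inl ⟨h2, h1, hR _ _ h3⟩
    · exact Or.inr (Or.inr (Or.inl ⟨h2, h1, h3⟩))
    · exact Or.inr (Or.inl ⟨h2, h1, h3⟩)
    · refine Or.inr (Or.inr (Or.inr ⟨h2, h1, ?_⟩))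
      rcases h3 with h3 | h3
      · exact Or.inl h3.symm
      · exact Or.inr ⟨h3.1.symm, h3.2.symm⟩⟩
  loopless := ⟨fun u h => h.1 rfl⟩

/-- the set `X` is empty or a 5-cycle -/
def Lay (X : V → Prop) (R : V → V → Prop) : Prop :=
  (∀ v, ¬ X v) ∨ ∃ f : Fin 5 → V, Function.Injective f ∧ (∀ v, X v ↔ ∃ i, f i = v) ∧
    ∀ i j, R (f i) (f j) ↔ cyc5 i j

variable {G : SimpleGraph V} {X : V → Prop} {R : V → V → Prop} {C : V → Prop}
  {hR : ∀ u v, R u v → R v u}

theorem tgtG_adj (u v : V) : (tgtG G X R C hR).Adj u v ↔ tgt G X R C u v := Iff.rfl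

theorem nbr_I {w v : V} (h1 : ¬ X w) (h2 : ¬ C w) (h : tgt G X R C w v) : ¬ X v ∧ C v := by
  obtain ⟨-, h⟩ := h
  tauto

theorem non_C {w v : V} (h1 : ¬ X w) (h2 : C w) (hne : w ≠ v) (h : ¬ tgt G X R C w v) :
    ¬ X v ∧ ¬ C v := by
  unfold tgt at h
  tauto

theorem tgt_CC {w v : V} (h1 : ¬ X w ∧ C w) (h2 : ¬ X v ∧ C v) (hne : w ≠ v) :
    tgt G X R C w v := by
  unfold tgt
  tauto

theorem tgt_II {w v : V} (h1 : ¬ X w ∧ ¬ C w) (h2 : ¬ X v ∧ ¬ C v) :
    ¬ tgt G X R C w v := by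
  unfold tgt
  tauto

theorem tgt_XX {w v : V} (h1 : X w) (h2 : X v) (hne : w ≠ v) :
    tgt G X R C w v ↔ R w v := by
  unfold tgt
  tauto

theorem tgt_XO {w v : V} (h1 : X w) (h2 : ¬ X v) : tgt G X R C w v ↔ C v := by
  have hne : w ≠ v := fun h => h2 (h ▸ h1)
  unfold tgt
  tauto

theorem tgt_OX {w v : V} (h1 : ¬ X w) (h2 : X v) : tgt G X R C w v ↔ C w := by
  have hne : w ≠ v := fun h => h1 (h ▸ h2)
  unfold tgt
  tauto

theorem tgt_OO {w v : V} (h1 : ¬ X w) (h2 : ¬ X v) : tgt G X R C w v ↔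
    w ≠ v ∧ ((C w ∧ C v) ∨ ((C w ∨ C v) ∧ G.Adj w v)) := by
  unfold tgt
  tauto

theorem lay_step {G' : SimpleGraph V} {f : Fin 5 → V}
    (hadj : ∀ i j, G'.Adj (f i) (f j) ↔ cyc5 i j)
    (hc : ∀ v, ¬ X v → ∀ i, (G'.Adj v (f i) ↔ G'.Adj v (f 0)))
    (hX : ∀ v, X v ↔ ∃ i, f i = v) (hRf : ∀ i j, R (f i) (f j) ↔ cyc5 i j)
    (hC : ∀ v, ¬ X v → (C v ↔ G'.Adj v (f 0)))
    (hC1 : ∀ u v, ¬ X u → ¬ X v → G'.Adj u (f 0) → G'.Adj v (f 0) → u ≠ v → G'.Adj u v)
    (hC2 : ∀ u v, ¬ X u → ¬ X v → ¬ G'.Adj u (f 0) → ¬ G'.Adj v (f 0) → ¬ G'.Adj u v)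
    (u v : V) (huv : ¬ (G.Adj u v ↔ tgt G X R C u v)) : ¬ (G.Adj u v ↔ G'.Adj u v) := by
  have e4 : G.Adj u v → u ≠ v := fun h => h.ne
  by_cases huv' : u = v
  · exact absurd (iff_of_false (fun h => e4 h huv') (fun h => h.1 huv')) huv
  by_cases hXu : X u
  · by_cases hXv : X v
    · have e5 : tgt G X R C u v ↔ G'.Adj u v := by
        rw [tgt_XX hXu hXv huv']
        obtain ⟨i, rfl⟩ := (hX _).1 hXu
        obtain ⟨j, rfl⟩ := (hX _).1 hXv
        rw [hadj, hRf]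
      rwa [e5] at huv
    · have e5 : tgt G X R C u v ↔ G'.Adj u v := by
        rw [tgt_XO hXu hXv, hC v hXv]
        obtain ⟨i, rfl⟩ := (hX _).1 hXu
        rw [← hc v hXv i, G'.adj_comm]
      rwa [e5] at huv
  · by_cases hXv : X v
    · have e5 : tgt G X R C u v ↔ G'.Adj u v := by
        rw [tgt_OX hXu hXv, hC u hXu]
        obtain ⟨i, rfl⟩ := (hX _).1 hXv
        rw [← hc u hXu i]
      rwa [e5] at huv
    · rw [tgt_OO hXu hXv, hC u hXu, hC v hXv] at huv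
      have e6 := hC1 u v hXu hXv
      have e7 := hC2 u v hXu hXv
      clear hadj hc hX hRf hC hC1 hC2
      tauto

theorem tgtG_c4 (hL : Lay X R) : C4Free (tgtG G X R C hR) := by
  intro a b c d hab hbc hcd hda hac hbd
  by_contra hcon
  push Not at hcon
  obtain ⟨n1, n2⟩ := hcon
  have n1' : ¬ (tgtG G X R C hR).Adj c a := fun h => n1 h.symm
  have n2' : ¬ (tgtG G X R C hR).Adj d b := fun h => n2 h.symm
  have hI : ∀ p q r : V, (tgtG G X R C hR).Adj p q → (tgtG G X R C hR).Adj p r → q ≠ r →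
      ¬ (tgtG G X R C hR).Adj q r → ¬ X p → C p := by
    intro p q r e1 e2 e3 e4 e5
    by_contra hp
    exact e4 (tgt_CC (nbr_I e5 hp e1) (nbr_I e5 hp e2) e3)
  have ia := hI a b d hab hda.symm hbd n2
  have ib := hI b a c hab.symm hbc hac n1
  have ic := hI c b d hbc.symm hcd hbd n2
  have id := hI d a c hda hcd.symm hac n1
  have xa : X a := by
    by_contra h
    have := non_C h (ia h) hac n1
    exact this.2 (ic this.1)
  have xb : X b := by
    by_contra h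
    have := non_C h (ib h) hbd n2
    exact this.2 (id this.1)
  have xc : X c := by
    by_contra h
    have := non_C h (ic h) hac.symm n1'
    exact this.2 (ia this.1)
  have xd : X d := by
    by_contra h
    have := non_C h (id h) hbd.symm n2'
    exact this.2 (ib this.1)
  rcases hL with hL | ⟨f, hf, hX, hRf⟩
  · exact hL a xa
  · obtain ⟨i, rfl⟩ := (hX a).1 xa
    obtain ⟨j, rfl⟩ := (hX b).1 xb
    obtain ⟨k, rfl⟩ := (hX c).1 xc
    obtain ⟨l, rfl⟩ := (hX d).1 xd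
    have key : ∀ i j : Fin 5, X (f i) → X (f j) → f i ≠ f j →
        ((tgtG G X R C hR).Adj (f i) (f j) ↔ cyc5 i j) := by
      intro i j h1 h2 h3
      rw [← hRf]
      exact tgt_XX h1 h2 h3
    rw [key _ _ xa xb hab.ne] at hab
    rw [key _ _ xb xc hbc.ne] at hbc
    rw [key _ _ xc xd hcd.ne] at hcd
    rw [key _ _ xd xa hda.ne] at hda
    rw [key _ _ xa xc hac] at n1
    rw [key _ _ xb xd hbd] at n2
    rcases cyc5_c4 i j k l hab hbc hcd hda (fun h => hac (by rw [h])) (fun h => hbd (by rw [h]))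
      with h | h
    · exact n1 h
    · exact n2 h

theorem tgtG_tk (hL : Lay X R) : TK (tgtG G X R C hR) := by
  intro a b c d hab hcd
  by_contra hcon
  push Not at hcon
  obtain ⟨n1, n2, n3, n4⟩ := hcon
  have e1 : a ≠ c := by rintro rfl; exact n2 hcd
  have e2 : a ≠ d := by rintro rfl; exact n1 hcd.symm
  have e3 : b ≠ c := by rintro rfl; exact n4 hcd
  have e4 : b ≠ d := by rintro rfl; exact n3 hcd.symm
  have n1' : ¬ (tgtG G X R C hR).Adj c a := fun h => n1 h.symm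
  have n2' : ¬ (tgtG G X R C hR).Adj d a := fun h => n2 h.symm
  have n3' : ¬ (tgtG G X R C hR).Adj c b := fun h => n3 h.symm
  have n4' : ¬ (tgtG G X R C hR).Adj d b := fun h => n4 h.symm
  have hC : ∀ p q r : V, ¬ X p → C p → p ≠ q → p ≠ r → ¬ (tgtG G X R C hR).Adj p q →
      ¬ (tgtG G X R C hR).Adj p r → ¬ (tgtG G X R C hR).Adj q r := by
    intro p q r h1 h2 h3 h4 h5 h6
    exact tgt_II (non_C h1 h2 h3 h5) (non_C h1 h2 h4 h6)
  have ca : ¬ X a → ¬ C a := fun h h' => hC a c d h h' e1 e2 n1 n2 hcd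
  have cb : ¬ X b → ¬ C b := fun h h' => hC b c d h h' e3 e4 n3 n4 hcd
  have cc : ¬ X c → ¬ C c := fun h h' => hC c a b h h' e1.symm e3.symm n1' n3' hab
  have cd : ¬ X d → ¬ C d := fun h h' => hC d a b h h' e2.symm e4.symm n2' n4' hab
  have hX' : ∀ p q : V, (tgtG G X R C hR).Adj p q → (¬ X p → ¬ C p) → (¬ X q → ¬ C q) → X p := by
    intro p q h1 h2 h3
    by_contra hp
    have := nbr_I hp (h2 hp) h1
    exact h3 this.1 this.2
  have xa := hX' a b hab ca cb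
  have xb := hX' b a hab.symm cb ca
  have xc := hX' c d hcd cc cd
  have xd := hX' d c hcd.symm cd cc
  rcases hL with hL | ⟨f, hf, hX, hRf⟩
  · exact hL a xa
  · obtain ⟨i, rfl⟩ := (hX a).1 xa
    obtain ⟨j, rfl⟩ := (hX b).1 xb
    obtain ⟨k, rfl⟩ := (hX c).1 xc
    obtain ⟨l, rfl⟩ := (hX d).1 xd
    have key : ∀ i j : Fin 5, X (f i) → X (f j) → f i ≠ f j →
        ((tgtG G X R C hR).Adj (f i) (f j) ↔ cyc5 i j) := by
      intro i j h1 h2 h3
      rw [← hRf]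
      exact tgt_XX h1 h2 h3
    rw [key _ _ xa xb hab.ne] at hab
    rw [key _ _ xc xd hcd.ne] at hcd
    rw [key _ _ xa xc e1] at n1
    rw [key _ _ xa xd e2] at n2
    rw [key _ _ xb xc e3] at n3
    rw [key _ _ xb xd e4] at n4
    rcases cyc5_tk i j k l hab hcd with h | h | h | h
    · exact n1 h
    · exact n2 h
    · exact n3 h
    · exact n4 h

end

section

variable {V : Type} [Fintype V]

open Classical in
/-- the number of ordered pairs at which two graphs differ -/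
noncomputable def dst (G G' : SimpleGraph V) : ℕ :=
  (univ.filter (fun p : V × V => ¬ (G.Adj p.1 p.2 ↔ G'.Adj p.1 p.2))).card

theorem dst_eq (G G' : SimpleGraph V) :
    dst G G' = 2 * (symmDiff G.edgeSet G'.edgeSet).ncard := by
  classical
  let D : SimpleGraph V := 
    { Adj := fun u v => ¬ (G.Adj u v ↔ G'.Adj u v)
      symm := ⟨fun u v h h' => h (by rw [G.adj_comm, G'.adj_comm]; exact h')⟩
      loopless := ⟨fun u h => h (iff_of_false (G.loopless.irrefl u) (G'.loopless.irrefl u))⟩ }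
  have h1 : symmDiff G.edgeSet G'.edgeSet = (D.edgeFinset : Set (Sym2 V)) := by
    ext z
    induction z using Sym2.ind with
    | _ x y =>
      rw [SimpleGraph.coe_edgeFinset, SimpleGraph.mem_edgeSet, Set.mem_symmDiff,
        SimpleGraph.mem_edgeSet, SimpleGraph.mem_edgeSet]
      change _ ↔ ¬ (G.Adj x y ↔ G'.Adj x y)
      tauto
  rw [h1, Set.ncard_coe_finset, ← D.sum_degrees_eq_twice_card_edges]
  unfold dst
  rw [Finset.card_filter, Fintype.sum_prod_type]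
  refine Finset.sum_congr rfl fun u _ => ?_
  rw [← Finset.card_filter, ← SimpleGraph.card_neighborFinset_eq_degree]
  congr 1
  ext v
  rw [Finset.mem_filter, SimpleGraph.mem_neighborFinset]
  simp [D]

theorem dst_mono {G T G' : SimpleGraph V}
    (h : ∀ u v, ¬ (G.Adj u v ↔ T.Adj u v) → ¬ (G.Adj u v ↔ G'.Adj u v)) : dst G T ≤ dst G G' := by
  classical
  unfold dst
  refine Finset.card_le_card ?_
  intro p hp
  rw [Finset.mem_filter] at hp ⊢
  exact ⟨hp.1, h _ _ hp.2⟩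

theorem exists_lay [DecidableEq V] {G' : SimpleGraph V} (h1 : C4Free G') (h2 : TK G')
    (G : SimpleGraph V) :
    ∃ (X : V → Prop) (R : V → V → Prop) (C : V → Prop) (hR : ∀ u v, R u v → R v u),
      ((X = fun _ => False) ∧ (R = fun _ _ => False) ∨ ∃ f : Fin 5 → V, Function.Injective f ∧
        (X = fun v => ∃ i, f i = v) ∧ (R = fun u v => ∃ i j, f i = u ∧ f j = v ∧ cyc5 i j)) ∧
      (∀ v, C v → ¬ X v) ∧ dst G (tgtG G X R C hR) ≤ dst G G' := by
  by_cases h3 : ∀ f : Fin 5 → V, Function.Injective f → ¬ ∀ i j, G'.Adj (f i) (f j) ↔ cyc5 i j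
  · obtain ⟨C, hC1, hC2⟩ := split_case h1 h2 h3
    refine ⟨fun _ => False, fun _ _ => False, C, fun _ _ h => h, Or.inl ⟨rfl, rfl⟩,
      fun _ _ h => h, dst_mono ?_⟩
    intro u v huv
    have e1 := hC1 u v (fun h => h) (fun h => h)
    have e2 := hC2 u v (fun h => h) (fun h => h)
    have e3 : (tgtG G (fun _ => False) (fun _ _ => False) C (fun _ _ h => h)).Adj u v ↔
      u ≠ v ∧ ((C u ∧ C v) ∨ ((C u ∨ C v) ∧ G.Adj u v)) := by
      rw [tgtG_adj, tgt_OO (fun h => h) (fun h => h)]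
    rw [e3] at huv
    have e4 : G.Adj u v → u ≠ v := fun h => h.ne
    tauto
  · push Not at h3
    obtain ⟨f, hf, hadj⟩ := h3
    obtain ⟨hc, hC1, hC2⟩ := c5_case h1 h2 hf hadj
    refine ⟨fun v => ∃ i, f i = v, fun u v => ∃ i j, f i = u ∧ f j = v ∧ cyc5 i j,
      fun v => (¬ ∃ i, f i = v) ∧ G'.Adj v (f 0), ?_, Or.inr ⟨f, hf, rfl, rfl⟩,
      fun v h => h.1, dst_mono ?_⟩
    · rintro u v ⟨i, j, h1, h2, h3⟩
      exact ⟨j, i, h2, h1, cyc5_symm _ _ h3⟩
    · intro u v huv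
      rw [tgtG_adj] at huv
      refine lay_step (X := fun v => ∃ i, f i = v)
        (R := fun u v => ∃ i j, f i = u ∧ f j = v ∧ cyc5 i j)
        (C := fun v => (¬ ∃ i, f i = v) ∧ G'.Adj v (f 0)) hadj ?_ (fun v => Iff.rfl) ?_ ?_ hC1 hC2
        u v huv
      · intro v hv
        exact hc v (fun j hj => hv ⟨j, hj⟩)
      · intro i j
        constructor
        · rintro ⟨i', j', h1, h2, h3⟩
          rwa [hf h1, hf h2] at h3
        · intro h
          exact ⟨i, j, rfl, rfl, h⟩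
      · intro v hv
        exact ⟨fun h => h.2, fun h => ⟨hv, h⟩⟩

end

end Pool.Agent.H670R4
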