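import Pool.Agent.H670R4.PSThr
import Pool.Agent.H670R4.Incomp

/-!
# The algorithm for editing into a graph without induced `C4` and `2K2`
-/

set_option autoImplicit false

namespace Pool.Agent.H670R4

open Finset Pool.Agent.H622R2

/-- adjacency test -/
def adb (A : List (List Bool)) (u v : ℕ) : Bool :=
  !(decide (u = v)) && (entry A u v || entry A v u)

/-- degree plus number of neighbours in `s` -/
def omL (A : List (List Bool)) (s : List ℕ) (v : ℕ) : ℕ :=
  ((List.range A.length).map fun u => bif adb A v u then (bif decide (u ∈ s) then 2 else 1)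
    else 0).sum

/-- key -/
def kaL (A : List (List Bool)) (s : List ℕ) (v : ℕ) : ℕ :=
  omL A s v * (A.length * A.length + 1) + v

/-- the clique -/
def inC (A : List (List Bool)) (s : List ℕ) (θ v : ℕ) : Bool :=
  !(decide (v ∈ s)) && decide (θ ≤ kaL A s v)

/-- the target -/
def tgL (A : List (List Bool)) (s : List ℕ) (R : List (ℕ × ℕ)) (θ u v : ℕ) : Bool :=
  !(decide (u = v)) &&
    (bif decide (u ∈ s) then (bif decide (v ∈ s) then decide ((u, v) ∈ R) else inC A s θ v)
    else (bif decide (v ∈ s) then inC A s θ u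
      else ((inC A s θ u && inC A s θ v) || ((inC A s θ u || inC A s θ v) && adb A u v))))

/-- the number of changes, counted twice -/
def cntL (A : List (List Bool)) (s : List ℕ) (R : List (ℕ × ℕ)) (θ : ℕ) : ℕ :=
  ((List.range A.length).map fun u => ((List.range A.length).map fun v =>
    bif decide (adb A u v = tgL A s R θ u v) then 0 else 1).sum).sum

/-- the thresholds -/
def thL (A : List (List Bool)) (s : List ℕ) : List ℕ :=
  0 :: (List.range A.length).map fun v => kaL A s v + 1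

/-- 5-tuples -/
def quint (n : ℕ) : List (ℕ × ℕ × ℕ × ℕ × ℕ) :=
  List.range n ×ˢ (List.range n ×ˢ (List.range n ×ˢ (List.range n ×ˢ List.range n)))

/-- distinct entries -/
def nd5 (t : ℕ × ℕ × ℕ × ℕ × ℕ) : Bool :=
  (!(decide (t.1 = t.2.1)) && !(decide (t.1 = t.2.2.1)) && !(decide (t.1 = t.2.2.2.1)) &&
    !(decide (t.1 = t.2.2.2.2))) &&
  (!(decide (t.2.1 = t.2.2.1)) && !(decide (t.2.1 = t.2.2.2.1)) && !(decide (t.2.1 = t.2.2.2.2))) &&
  (!(decide (t.2.2.1 = t.2.2.2.1)) && !(decide (t.2.2.1 = t.2.2.2.2))) &&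
  !(decide (t.2.2.2.1 = t.2.2.2.2))

/-- the vertices -/
def s5 (t : ℕ × ℕ × ℕ × ℕ × ℕ) : List ℕ := [t.1, t.2.1, t.2.2.1, t.2.2.2.1, t.2.2.2.2]

/-- the edges -/
def r5 (t : ℕ × ℕ × ℕ × ℕ × ℕ) : List (ℕ × ℕ) :=
  [(t.1, t.2.1), (t.2.1, t.1), (t.2.1, t.2.2.1), (t.2.2.1, t.2.1), (t.2.2.1, t.2.2.2.1),
    (t.2.2.2.1, t.2.2.1), (t.2.2.2.1, t.2.2.2.2), (t.2.2.2.2, t.2.2.2.1), (t.2.2.2.2, t.1),
    (t.1, t.2.2.2.2)]

/-- the candidates -/
def cands (n : ℕ) : List (List ℕ × List (ℕ × ℕ)) :=
  ([], []) :: ((quint n).filter nd5).map fun t => (s5 t, r5 t)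

/-- the algorithm -/
def decPS (y : Ins) : Bool :=
  (cands y.1.length).any fun c => (thL y.1 c.1).any fun θ => decide (cntL y.1 c.1 c.2 θ ≤ 2 * y.2)

section

variable {A : List (List Bool)} {s : List ℕ} {Rl : List (ℕ × ℕ)}

/-- membership in `s` -/
def memS (A : List (List Bool)) (s : List ℕ) (v : Fin A.length) : Prop := v.1 ∈ s

/-- membership in `R` -/
def memR (A : List (List Bool)) (R : List (ℕ × ℕ)) (u v : Fin A.length) : Prop :=
  (u.1, v.1) ∈ R

theorem adb_iff (u v : Fin A.length) : adb A u.1 v.1 = true ↔ (matGraph A).Adj u v := by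
  unfold adb matGraph
  simp [Fin.ext_iff]

theorem sum_range_map (n : ℕ) (f : ℕ → ℕ) :
    ((List.range n).map f).sum = ∑ i : Fin n, f i := by
  rw [← Finset.sum_range, ← List.sum_toFinset _ (List.nodup_range), List.toFinset_range]

theorem omL_eq (v : Fin A.length) : omL A s v.1 = omn (matGraph A) (memS A s) v := by
  classical
  unfold omL omn
  rw [sum_range_map]
  refine Finset.sum_congr rfl fun u _ => ?_
  have h1 := adb_iff v u
  by_cases hu : (matGraph A).Adj v u
  · rw [if_pos hu, h1.2 hu, cond_true]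
    by_cases hs : u.1 ∈ s
    · have hs' : memS A s u := hs
      rw [if_pos hs', decide_eq_true hs, cond_true]
    · have hs' : ¬ memS A s u := hs
      rw [if_neg hs', decide_eq_false hs, cond_false]
  · have h2 : adb A v.1 u.1 = false := by
      rw [Bool.eq_false_iff]
      exact fun h => hu (h1.1 h)
    rw [if_neg hu, h2, cond_false]

theorem kaL_eq (v : Fin A.length) : kaL A s v.1 = kap (matGraph A) (memS A s) v := by
  unfold kaL kap
  rw [omL_eq]

theorem inC_iff (θ : ℕ) (v : Fin A.length) :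
    inC A s θ v.1 = true ↔ (¬ memS A s v ∧ θ ≤ kap (matGraph A) (memS A s) v) := by
  unfold inC
  rw [kaL_eq]
  simp [memS]

theorem tgL_iff (θ : ℕ) (u v : Fin A.length) :
    tgL A s Rl θ u.1 v.1 = true ↔ tgt (matGraph A) (memS A s) (memR A Rl)
      (fun v => ¬ memS A s v ∧ θ ≤ kap (matGraph A) (memS A s) v) u v := by
  have hu := inC_iff (s := s) θ u
  have hv := inC_iff (s := s) θ v
  have ha := adb_iff u v
  have hne : u.1 = v.1 ↔ u = v := by rw [Fin.ext_iff]
  unfold tgL
  by_cases huv : u = v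
  · have : u.1 = v.1 := hne.2 huv
    refine iff_of_false ?_ (fun h => h.1 huv)
    simp [this]
  · have huv' : ¬ u.1 = v.1 := fun h => huv (hne.1 h)
    rw [decide_eq_false huv', Bool.not_false, Bool.true_and]
    by_cases hXu : u.1 ∈ s
    · have hXu' : memS A s u := hXu
      rw [decide_eq_true hXu, cond_true]
      by_cases hXv : v.1 ∈ s
      · have hXv' : memS A s v := hXv
        rw [decide_eq_true hXv, cond_true, tgt_XX hXu' hXv' huv]
        simp [memR]
      · have hXv' : ¬ memS A s v := hXv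
        rw [decide_eq_false hXv, cond_false, tgt_XO hXu' hXv', hv]
    · have hXu' : ¬ memS A s u := hXu
      rw [decide_eq_false hXu, cond_false]
      by_cases hXv : v.1 ∈ s
      · have hXv' : memS A s v := hXv
        rw [decide_eq_true hXv, cond_true, tgt_OX hXu' hXv', hu]
      · have hXv' : ¬ memS A s v := hXv
        rw [decide_eq_false hXv, cond_false, tgt_OO hXu' hXv', Bool.or_eq_true, Bool.and_eq_true,
          Bool.and_eq_true, Bool.or_eq_true, hu, hv, ha]
        tauto

theorem cntL_eq (θ : ℕ) (hR : ∀ u v, memR A Rl u v → memR A Rl v u) :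
    cntL A s Rl θ = dst (matGraph A) (tgtG (matGraph A) (memS A s) (memR A Rl)
      (fun v => ¬ memS A s v ∧ θ ≤ kap (matGraph A) (memS A s) v) hR) := by
  classical
  unfold cntL dst
  rw [Finset.card_filter, Fintype.sum_prod_type, sum_range_map]
  refine Finset.sum_congr rfl fun u _ => ?_
  rw [sum_range_map]
  refine Finset.sum_congr rfl fun v _ => ?_
  have h1 := adb_iff u v
  have h2 := tgL_iff (s := s) (Rl := Rl) θ u v
  rw [tgtG_adj, ← h1, ← h2]
  cases adb A u.1 v.1 <;> cases tgL A s Rl θ u.1 v.1 <;> simp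

end

theorem nd5_iff {n : ℕ} (a b c d e : Fin n) : nd5 (a.1, b.1, c.1, d.1, e.1) = true ↔
    Function.Injective (![a, b, c, d, e] : Fin 5 → Fin n) := by
  unfold nd5
  simp only [Bool.and_eq_true, Bool.not_eq_true', decide_eq_false_iff_not, ← Fin.ext_iff]
  constructor
  · rintro ⟨⟨⟨⟨⟨⟨h1, h2⟩, h3⟩, h4⟩, ⟨h5, h6⟩, h7⟩, h8, h9⟩, h10⟩
    intro i j hij
    fin_cases i <;> fin_cases j <;> simp_all
  · intro h
    have key : ∀ i j : Fin 5, i ≠ j → (![a, b, c, d, e] : Fin 5 → Fin n) i ≠
        (![a, b, c, d, e] : Fin 5 → Fin n) j := fun i j hij hh => hij (h hh)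
    have k01 := key 0 1 (by decide)
    have k02 := key 0 2 (by decide)
    have k03 := key 0 3 (by decide)
    have k04 := key 0 4 (by decide)
    have k12 := key 1 2 (by decide)
    have k13 := key 1 3 (by decide)
    have k14 := key 1 4 (by decide)
    have k23 := key 2 3 (by decide)
    have k24 := key 2 4 (by decide)
    have k34 := key 3 4 (by decide)
    exact ⟨⟨⟨⟨⟨⟨k01, k02⟩, k03⟩, k04⟩, ⟨k12, k13⟩, k14⟩, k23, k24⟩, k34⟩

theorem mem_s5 {n : ℕ} (a b c d e v : Fin n) : v.1 ∈ s5 (a.1, b.1, c.1, d.1, e.1) ↔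
    ∃ i, (![a, b, c, d, e] : Fin 5 → Fin n) i = v := by
  unfold s5
  simp only [List.mem_cons, List.not_mem_nil, or_false, ← Fin.ext_iff]
  constructor
  · rintro (h | h | h | h | h)
    · exact ⟨0, h.symm⟩
    · exact ⟨1, h.symm⟩
    · exact ⟨2, h.symm⟩
    · exact ⟨3, h.symm⟩
    · exact ⟨4, h.symm⟩
  · rintro ⟨i, rfl⟩
    fin_cases i
    · exact Or.inl rfl
    · exact Or.inr (Or.inl rfl)
    · exact Or.inr (Or.inr (Or.inl rfl))
    · exact Or.inr (Or.inr (Or.inr (Or.inl rfl)))
    · exact Or.inr (Or.inr (Or.inr (Or.inr rfl)))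

theorem mem_r5 {n : ℕ} (a b c d e u v : Fin n) : (u.1, v.1) ∈ r5 (a.1, b.1, c.1, d.1, e.1) ↔
    ∃ i j, (![a, b, c, d, e] : Fin 5 → Fin n) i = u ∧ (![a, b, c, d, e] : Fin 5 → Fin n) j = v ∧
      cyc5 i j := by
  unfold r5
  simp only [List.mem_cons, List.not_mem_nil, or_false, Prod.mk.injEq, ← Fin.ext_iff]
  constructor
  · rintro (h | h | h | h | h | h | h | h | h | h)
    · exact ⟨0, 1, h.1.symm, h.2.symm, by decide⟩
    · exact ⟨1, 0, h.1.symm, h.2.symm, by decide⟩
    · exact ⟨1, 2, h.1.symm, h.2.symm, by decide⟩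
    · exact ⟨2, 1, h.1.symm, h.2.symm, by decide⟩
    · exact ⟨2, 3, h.1.symm, h.2.symm, by decide⟩
    · exact ⟨3, 2, h.1.symm, h.2.symm, by decide⟩
    · exact ⟨3, 4, h.1.symm, h.2.symm, by decide⟩
    · exact ⟨4, 3, h.1.symm, h.2.symm, by decide⟩
    · exact ⟨4, 0, h.1.symm, h.2.symm, by decide⟩
    · exact ⟨0, 4, h.1.symm, h.2.symm, by decide⟩
  · rintro ⟨i, j, rfl, rfl, h⟩
    fin_cases i <;> fin_cases j <;> first
      | exact absurd h (by decide)
      | simp

theorem famFree_pair {V : Type} (G : SimpleGraph V) :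
    FamFree [C4, TwoK2] G ↔ C4Free G ∧ TK G := by
  have h1 : FamFree [C4, TwoK2] G ↔ FamFree [C4] G ∧ FamFree [TwoK2] G := by
    unfold FamFree
    simp only [List.mem_cons, List.not_mem_nil, or_false]
    constructor
    · intro h
      exact ⟨fun H hH => h H (Or.inl hH), fun H hH => h H (Or.inr hH)⟩
    · rintro ⟨h1, h2⟩ H (hH | hH)
      · exact h1 H hH
      · exact h2 H hH
  have h2 : FamFree [TwoK2] G ↔ FamFree [C4] Gᶜ := by
    have := famFree_co [C4] Gᶜ
    rw [compl_compl] at this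
    exact this
  rw [h1, h2, famFree_C4, famFree_C4]
  refine and_congr_right fun _ => ?_
  constructor
  · intro h a b c d hab hcd
    by_contra hcon
    push Not at hcon
    obtain ⟨n1, n2, n3, n4⟩ := hcon
    have e1 : a ≠ c := by rintro rfl; exact n2 hcd
    have e2 : a ≠ d := by rintro rfl; exact n1 hcd.symm
    have e3 : b ≠ c := by rintro rfl; exact n4 hcd
    have e4 : b ≠ d := by rintro rfl; exact n3 hcd.symm
    have := h a c b d ⟨e1, n1⟩ ⟨e3.symm, fun h => n3 h.symm⟩ ⟨e4, n4⟩ ⟨e2.symm, fun h => n2 h.symm⟩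
      hab.ne hcd.ne
    rcases this with h' | h'
    · exact h'.2 hab
    · exact h'.2 hcd
  · intro h a b c d hab hbc hcd hda hac hbd
    by_contra hcon
    push Not at hcon
    obtain ⟨n1, n2⟩ := hcon
    have m1 : G.Adj a c := by
      by_contra hh
      exact n1 ⟨hac, hh⟩
    have m2 : G.Adj b d := by
      by_contra hh
      exact n2 ⟨hbd, hh⟩
    rcases h a c b d m1 m2 with h' | h' | h' | h'
    · exact hab.2 h'
    · exact hda.2 h'.symm
    · exact hbc.2 h'.symm
    · exact hcd.2 h'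

theorem decPS_iff (A : List (List Bool)) (k : ℕ) :
    decPS (A, k) = true ↔ Modifiable ModType.editing [C4, TwoK2] (matGraph A) k := by
  unfold decPS
  simp only [List.any_eq_true, decide_eq_true_eq]
  constructor
  · rintro ⟨c, hc, θ, -, hcnt⟩
    have hlay : (∀ u v, memR A c.2 u v → memR A c.2 v u) ∧ Lay (memS A c.1) (memR A c.2) := by
      unfold cands at hc
      rw [List.mem_cons] at hc
      rcases hc with rfl | hc
      · refine ⟨fun u v h => ?_, Or.inl fun v h => ?_⟩
        · exact absurd h List.not_mem_nil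
        · exact absurd h List.not_mem_nil
      · rw [List.mem_map] at hc
        obtain ⟨⟨a, b, c', d, e⟩, ht, rfl⟩ := hc
        rw [List.mem_filter] at ht
        obtain ⟨ht, hnd⟩ := ht
        unfold quint at ht
        simp only [List.mem_product, List.mem_range] at ht
        obtain ⟨ha, hb, hc, hd, he⟩ := ht
        have h1 := (nd5_iff (⟨a, ha⟩ : Fin A.length) ⟨b, hb⟩ ⟨c', hc⟩ ⟨d, hd⟩ ⟨e, he⟩).1 hnd
        have h2 := fun v => mem_s5 (⟨a, ha⟩ : Fin A.length) ⟨b, hb⟩ ⟨c', hc⟩ ⟨d, hd⟩ ⟨e, he⟩ v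
        have h3 := fun u v => mem_r5 (⟨a, ha⟩ : Fin A.length) ⟨b, hb⟩ ⟨c', hc⟩ ⟨d, hd⟩ ⟨e, he⟩ u v
        refine ⟨?_, Or.inr ⟨_, h1, h2, ?_⟩⟩
        · intro u v h
          have h' := (h3 u v).1 h
          obtain ⟨i, j, e1, e2, e3⟩ := h'
          exact (h3 v u).2 ⟨j, i, e2, e1, cyc5_symm _ _ e3⟩
        · intro i j
          constructor
          · intro h
            have h' := (h3 _ _).1 h
            obtain ⟨i', j', e1, e2, e3⟩ := h'
            rwa [h1 e1, h1 e2] at e3
          · intro h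
            exact (h3 _ _).2 ⟨i, j, rfl, rfl, h⟩
    obtain ⟨hR, hL⟩ := hlay
    rw [cntL_eq (s := c.1) θ hR] at hcnt
    refine ⟨tgtG (matGraph A) (memS A c.1) (memR A c.2)
      (fun v => ¬ memS A c.1 v ∧ θ ≤ kap (matGraph A) (memS A c.1) v) hR, trivial,
      (famFree_pair _).2 ⟨tgtG_c4 hL, tgtG_tk hL⟩, ?_⟩
    rw [dst_eq] at hcnt
    exact Nat.le_of_mul_le_mul_left hcnt (by norm_num)
  · rintro ⟨G', -, hfree, hk⟩
    obtain ⟨h1, h2⟩ := (famFree_pair _).1 hfree
    obtain ⟨X, R, C, hR, hXR, hC, hle⟩ := exists_lay h1 h2 (matGraph A)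
    obtain ⟨θ, hθ, hθle⟩ := exists_thr (G := matGraph A) (R := R) (hR := hR) hC
    obtain ⟨c, hc, rfl, rfl⟩ : ∃ c ∈ cands A.length, X = memS A c.1 ∧ R = memR A c.2 := by
      rcases hXR with ⟨rfl, rfl⟩ | ⟨f, hf, rfl, rfl⟩
      · refine ⟨([], []), List.mem_cons_self, ?_, ?_⟩
        · funext v
          simp [memS]
        · funext u v
          simp [memR]
      · have hf5 : f = ![f 0, f 1, f 2, f 3, f 4] := by
          funext i
          fin_cases i <;> rfl
        refine ⟨(s5 ((f 0).1, (f 1).1, (f 2).1, (f 3).1, (f 4).1),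
          r5 ((f 0).1, (f 1).1, (f 2).1, (f 3).1, (f 4).1)), ?_, ?_, ?_⟩
        · unfold cands
          refine List.mem_cons_of_mem _ ?_
          rw [List.mem_map]
          refine ⟨((f 0).1, (f 1).1, (f 2).1, (f 3).1, (f 4).1), ?_, rfl⟩
          rw [List.mem_filter]
          constructor
          · unfold quint
            simp only [List.mem_product, List.mem_range]
            exact ⟨(f 0).2, (f 1).2, (f 2).2, (f 3).2, (f 4).2⟩
          · rw [nd5_iff, ← hf5]
            exact hf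
        · funext v
          unfold memS
          rw [eq_iff_iff, mem_s5, ← hf5]
        · funext u v
          unfold memR
          rw [eq_iff_iff, mem_r5, ← hf5]
    refine ⟨c, hc, θ, ?_, ?_⟩
    · unfold thL
      rw [List.mem_cons]
      rcases hθ with hθ | ⟨w, hw⟩
      · exact Or.inl hθ
      · right
        rw [List.mem_map]
        exact ⟨w.1, List.mem_range.2 w.2, by rw [kaL_eq, hw]⟩
    · rw [cntL_eq (s := c.1) θ hR]
      refine hθle.trans (hle.trans ?_)
      rw [dst_eq]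
      omega

end Pool.Agent.H670R4
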