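import Pool.Agent.H670R4.PSDec
import Pool.Agent.H671R2.GraphEnc

/-!
# The algorithm is polynomial
-/

set_option autoImplicit false

namespace Pool.Agent.H670R4

open Pool.Agent.NPC Pool.Agent.H622R2 Pool.Agent.NPC.R671

variable {α : Type} [TEnc α]

theorem poly_entry {A : α → List (List Bool)} {u v : α → ℕ} (hA : Poly A) (hu : Poly u)
    (hv : Poly v) : Poly (fun a => entry (A a) (u a) (v a)) := by
  have h1 : Poly (fun a => (A a).getD (u a) []) := NPC.Poly.getD hA hu (NPC.Poly.const _)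
  exact NPC.Poly.getD h1 hv (NPC.Poly.const _)

theorem poly_adb {A : α → List (List Bool)} {u v : α → ℕ} (hA : Poly A) (hu : Poly u)
    (hv : Poly v) : Poly (fun a => adb (A a) (u a) (v a)) := by
  have h1 : Poly (fun a => entry (A a) (u a) (v a)) := poly_entry hA hu hv
  have h2 : Poly (fun a => entry (A a) (v a) (u a)) := poly_entry hA hv hu
  have h3 : Poly (fun a => decide (u a = v a)) := NPC.Poly.decide_eq hu hv
  exact NPC.Poly.and (NPC.Poly.not h3) (NPC.Poly.or h1 h2)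

theorem poly_rng {A : α → List (List Bool)} (hA : Poly A) :
    Poly (fun a => List.range (A a).length) := (UPoly.length hA).range

theorem poly_omL {A : α → List (List Bool)} {s : α → List ℕ} {v : α → ℕ} (hA : Poly A)
    (hs : Poly s) (hv : Poly v) : Poly (fun a => omL (A a) (s a) (v a)) := by
  have f1 : Poly (fun p : α × ℕ => p.1) := NPC.Poly.fst NPC.Poly.id
  have f2 : Poly (fun p : α × ℕ => p.2) := NPC.Poly.snd NPC.Poly.id
  have hA' : Poly (fun p : α × ℕ => A p.1) := hA.comp f1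
  have hs' : Poly (fun p : α × ℕ => s p.1) := hs.comp f1
  have hv' : Poly (fun p : α × ℕ => v p.1) := hv.comp f1
  have h1 : Poly (fun p : α × ℕ => adb (A p.1) (v p.1) p.2) := poly_adb hA' hv' f2
  have h2 : Poly (fun p : α × ℕ => decide (p.2 ∈ s p.1)) := NPC.Poly.decide_mem f2 hs'
  have h3 : Poly (fun p : α × ℕ => bif decide (p.2 ∈ s p.1) then 2 else 1) :=
    NPC.Poly.cond h2 (NPC.Poly.const 2) (NPC.Poly.const 1)
  have h4 : Poly (fun p : α × ℕ => bif adb (A p.1) (v p.1) p.2 then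
      (bif decide (p.2 ∈ s p.1) then 2 else 1) else 0) :=
    NPC.Poly.cond h1 h3 (NPC.Poly.const 0)
  have h5 : Poly (fun a => (List.range (A a).length).map fun u => bif adb (A a) (v a) u then
      (bif decide (u ∈ s a) then 2 else 1) else 0) :=
    NPC.Poly.map (F := fun (a : α) (u : ℕ) => bif adb (A a) (v a) u then
      (bif decide (u ∈ s a) then 2 else 1) else 0) (poly_rng hA) h4
  exact NPC.Poly.sum h5

theorem poly_kaL {A : α → List (List Bool)} {s : α → List ℕ} {v : α → ℕ} (hA : Poly A)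
    (hs : Poly s) (hv : Poly v) : Poly (fun a => kaL (A a) (s a) (v a)) := by
  have h1 : Poly (fun a => omL (A a) (s a) (v a)) := poly_omL hA hs hv
  have h2 : Poly (fun a => (A a).length) := NPC.Poly.length hA
  have h3 : Poly (fun a => (A a).length * (A a).length) := NPC.Poly.mul h2 h2
  have h4 : Poly (fun a => (A a).length * (A a).length + 1) := NPC.Poly.succ h3
  have h5 : Poly (fun a => omL (A a) (s a) (v a) * ((A a).length * (A a).length + 1)) :=
    NPC.Poly.mul h1 h4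
  exact NPC.Poly.add h5 hv

theorem poly_inC {A : α → List (List Bool)} {s : α → List ℕ} {θ v : α → ℕ} (hA : Poly A)
    (hs : Poly s) (hθ : Poly θ) (hv : Poly v) : Poly (fun a => inC (A a) (s a) (θ a) (v a)) := by
  have h1 : Poly (fun a => kaL (A a) (s a) (v a)) := poly_kaL hA hs hv
  have h2 : Poly (fun a => decide (v a ∈ s a)) := NPC.Poly.decide_mem hv hs
  have h3 : Poly (fun a => decide (θ a ≤ kaL (A a) (s a) (v a))) := NPC.Poly.decide_le hθ h1
  exact NPC.Poly.and (NPC.Poly.not h2) h3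

theorem poly_tgL {A : α → List (List Bool)} {s : α → List ℕ} {R : α → List (ℕ × ℕ)}
    {θ u v : α → ℕ} (hA : Poly A) (hs : Poly s) (hR : Poly R) (hθ : Poly θ) (hu : Poly u)
    (hv : Poly v) : Poly (fun a => tgL (A a) (s a) (R a) (θ a) (u a) (v a)) := by
  have h1 : Poly (fun a => decide (u a = v a)) := NPC.Poly.decide_eq hu hv
  have h2 : Poly (fun a => decide (u a ∈ s a)) := NPC.Poly.decide_mem hu hs
  have h3 : Poly (fun a => decide (v a ∈ s a)) := NPC.Poly.decide_mem hv hs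
  have h4 : Poly (fun a => (u a, v a)) := NPC.Poly.pair hu hv
  have h5 : Poly (fun a => decide ((u a, v a) ∈ R a)) := 
    (NPC.Poly.decide_mem h4 hR).congr fun a => decide_eq_decide.2 Iff.rfl
  have h6 : Poly (fun a => inC (A a) (s a) (θ a) (u a)) := poly_inC hA hs hθ hu
  have h7 : Poly (fun a => inC (A a) (s a) (θ a) (v a)) := poly_inC hA hs hθ hv
  have h8 : Poly (fun a => adb (A a) (u a) (v a)) := poly_adb hA hu hv
  have h9 : Poly (fun a => bif decide (v a ∈ s a) then decide ((u a, v a) ∈ R a) else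
      inC (A a) (s a) (θ a) (v a)) := NPC.Poly.cond h3 h5 h7
  have h10 : Poly (fun a => (inC (A a) (s a) (θ a) (u a) && inC (A a) (s a) (θ a) (v a))) :=
    NPC.Poly.and h6 h7
  have h11 : Poly (fun a => (inC (A a) (s a) (θ a) (u a) || inC (A a) (s a) (θ a) (v a))) :=
    NPC.Poly.or h6 h7
  have h12 : Poly (fun a => ((inC (A a) (s a) (θ a) (u a) || inC (A a) (s a) (θ a) (v a)) &&
      adb (A a) (u a) (v a))) := NPC.Poly.and h11 h8
  have h13 : Poly (fun a => ((inC (A a) (s a) (θ a) (u a) && inC (A a) (s a) (θ a) (v a)) ||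
      ((inC (A a) (s a) (θ a) (u a) || inC (A a) (s a) (θ a) (v a)) &&
      adb (A a) (u a) (v a)))) := NPC.Poly.or h10 h12
  have h14 : Poly (fun a => bif decide (v a ∈ s a) then inC (A a) (s a) (θ a) (u a) else
      ((inC (A a) (s a) (θ a) (u a) && inC (A a) (s a) (θ a) (v a)) ||
      ((inC (A a) (s a) (θ a) (u a) || inC (A a) (s a) (θ a) (v a)) &&
      adb (A a) (u a) (v a)))) := NPC.Poly.cond h3 h6 h13
  have h15 : Poly (fun a => bif decide (u a ∈ s a) then
      (bif decide (v a ∈ s a) then decide ((u a, v a) ∈ R a) else inC (A a) (s a) (θ a) (v a))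
      else (bif decide (v a ∈ s a) then inC (A a) (s a) (θ a) (u a) else
      ((inC (A a) (s a) (θ a) (u a) && inC (A a) (s a) (θ a) (v a)) ||
      ((inC (A a) (s a) (θ a) (u a) || inC (A a) (s a) (θ a) (v a)) &&
      adb (A a) (u a) (v a))))) := NPC.Poly.cond h2 h9 h14
  exact NPC.Poly.and (NPC.Poly.not h1) h15

theorem poly_cntL {A : α → List (List Bool)} {s : α → List ℕ} {R : α → List (ℕ × ℕ)}
    {θ : α → ℕ} (hA : Poly A) (hs : Poly s) (hR : Poly R) (hθ : Poly θ) :
    Poly (fun a => cntL (A a) (s a) (R a) (θ a)) := by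
  have f1 : Poly (fun p : (α × ℕ) × ℕ => p.1.1) := NPC.Poly.fst (NPC.Poly.fst NPC.Poly.id)
  have f2 : Poly (fun p : (α × ℕ) × ℕ => p.1.2) := NPC.Poly.snd (NPC.Poly.fst NPC.Poly.id)
  have f3 : Poly (fun p : (α × ℕ) × ℕ => p.2) := NPC.Poly.snd NPC.Poly.id
  have hA' : Poly (fun p : (α × ℕ) × ℕ => A p.1.1) := hA.comp f1
  have hs' : Poly (fun p : (α × ℕ) × ℕ => s p.1.1) := hs.comp f1
  have hR' : Poly (fun p : (α × ℕ) × ℕ => R p.1.1) := hR.comp f1
  have hθ' : Poly (fun p : (α × ℕ) × ℕ => θ p.1.1) := hθ.comp f1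
  have h1 : Poly (fun p : (α × ℕ) × ℕ => adb (A p.1.1) p.1.2 p.2) := poly_adb hA' f2 f3
  have h2 : Poly (fun p : (α × ℕ) × ℕ =>
      tgL (A p.1.1) (s p.1.1) (R p.1.1) (θ p.1.1) p.1.2 p.2) := poly_tgL hA' hs' hR' hθ' f2 f3
  have h3 : Poly (fun p : (α × ℕ) × ℕ => decide (adb (A p.1.1) p.1.2 p.2 =
      tgL (A p.1.1) (s p.1.1) (R p.1.1) (θ p.1.1) p.1.2 p.2)) := NPC.Poly.decide_eq h1 h2
  have h4 : Poly (fun p : (α × ℕ) × ℕ => bif decide (adb (A p.1.1) p.1.2 p.2 =
      tgL (A p.1.1) (s p.1.1) (R p.1.1) (θ p.1.1) p.1.2 p.2) then 0 else 1) :=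
    NPC.Poly.cond h3 (NPC.Poly.const 0) (NPC.Poly.const 1)
  have g1 : Poly (fun p : α × ℕ => p.1) := NPC.Poly.fst NPC.Poly.id
  have hA'' : Poly (fun p : α × ℕ => A p.1) := hA.comp g1
  have h5 : Poly (fun p : α × ℕ => (List.range (A p.1).length).map fun v =>
      bif decide (adb (A p.1) p.2 v = tgL (A p.1) (s p.1) (R p.1) (θ p.1) p.2 v) then 0 else 1) :=
    NPC.Poly.map (F := fun (p : α × ℕ) (v : ℕ) => bif decide (adb (A p.1) p.2 v =
      tgL (A p.1) (s p.1) (R p.1) (θ p.1) p.2 v) then 0 else 1) (poly_rng hA'') h4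
  have h6 : Poly (fun p : α × ℕ => ((List.range (A p.1).length).map fun v =>
      bif decide (adb (A p.1) p.2 v = tgL (A p.1) (s p.1) (R p.1) (θ p.1) p.2 v) then 0
      else 1).sum) := NPC.Poly.sum h5
  have h7 : Poly (fun a => (List.range (A a).length).map fun u =>
      ((List.range (A a).length).map fun v =>
      bif decide (adb (A a) u v = tgL (A a) (s a) (R a) (θ a) u v) then 0 else 1).sum) :=
    NPC.Poly.map (F := fun (a : α) (u : ℕ) => ((List.range (A a).length).map fun v =>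
      bif decide (adb (A a) u v = tgL (A a) (s a) (R a) (θ a) u v) then 0 else 1).sum)
      (poly_rng hA) h6
  exact NPC.Poly.sum h7

theorem poly_thL {A : α → List (List Bool)} {s : α → List ℕ} (hA : Poly A) (hs : Poly s) :
    Poly (fun a => thL (A a) (s a)) := by
  have f1 : Poly (fun p : α × ℕ => p.1) := NPC.Poly.fst NPC.Poly.id
  have f2 : Poly (fun p : α × ℕ => p.2) := NPC.Poly.snd NPC.Poly.id
  have hA' : Poly (fun p : α × ℕ => A p.1) := hA.comp f1
  have hs' : Poly (fun p : α × ℕ => s p.1) := hs.comp f1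
  have h1 : Poly (fun p : α × ℕ => kaL (A p.1) (s p.1) p.2) := poly_kaL hA' hs' f2
  have h2 : Poly (fun p : α × ℕ => kaL (A p.1) (s p.1) p.2 + 1) := NPC.Poly.succ h1
  have h3 : Poly (fun a => (List.range (A a).length).map fun v => kaL (A a) (s a) v + 1) :=
    NPC.Poly.map (F := fun (a : α) (v : ℕ) => kaL (A a) (s a) v + 1) (poly_rng hA) h2
  exact NPC.Poly.cons (NPC.Poly.const 0) h3

/-- 5-tuples of numbers -/
abbrev Q5 : Type := ℕ × ℕ × ℕ × ℕ × ℕ

theorem q1 : Poly (fun t : Q5 => t.1) := NPC.Poly.fst NPC.Poly.id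
theorem q2 : Poly (fun t : Q5 => t.2.1) := by
  have h : Poly (fun t : Q5 => t.2) := NPC.Poly.snd NPC.Poly.id
  exact NPC.Poly.fst h
theorem q3 : Poly (fun t : Q5 => t.2.2.1) := by
  have h : Poly (fun t : Q5 => t.2) := NPC.Poly.snd NPC.Poly.id
  have h' : Poly (fun t : Q5 => t.2.2) := NPC.Poly.snd h
  exact NPC.Poly.fst h'
theorem q4 : Poly (fun t : Q5 => t.2.2.2.1) := by
  have h : Poly (fun t : Q5 => t.2) := NPC.Poly.snd NPC.Poly.id
  have h' : Poly (fun t : Q5 => t.2.2) := NPC.Poly.snd h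
  have h'' : Poly (fun t : Q5 => t.2.2.2) := NPC.Poly.snd h'
  exact NPC.Poly.fst h''
theorem q5 : Poly (fun t : Q5 => t.2.2.2.2) := by
  have h : Poly (fun t : Q5 => t.2) := NPC.Poly.snd NPC.Poly.id
  have h' : Poly (fun t : Q5 => t.2.2) := NPC.Poly.snd h
  have h'' : Poly (fun t : Q5 => t.2.2.2) := NPC.Poly.snd h'
  exact NPC.Poly.snd h''

theorem poly_ne {f g : Q5 → ℕ} (hf : Poly f) (hg : Poly g) :
    Poly (fun t => !(decide (f t = g t))) := by
  have h : Poly (fun t => decide (f t = g t)) := NPC.Poly.decide_eq hf hg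
  exact NPC.Poly.not h

theorem poly_nd5 : Poly nd5 := by
  have a1 := poly_ne q1 q2
  have a2 := poly_ne q1 q3
  have a3 := poly_ne q1 q4
  have a4 := poly_ne q1 q5
  have b1 := poly_ne q2 q3
  have b2 := poly_ne q2 q4
  have b3 := poly_ne q2 q5
  have c1 := poly_ne q3 q4
  have c2 := poly_ne q3 q5
  have d1 := poly_ne q4 q5
  have e1 := NPC.Poly.and (NPC.Poly.and (NPC.Poly.and a1 a2) a3) a4
  have e2 := NPC.Poly.and (NPC.Poly.and b1 b2) b3
  have e3 := NPC.Poly.and c1 c2
  exact NPC.Poly.and (NPC.Poly.and (NPC.Poly.and e1 e2) e3) d1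

theorem poly_nil {β : Type} [TEnc β] : Poly (fun _ : Q5 => ([] : List β)) := NPC.Poly.const _

theorem poly_s5 : Poly s5 := by
  have h5 : Poly (fun t : Q5 => [t.2.2.2.2]) := NPC.Poly.cons q5 poly_nil
  have h4 : Poly (fun t : Q5 => [t.2.2.2.1, t.2.2.2.2]) := NPC.Poly.cons q4 h5
  have h3 : Poly (fun t : Q5 => [t.2.2.1, t.2.2.2.1, t.2.2.2.2]) := NPC.Poly.cons q3 h4
  have h2 : Poly (fun t : Q5 => [t.2.1, t.2.2.1, t.2.2.2.1, t.2.2.2.2]) := NPC.Poly.cons q2 h3
  exact NPC.Poly.cons q1 h2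

theorem poly_pr {f g : Q5 → ℕ} (hf : Poly f) (hg : Poly g) {l : Q5 → List (ℕ × ℕ)}
    (hl : Poly l) : Poly (fun t => (f t, g t) :: l t) := by
  have h : Poly (fun t => (f t, g t)) := NPC.Poly.pair hf hg
  exact NPC.Poly.cons h hl

theorem poly_r5 : Poly r5 := by
  have h10 := poly_pr q1 q5 poly_nil
  have h9 := poly_pr q5 q1 h10
  have h8 := poly_pr q5 q4 h9
  have h7 := poly_pr q4 q5 h8
  have h6 := poly_pr q4 q3 h7
  have h5 := poly_pr q3 q4 h6
  have h4 := poly_pr q3 q2 h5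
  have h3 := poly_pr q2 q3 h4
  have h2 := poly_pr q2 q1 h3
  exact poly_pr q1 q2 h2

theorem poly_cands {A : α → List (List Bool)} (hA : Poly A) :
    Poly (fun a => cands (A a).length) := by
  have hr : Poly (fun a => List.range (A a).length) := poly_rng hA
  have h2 : Poly (fun a => List.range (A a).length ×ˢ List.range (A a).length) :=
    poly_product hr hr
  have h3 : Poly (fun a => List.range (A a).length ×ˢ (List.range (A a).length ×ˢ
    List.range (A a).length)) := poly_product hr h2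
  have h4 : Poly (fun a => List.range (A a).length ×ˢ (List.range (A a).length ×ˢ
    (List.range (A a).length ×ˢ List.range (A a).length))) := poly_product hr h3
  have h5 : Poly (fun a => quint (A a).length) := poly_product hr h4
  have g2 : Poly (fun p : α × Q5 => p.2) := NPC.Poly.snd NPC.Poly.id
  have h6 : Poly (fun p : α × Q5 => nd5 p.2) := poly_nd5.comp g2
  have h7 : Poly (fun a => (quint (A a).length).filter nd5) :=
    NPC.Poly.filter (p := fun (_ : α) (t : Q5) => nd5 t) h5 h6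
  have h8 : Poly (fun p : α × Q5 => s5 p.2) := poly_s5.comp g2
  have h9 : Poly (fun p : α × Q5 => r5 p.2) := poly_r5.comp g2
  have h10 : Poly (fun p : α × Q5 => (s5 p.2, r5 p.2)) := NPC.Poly.pair h8 h9
  have h11 : Poly (fun a => ((quint (A a).length).filter nd5).map fun t => (s5 t, r5 t)) :=
    NPC.Poly.map (F := fun (_ : α) (t : Q5) => (s5 t, r5 t)) h7 h10
  have h12 : Poly (fun _ : α => (([], []) : List ℕ × List (ℕ × ℕ))) := NPC.Poly.const _
  exact NPC.Poly.cons h12 h11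

/-- candidates -/
abbrev Cd : Type := List ℕ × List (ℕ × ℕ)

theorem poly_decPS : Poly decPS := by
  have a1 : Poly (fun p : (Ins × Cd) × ℕ => p.1) := NPC.Poly.fst NPC.Poly.id
  have a2 : Poly (fun p : (Ins × Cd) × ℕ => p.1.1) := NPC.Poly.fst a1
  have a3 : Poly (fun p : (Ins × Cd) × ℕ => p.1.1.1) := NPC.Poly.fst a2
  have a4 : Poly (fun p : (Ins × Cd) × ℕ => p.1.1.2) := NPC.Poly.snd a2
  have a5 : Poly (fun p : (Ins × Cd) × ℕ => p.1.2) := NPC.Poly.snd a1
  have a6 : Poly (fun p : (Ins × Cd) × ℕ => p.1.2.1) := NPC.Poly.fst a5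
  have a7 : Poly (fun p : (Ins × Cd) × ℕ => p.1.2.2) := NPC.Poly.snd a5
  have a8 : Poly (fun p : (Ins × Cd) × ℕ => p.2) := NPC.Poly.snd NPC.Poly.id
  have h1 : Poly (fun p : (Ins × Cd) × ℕ => cntL p.1.1.1 p.1.2.1 p.1.2.2 p.2) :=
    poly_cntL a3 a6 a7 a8
  have h2 : Poly (fun p : (Ins × Cd) × ℕ => 2 * p.1.1.2) := NPC.Poly.mul (NPC.Poly.const 2) a4
  have h3 : Poly (fun p : (Ins × Cd) × ℕ =>
      decide (cntL p.1.1.1 p.1.2.1 p.1.2.2 p.2 ≤ 2 * p.1.1.2)) := NPC.Poly.decide_le h1 h2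
  have b1 : Poly (fun p : Ins × Cd => p.1) := NPC.Poly.fst NPC.Poly.id
  have b2 : Poly (fun p : Ins × Cd => p.1.1) := NPC.Poly.fst b1
  have b3 : Poly (fun p : Ins × Cd => p.2) := NPC.Poly.snd NPC.Poly.id
  have b4 : Poly (fun p : Ins × Cd => p.2.1) := NPC.Poly.fst b3
  have h4 : Poly (fun p : Ins × Cd => thL p.1.1 p.2.1) := poly_thL b2 b4
  have h5 : Poly (fun p : Ins × Cd => (thL p.1.1 p.2.1).any fun θ =>
      decide (cntL p.1.1 p.2.1 p.2.2 θ ≤ 2 * p.1.2)) :=
    NPC.Poly.any (p := fun (p : Ins × Cd) (θ : ℕ) =>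
      decide (cntL p.1.1 p.2.1 p.2.2 θ ≤ 2 * p.1.2)) h4 h3
  have c1 : Poly (fun y : Ins => y.1) := NPC.Poly.fst NPC.Poly.id
  have h6 : Poly (fun y : Ins => cands y.1.length) := poly_cands c1
  exact NPC.Poly.any (p := fun (y : Ins) (c : Cd) => (thL y.1 c.1).any fun θ =>
      decide (cntL y.1 c.1 c.2 θ ≤ 2 * y.2)) h6 h5

/-- matrix of the 4-cycle -/
def noM : List (List Bool) :=
  [[false, true, false, true], [true, false, true, false], [false, true, false, true],
    [true, false, true, false]]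

/-- the kernelization -/
def kPS (x : List Bool) : List Bool :=
  (unbits Ins x).elim [] fun y => bif decPS y then bits (([], 0) : Ins) else bits ((noM, 0) : Ins)

theorem polyTime_kPS : PolyTime kPS := by
  refine polyTime_of_poly_list ?_
  have h0 : Poly (fun x : List Bool => unbits Ins x) := poly_unbits
  have g2 : Poly (fun p : List Bool × Ins => p.2) := NPC.Poly.snd NPC.Poly.id
  have h1 : Poly (fun p : List Bool × Ins => decPS p.2) := poly_decPS.comp g2
  have h2 : Poly (fun p : List Bool × Ins => bif decPS p.2 then bits (([], 0) : Ins)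
      else bits ((noM, 0) : Ins)) := NPC.Poly.cond h1 (NPC.Poly.const _) (NPC.Poly.const _)
  exact NPC.Poly.optElim (o := fun x : List Bool => unbits Ins x)
    (g := fun _ => ([] : List Bool)) (h := fun (_ : List Bool) (y : Ins) =>
      bif decPS y then bits (([], 0) : Ins) else bits ((noM, 0) : Ins)) h0
    (NPC.Poly.const _) h2

theorem yes_ins : Modifiable ModType.editing [C4, TwoK2] (matGraph []) 0 := by
  refine ⟨⊥, trivial, (famFree_pair _).2 ⟨?_, ?_⟩, ?_⟩
  · intro a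
    exact a.elim0
  · intro a
    exact a.elim0
  · rw [Nat.le_zero, Set.ncard_eq_zero]
    ext z
    induction z using Sym2.ind with
    | _ x y => exact x.elim0

theorem no_ins : ¬ Modifiable ModType.editing [C4, TwoK2] (matGraph noM) 0 := by
  rintro ⟨G', -, h1, h2⟩
  obtain ⟨h3, -⟩ := (famFree_pair _).1 h1
  rw [near_iff] at h2
  obtain ⟨F, hF, h⟩ := h2
  have hF' : F = ∅ := Finset.card_eq_zero.1 (Nat.le_zero.1 hF)
  subst hF'
  have key : ∀ a b, (matGraph noM).Adj a b ↔ G'.Adj a b := by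
    intro a b
    by_contra hcon
    exact absurd (h a b hcon) (Finset.notMem_empty _)
  have e : ∀ i j : Fin 4, (matGraph noM).Adj i j ↔ (i ≠ j ∧ (entry noM i j = true ∨
    entry noM j i = true)) := fun i j => Iff.rfl
  have hlen : noM.length = 4 := rfl
  have a0 : (matGraph noM).Adj (0 : Fin 4) (1 : Fin 4) := (e 0 1).2 (by decide)
  have a1 : (matGraph noM).Adj (1 : Fin 4) (2 : Fin 4) := (e 1 2).2 (by decide)
  have a2 : (matGraph noM).Adj (2 : Fin 4) (3 : Fin 4) := (e 2 3).2 (by decide)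
  have a3 : (matGraph noM).Adj (3 : Fin 4) (0 : Fin 4) := (e 3 0).2 (by decide)
  rcases h3 (0 : Fin 4) (1 : Fin 4) (2 : Fin 4) (3 : Fin 4) ((key _ _).1 a0) ((key _ _).1 a1)
    ((key _ _).1 a2) ((key _ _).1 a3) (by decide : (0 : Fin 4) ≠ 2) (by decide : (1 : Fin 4) ≠ 3)
    with h' | h'
  · exact absurd ((e 0 2).1 ((key _ _).2 h')) (by decide)
  · exact absurd ((e 1 3).1 ((key _ _).2 h')) (by decide)

theorem hasPolyKernel_PS : HasPolyKernel ModType.editing [C4, TwoK2] := by
  refine ⟨kPS, Polynomial.C (max (bits (([], 0) : Ins)).length (bits ((noM, 0) : Ins)).length),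
    polyTime_kPS, ?_⟩
  intro A k
  by_cases h : decPS (A, k) = true
  · refine ⟨[], 0, ?_, ?_, ?_⟩
    · unfold kPS
      rw [unbits_bits, Option.elim_some, h, cond_true]
    · exact iff_of_true ((decPS_iff A k).1 h) yes_ins
    · rw [Polynomial.eval_C]
      exact le_max_left _ _
  · refine ⟨noM, 0, ?_, ?_, ?_⟩
    · unfold kPS
      rw [unbits_bits, Option.elim_some, Bool.eq_false_iff.2 h, cond_false]
    · exact iff_of_false (fun hh => h ((decPS_iff A k).2 hh)) no_ins
    · rw [Polynomial.eval_C]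
      exact le_max_right _ _

end Pool.Agent.H670R4
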