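import Pool.Agent.H670R4.PSAlg

/-!
# Cliques given by thresholds
-/

set_option autoImplicit false

namespace Pool.Agent.H670R4

open Finset

section

variable {V : Type} [Fintype V] {G : SimpleGraph V} {X : V → Prop} {R : V → V → Prop}
  {C : V → Prop} {hR : ∀ u v, R u v → R v u}

open Classical in
/-- indicator -/
noncomputable def ind (p : Prop) : ℤ := if p then 1 else 0

theorem ind_true {p : Prop} (h : p) : ind p = 1 := by simp [ind, h]

theorem ind_false {p : Prop} (h : ¬ p) : ind p = 0 := by simp [ind, h]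

theorem dst_cast (G G' : SimpleGraph V) :
    (dst G G' : ℤ) = ∑ u, ∑ v, ind (¬ (G.Adj u v ↔ G'.Adj u v)) := by
  classical
  unfold dst
  rw [Finset.card_filter, Fintype.sum_prod_type]
  push_cast
  refine Finset.sum_congr rfl fun u _ => Finset.sum_congr rfl fun v _ => ?_
  unfold ind
  congr

/-- the degree plus the number of neighbours in `X` -/
noncomputable def omz (G : SimpleGraph V) (X : V → Prop) (u : V) : ℤ :=
  ∑ v, ind (G.Adj u v) * (1 + ind (X v))

theorem point_formula (hC : ∀ v, C v → ¬ X v) (u v : V) :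
    ind (¬ (G.Adj u v ↔ tgt G X R C u v)) =
      ind (C u) * ind (C v) + ind (X u) * ind (C v) + ind (C u) * ind (X v)
      - ind (C u) * (ind (G.Adj u v) * (1 + ind (X v)))
      - ind (C v) * (ind (G.Adj v u) * (1 + ind (X u)))
      + ind (¬ (G.Adj u v ↔ tgt G X R (fun _ => False) u v)) - ind (u = v) * ind (C u) := by
  by_cases huv : u = v
  · subst huv
    have h1 : ¬ G.Adj u u := G.loopless.irrefl u
    have h2 : ¬ tgt G X R C u u := fun h => h.1 rfl
    have h3 : ¬ tgt G X R (fun _ => False) u u := fun h => h.1 rfl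
    rw [ind_false (fun h => h (iff_of_false h1 h2)), ind_false (p := G.Adj u u) h1,
      ind_false (p := ¬ (G.Adj u u ↔ tgt G X R (fun _ => False) u u))
        (fun h => h (iff_of_false h1 h3)), ind_true (p := u = u) rfl]
    by_cases hc : C u
    · rw [ind_true hc, ind_false (hC u hc)]
      norm_num
    · rw [ind_false hc]
      norm_num
  · rw [ind_false huv, G.adj_comm v u]
    by_cases hXu : X u
    · have hCu : ¬ C u := fun h => hC u h hXu
      by_cases hXv : X v
      · have hCv : ¬ C v := fun h => hC v h hXv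
        have e1 : tgt G X R C u v ↔ R u v := tgt_XX hXu hXv huv
        have e2 : tgt G X R (fun _ => False) u v ↔ R u v := tgt_XX hXu hXv huv
        rw [e1, e2, ind_false hCu, ind_false hCv]
        ring
      · have e1 : tgt G X R C u v ↔ C v := tgt_XO hXu hXv
        have e2 : tgt G X R (fun _ => False) u v ↔ False := tgt_XO (C := fun _ => False) hXu hXv
        rw [e1, e2, ind_false hCu, ind_true hXu, ind_false hXv]
        by_cases hCv : C v
        · rw [ind_true hCv]
          by_cases hg : G.Adj u v
          · rw [ind_true hg, ind_false (by tauto), ind_true (by tauto)]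
            norm_num
          · rw [ind_false hg, ind_true (by tauto), ind_false (by tauto)]
            norm_num
        · rw [ind_false hCv]
          by_cases hg : G.Adj u v
          · simp [ind, hg, hCv]
          · simp [ind, hg, hCv]
    · by_cases hXv : X v
      · have hCv : ¬ C v := fun h => hC v h hXv
        have e1 : tgt G X R C u v ↔ C u := tgt_OX hXu hXv
        have e2 : tgt G X R (fun _ => False) u v ↔ False := tgt_OX (C := fun _ => False) hXu hXv
        rw [e1, e2, ind_false hCv, ind_true hXv, ind_false hXu]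
        by_cases hCu : C u
        · rw [ind_true hCu]
          by_cases hg : G.Adj u v
          · rw [ind_true hg, ind_false (by tauto), ind_true (by tauto)]
            norm_num
          · rw [ind_false hg, ind_true (by tauto), ind_false (by tauto)]
            norm_num
        · rw [ind_false hCu]
          by_cases hg : G.Adj u v
          · simp [ind, hg, hCu]
          · simp [ind, hg, hCu]
      · have e1 : tgt G X R C u v ↔ u ≠ v ∧ ((C u ∧ C v) ∨ ((C u ∨ C v) ∧ G.Adj u v)) :=
          tgt_OO hXu hXv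
        have e2 : tgt G X R (fun _ => False) u v ↔ False := by
          rw [tgt_OO (C := fun _ => False) hXu hXv]
          tauto
        rw [e1, e2, ind_false hXu, ind_false hXv]
        by_cases hCu : C u
        · by_cases hCv : C v
          · rw [ind_true hCu, ind_true hCv]
            by_cases hg : G.Adj u v
            · rw [ind_true hg, ind_false (by tauto), ind_true (by tauto)]
              norm_num
            · rw [ind_false hg, ind_true (by tauto), ind_false (by tauto)]
              norm_num
          · rw [ind_true hCu, ind_false hCv]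
            by_cases hg : G.Adj u v
            · rw [ind_true hg, ind_false (by tauto), ind_true (by tauto)]
              norm_num
            · rw [ind_false hg, ind_false (by tauto), ind_false (by tauto)]
              norm_num
        · by_cases hCv : C v
          · rw [ind_false hCu, ind_true hCv]
            by_cases hg : G.Adj u v
            · rw [ind_true hg, ind_false (by tauto), ind_true (by tauto)]
              norm_num
            · rw [ind_false hg, ind_false (by tauto), ind_false (by tauto)]
              norm_num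
          · rw [ind_false hCu, ind_false hCv]
            by_cases hg : G.Adj u v
            · simp [ind, hg, hCu, hCv]
            · simp [ind, hg, hCu, hCv]

theorem sum_ind {p : V → Prop} {T : Finset V} (h : ∀ v, v ∈ T ↔ p v) :
    ∑ v, ind (p v) = T.card := by
  classical
  unfold ind
  rw [Finset.sum_boole]
  congr 2
  ext v
  simp [h]

theorem sum_ind_mul {p : V → Prop} {T : Finset V} (h : ∀ v, v ∈ T ↔ p v) (f : V → ℤ) :
    ∑ v, ind (p v) * f v = ∑ v ∈ T, f v := by
  classical
  have : T = univ.filter p := by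
    ext v
    simp [h]
  rw [this, Finset.sum_filter]
  refine Finset.sum_congr rfl fun v _ => ?_
  unfold ind
  split_ifs <;> simp

theorem cost_formula (hC : ∀ v, C v → ¬ X v) :
    (dst G (tgtG G X R C hR) : ℤ) =
      (∑ v, ind (C v)) * (∑ v, ind (C v)) - (∑ v, ind (C v)) +
        2 * (∑ v, ind (C v)) * (∑ v, ind (X v)) - 2 * (∑ v, ind (C v) * omz G X v) +
        dst G (tgtG G X R (fun _ => False) hR) := by
  classical
  rw [dst_cast, dst_cast]
  simp only [tgtG_adj]
  have h0 : ∀ u v, ind (¬ (G.Adj u v ↔ tgt G X R C u v)) = _ := fun u v => point_formula hC u v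
  simp only [h0, Finset.sum_sub_distrib, Finset.sum_add_distrib]
  have h1 : ∑ u, ∑ v, ind (C u) * ind (C v) = (∑ v, ind (C v)) * (∑ v, ind (C v)) :=
    (Finset.sum_mul_sum _ _ _ _).symm
  have h2 : ∑ u, ∑ v, ind (X u) * ind (C v) = (∑ v, ind (X v)) * (∑ v, ind (C v)) :=
    (Finset.sum_mul_sum _ _ _ _).symm
  have h3 : ∑ u, ∑ v, ind (C u) * ind (X v) = (∑ v, ind (C v)) * (∑ v, ind (X v)) :=
    (Finset.sum_mul_sum _ _ _ _).symm
  have h4 : ∑ u, ∑ v, ind (C u) * (ind (G.Adj u v) * (1 + ind (X v))) =
      ∑ v, ind (C v) * omz G X v := by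
    refine Finset.sum_congr rfl fun u _ => ?_
    unfold omz
    rw [Finset.mul_sum]
  have h5 : ∑ u, ∑ v, ind (C v) * (ind (G.Adj v u) * (1 + ind (X u))) =
      ∑ v, ind (C v) * omz G X v := by
    rw [Finset.sum_comm]
    exact h4
  have h6 : ∑ u, ∑ v : V, ind (u = v) * ind (C u) = ∑ v, ind (C v) := by
    refine Finset.sum_congr rfl fun u _ => ?_
    unfold ind
    simp
  rw [h1, h2, h3, h4, h5, h6]
  ring

end

section

variable {n : ℕ} {G : SimpleGraph (Fin n)} {X : Fin n → Prop} {R : Fin n → Fin n → Prop}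
  {C : Fin n → Prop} {hR : ∀ u v, R u v → R v u}

open Classical in
/-- the degree plus the number of neighbours in `X` -/
noncomputable def omn (G : SimpleGraph (Fin n)) (X : Fin n → Prop) (u : Fin n) : ℕ :=
  ∑ v, (if G.Adj u v then (if X v then 2 else 1) else 0)

theorem omn_cast (u : Fin n) : (omn G X u : ℤ) = omz G X u := by
  classical
  unfold omn omz
  push_cast
  refine Finset.sum_congr rfl fun v _ => ?_
  unfold ind
  split_ifs <;> norm_num

/-- the key of a vertex -/
noncomputable def kap (G : SimpleGraph (Fin n)) (X : Fin n → Prop) (u : Fin n) : ℕ :=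
  omn G X u * (n * n + 1) + u.1

theorem kap_inj {u v : Fin n} (h : kap G X u = kap G X v) : u = v := by
  unfold kap at h
  have h1 : u.1 < n * n + 1 := by nlinarith [u.2]
  have h2 : v.1 < n * n + 1 := by nlinarith [v.2]
  have h3 : u.1 = v.1 := by
    have e1 : (omn G X u * (n * n + 1) + u.1) % (n * n + 1) = u.1 := by
      rw [Nat.add_comm, Nat.add_mul_mod_self_right, Nat.mod_eq_of_lt h1]
    have e2 : (omn G X v * (n * n + 1) + v.1) % (n * n + 1) = v.1 := by
      rw [Nat.add_comm, Nat.add_mul_mod_self_right, Nat.mod_eq_of_lt h2]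
    rw [← e1, ← e2, h]
  exact Fin.ext h3

theorem exists_thr (hC : ∀ v, C v → ¬ X v) : ∃ θ : ℕ, (θ = 0 ∨ ∃ w, θ = kap G X w + 1) ∧
    dst G (tgtG G X R (fun v => ¬ X v ∧ θ ≤ kap G X v) hR) ≤ dst G (tgtG G X R C hR) := by
  classical
  let S : Finset (Fin n) := univ.filter C
  let V' : Finset (Fin n) := univ.filter (fun v => ¬ X v)
  have hS : S ∈ V'.powersetCard S.card := by
    rw [Finset.mem_powersetCard]
    refine ⟨?_, rfl⟩
    intro v hv
    rw [Finset.mem_filter] at hv ⊢
    exact ⟨hv.1, hC v hv.2⟩
  obtain ⟨T, hT, hmax⟩ := (V'.powersetCard S.card).exists_max_image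
    (fun T => ∑ v ∈ T, kap G X v) ⟨S, hS⟩
  rw [Finset.mem_powersetCard] at hT
  obtain ⟨hTV, hTc⟩ := hT
  have hST := hmax S hS
  have hup : ∀ u ∈ T, ∀ v ∈ V', v ∉ T → kap G X v < kap G X u := by
    intro u hu v hv hvT
    by_contra hcon
    push Not at hcon
    have hne : u ≠ v := by
      rintro rfl
      exact hvT hu
    have hlt : kap G X u < kap G X v := lt_of_le_of_ne hcon (fun h => hne (kap_inj h))
    have hve : v ∉ T.erase u := fun h => hvT (Finset.mem_of_mem_erase h)
    have h1 : insert v (T.erase u) ∈ V'.powersetCard S.card := by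
      rw [Finset.mem_powersetCard]
      constructor
      · intro w hw
        rw [Finset.mem_insert] at hw
        rcases hw with rfl | hw
        · exact hv
        · exact hTV (Finset.mem_of_mem_erase hw)
      · rw [Finset.card_insert_of_notMem hve, Finset.card_erase_of_mem hu, ← hTc]
        have := Finset.card_pos.2 ⟨u, hu⟩
        omega
    have h2 := hmax _ h1
    rw [Finset.sum_insert hve] at h2
    have h3 := Finset.add_sum_erase T (kap G X) hu
    omega
  -- the threshold
  obtain ⟨θ, hθ, hTθ⟩ : ∃ θ : ℕ, (θ = 0 ∨ ∃ w, θ = kap G X w + 1) ∧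
      ∀ v, v ∈ T ↔ (¬ X v ∧ θ ≤ kap G X v) := by
    by_cases hsub : V' ⊆ T
    · refine ⟨0, Or.inl rfl, ?_⟩
      intro v
      constructor
      · intro hv
        exact ⟨(Finset.mem_filter.1 (hTV hv)).2, Nat.zero_le _⟩
      · rintro ⟨hv, -⟩
        exact hsub (Finset.mem_filter.2 ⟨Finset.mem_univ _, hv⟩)
    · have hne : (V' \ T).Nonempty := by
        rw [Finset.sdiff_nonempty]
        exact hsub
      obtain ⟨w, hw, hwmax⟩ := (V' \ T).exists_max_image (kap G X) hne
      rw [Finset.mem_sdiff] at hw
      refine ⟨kap G X w + 1, Or.inr ⟨w, rfl⟩, ?_⟩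
      intro v
      constructor
      · intro hv
        exact ⟨(Finset.mem_filter.1 (hTV hv)).2, hup v hv w hw.1 hw.2⟩
      · rintro ⟨hv, hv2⟩
        by_contra hvT
        have := hwmax v (Finset.mem_sdiff.2 ⟨Finset.mem_filter.2 ⟨Finset.mem_univ _, hv⟩, hvT⟩)
        omega
  refine ⟨θ, hθ, ?_⟩
  have hCT : ∀ v, (¬ X v ∧ θ ≤ kap G X v) → ¬ X v := fun v h => h.1
  have f1 := cost_formula (G := G) (X := X) (R := R) (hR := hR) hC
  have f2 := cost_formula (G := G) (X := X) (R := R) (hR := hR) hCT
  have hSC : ∀ v, v ∈ S ↔ C v := fun v => by simp [S]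
  have g1 : ∑ v, ind (C v) = S.card := sum_ind hSC
  have g2 : ∑ v, ind (¬ X v ∧ θ ≤ kap G X v) = S.card := by
    rw [← hTc]
    exact sum_ind hTθ
  have g3 : ∑ v, ind (C v) * omz G X v = ((∑ v ∈ S, omn G X v : ℕ) : ℤ) := by
    rw [sum_ind_mul hSC]
    push_cast
    exact Finset.sum_congr rfl fun v _ => (omn_cast v).symm
  have g4 : ∑ v, ind (¬ X v ∧ θ ≤ kap G X v) * omz G X v = ((∑ v ∈ T, omn G X v : ℕ) : ℤ) := by
    rw [sum_ind_mul hTθ]
    push_cast
    exact Finset.sum_congr rfl fun v _ => (omn_cast v).symm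
  have g5 : ∑ v ∈ S, omn G X v ≤ ∑ v ∈ T, omn G X v := by
    have hk : ∀ U : Finset (Fin n), ∑ v ∈ U, kap G X v =
        (∑ v ∈ U, omn G X v) * (n * n + 1) + ∑ v ∈ U, v.1 := by
      intro U
      unfold kap
      rw [Finset.sum_add_distrib, Finset.sum_mul]
    have hb : ∑ v ∈ T, v.1 ≤ n * n := by
      calc ∑ v ∈ T, v.1 ≤ T.card • n := Finset.sum_le_card_nsmul _ _ _ (fun v _ => v.2.le)
        _ ≤ n • n := by
          refine Nat.mul_le_mul_right _ ?_
          exact (Finset.card_le_univ T).trans (by simp)
        _ = n * n := rfl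
    rw [hk, hk] at hST
    by_contra hcon
    push Not at hcon
    have h1 : (∑ v ∈ T, omn G X v + 1) * (n * n + 1) ≤ (∑ v ∈ S, omn G X v) * (n * n + 1) :=
      Nat.mul_le_mul_right _ hcon
    have h2 : (∑ v ∈ T, omn G X v + 1) * (n * n + 1) =
      (∑ v ∈ T, omn G X v) * (n * n + 1) + (n * n + 1) := by ring
    omega
  have g5' : ((∑ v ∈ S, omn G X v : ℕ) : ℤ) ≤ ((∑ v ∈ T, omn G X v : ℕ) : ℤ) := by
    exact_mod_cast g5
  rw [g1, g3] at f1
  rw [g2, g4] at f2
  have : (dst G (tgtG G X R (fun v => ¬ X v ∧ θ ≤ kap G X v) hR) : ℤ) ≤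
      (dst G (tgtG G X R C hR) : ℤ) := by
    rw [f1, f2]
    linarith
  exact_mod_cast this

end

end Pool.Agent.H670R4
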