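import Pool.Agent.H670R4.Core

/-!
# The graph of a system of triples
-/

set_option autoImplicit false

namespace Pool.Agent.H670R4

open Pool.Agent.H670R4.Core

theorem fxU_not_dlU {X : Type} {s t : Core X} (h : fxU s t) : ¬ dlU s t ∧ ¬ dlU t s := by
  cases s <;> cases t <;> simp_all [fxU, dlU]

theorem card_union6 {γ : Type} [DecidableEq γ] (A B C D E F : Finset γ) :
    (A ∪ (B ∪ (C ∪ (D ∪ (E ∪ F))))).card ≤
      A.card + (B.card + (C.card + (D.card + (E.card + F.card)))) := by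
  have u1 := Finset.card_union_le A (B ∪ (C ∪ (D ∪ (E ∪ F))))
  have u2 := Finset.card_union_le B (C ∪ (D ∪ (E ∪ F)))
  have u3 := Finset.card_union_le C (D ∪ (E ∪ F))
  have u4 := Finset.card_union_le D (E ∪ F)
  have u5 := Finset.card_union_le E F
  omega

/-- the root edge -/
def rootE {X : Type} (r : X) (s t : Core X) : Prop := (s = P r ∧ t = Q r) ∨ (s = Q r ∧ t = P r)

/-- the variable of the source of a deletable edge -/
def vof {X : Type} (S : NS X) : Core X → X
  | P x => x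
  | Q x => x
  | U x _ _ => x
  | V x _ _ => x
  | C j i => S.vr j i
  | D x _ => x

namespace NS

variable {X : Type} (S : NS X)

/-- the core graph without the root edge -/
def R0 : SimpleGraph (Core X) where
  Adj s t := S.G.Adj s t ∧ ¬ rootE S.r s t
  symm := ⟨fun s t h => ⟨h.1.symm, fun h' => h.2 (by unfold rootE at *; tauto)⟩⟩
  loopless := ⟨fun s h => S.G.loopless.irrefl s h.1⟩

/-- the base graph -/
def B : SimpleGraph (HL (Core X)) := hp S.dl S.R0

/-- the vertices of the base graph -/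
def supB : HL (Core X) → Prop
  | Sum.inl a => S.sup a
  | Sum.inr (s, t) => S.dl s t

/-- the pairs which may be changed -/
def Al : HL (Core X) → HL (Core X) → Prop
  | Sum.inl a, Sum.inl b => (S.dl a b ∨ S.dl b a) ∧ ¬ rootE S.r a b
  | _, _ => False

/-- the pairs which must not be changed -/
def Fx (a b : HL (Core X)) : Prop := S.supB a ∧ S.supB b ∧ a ≠ b ∧ ¬ S.Al a b

/-- the final graph -/
def final (K : ℕ) : SimpleGraph (FL (HL (Core X))) := plus S.B S.B S.Fx K

/-! ### From edits to solutions -/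

section No

variable {K : ℕ} {G' : SimpleGraph (FL (HL (Core X)))} (hG' : C4Free G')
  (hn : Near (S.final K) G' K)

/-- the remaining edges -/
abbrev rem (G' : SimpleGraph (FL (HL (Core X)))) (a b : Core X) : Prop :=
  G'.Adj (Sum.inl (Sum.inl a)) (Sum.inl (Sum.inl b))

include hG' hn

theorem fx_iff {u v : HL (Core X)} (h : S.Fx u v) :
    S.B.Adj u v ↔ G'.Adj (Sum.inl u) (Sum.inl v) :=
  plus_fixed (fun _ _ h => h.2.2.1) hG' hn h

theorem rule {s t w : Core X} (hst : S.dl s t) (hw : S.sup w) (hs : rem G' s w)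
    (ht : rem G' t w) : rem G' s t := by
  have hws : w ≠ s := fun e => G'.loopless.irrefl _ (by rw [e] at hs; exact hs)
  have hwt : w ≠ t := fun e => G'.loopless.irrefl _ (by rw [e] at ht; exact ht)
  have hB : ∀ a, S.sup a → (S.B.Adj (Sum.inl a) (Sum.inr (s, t)) ↔
      G'.Adj (Sum.inl (Sum.inl a)) (Sum.inl (Sum.inr (s, t)))) := fun a ha =>
    S.fx_iff hG' hn ⟨ha, hst, by simp, fun h => h⟩
  have h1 := (hB s hst.1).1 ⟨hst, Or.inl rfl⟩
  have h2 := (hB t hst.2.1).1 ⟨hst, Or.inr rfl⟩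
  rcases hG' _ _ _ _ hs ht.symm h2 h1.symm (fun e => by
    have := (S.dl_adj hst).ne
    simp only [Sum.inl.injEq] at e
    exact this e) (by simp) with h | h
  · exact h
  · exfalso
    have h3 := (hB w hw).2 h
    rcases h3.2 with h3 | h3
    · exact hws h3
    · exact hwt h3

theorem fixed_edge {s t : Core X} (hs : S.sup s) (ht : S.sup t) (h : fxU s t) : rem G' s t := by
  have h1 := fxU_not_dlU h
  have hne : s ≠ t := fun e => fxU_irrefl t (by rw [e] at h; exact h)
  have hAdj : S.G.Adj s t := ⟨hs, ht, Or.inr (Or.inr (Or.inl h))⟩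
  refine (S.fx_iff hG' hn (u := Sum.inl s) (v := Sum.inl t) ⟨hs, ht, by simpa using hne, ?_⟩).1 ?_
  · rintro ⟨h2 | h2, -⟩
    · exact h1.1 h2.2.2
    · exact h1.2 h2.2.2
  · refine ⟨hAdj, ?_⟩
    rintro (⟨rfl, rfl⟩ | ⟨rfl, rfl⟩)
    · exact h1.1 rfl
    · exact h1.2 rfl

theorem root_rem : ¬ rem G' (P S.r) (Q S.r) := by
  intro h
  have hr := S.hr
  have h1 := (S.fx_iff hG' hn (u := Sum.inl (P S.r)) (v := Sum.inl (Q S.r))
    ⟨hr, hr, by simp, fun h => h.2 (Or.inl ⟨rfl, rfl⟩)⟩).2 h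
  exact h1.2 (Or.inl ⟨rfl, rfl⟩)

theorem chain {j : X} (hj : j ∈ S.js) (i : Fin 3) :
    rem G' (P (S.vr j i)) (Q (S.vr j i)) ↔ rem G' (C j i) (C j (i + 1)) := by
  set x := S.vr j i with hx
  have hxv : x ∈ S.vars := S.hvr j hj i
  have sP : S.sup (P x) := hxv
  have sQ : S.sup (Q x) := hxv
  have sU : S.sup (U x j i) := ⟨hj, hx⟩
  have sV : S.sup (V x j i) := ⟨hj, hx⟩
  have sC : S.sup (C j i) := hj
  have sC' : S.sup (C j (i + 1)) := hj
  have fPU := S.fixed_edge hG' hn sP sU rfl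
  have fQV := S.fixed_edge hG' hn sQ sV rfl
  have fUC := S.fixed_edge hG' hn sU sC ⟨rfl, rfl⟩
  have fVC := S.fixed_edge hG' hn sV sC' ⟨rfl, rfl⟩
  have dPQ : S.dl (P x) (Q x) := ⟨sP, sQ, rfl⟩
  have dQU : S.dl (Q x) (U x j i) := ⟨sQ, sU, rfl⟩
  have dUV : S.dl (U x j i) (V x j i) := ⟨sU, sV, rfl, rfl, rfl⟩
  have dVC : S.dl (V x j i) (C j i) := ⟨sV, sC, rfl, rfl⟩
  have dCC : S.dl (C j i) (C j (i + 1)) := ⟨sC, sC', rfl, rfl⟩
  have e1 : rem G' (P x) (Q x) ↔ rem G' (Q x) (U x j i) :=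
    ⟨fun h => S.rule hG' hn dQU sP h.symm fPU.symm, fun h => S.rule hG' hn dPQ sU fPU h⟩
  have e2 : rem G' (Q x) (U x j i) ↔ rem G' (U x j i) (V x j i) :=
    ⟨fun h => S.rule hG' hn dUV sQ h.symm fQV.symm, fun h => S.rule hG' hn dQU sV fQV h⟩
  have e3 : rem G' (U x j i) (V x j i) ↔ rem G' (V x j i) (C j i) :=
    ⟨fun h => S.rule hG' hn dVC sU h.symm fUC.symm, fun h => S.rule hG' hn dUV sC fUC h⟩
  have e4 : rem G' (V x j i) (C j i) ↔ rem G' (C j i) (C j (i + 1)) :=
    ⟨fun h => S.rule hG' hn dCC sV h.symm fVC.symm, fun h => S.rule hG' hn dVC sC' fVC h⟩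
  rw [e1, e2, e3, e4]

theorem triple {j : X} (hj : j ∈ S.js) (i : Fin 3)
    (h : ¬ rem G' (P (S.vr j i)) (Q (S.vr j i))) :
    ¬ rem G' (P (S.vr j (i + 1))) (Q (S.vr j (i + 1))) ∨
      ¬ rem G' (P (S.vr j (i + 1 + 1))) (Q (S.vr j (i + 1 + 1))) := by
  by_contra hcon
  push Not at hcon
  obtain ⟨h1, h2⟩ := hcon
  rw [S.chain hG' hn hj] at h1 h2 h
  rw [(fin3_add_ne i).2.2] at h2
  exact h (S.rule hG' hn (w := C j (i + 1 + 1)) ⟨hj, hj, rfl, rfl⟩ hj h2.symm h1)

open Classical in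
/-- from an edit set to a solution of the system -/
theorem no (hrh : S.hv S.r = false) : ∃ T : Finset X, S.r ∈ T ∧ (∀ x ∈ T, x ∈ S.vars) ∧
    (∀ j ∈ S.js, ∀ i, S.vr j i ∈ T → S.vr j (i + 1) ∈ T ∨ S.vr j (i + 1 + 1) ∈ T) ∧
    (T.filter (fun x => S.hv x = true)).card * (S.w + 1) ≤ K := by
  let T : Finset X := S.vars.toFinset.filter (fun x => ¬ rem G' (P x) (Q x))
  have hT : ∀ x, x ∈ T ↔ x ∈ S.vars ∧ ¬ rem G' (P x) (Q x) := by
    intro x
    simp [T]
  refine ⟨T, (hT _).2 ⟨S.hr, S.root_rem hG' hn⟩, fun x hx => ((hT x).1 hx).1, ?_, ?_⟩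
  · intro j hj i hx
    rw [hT] at hx
    rcases S.triple hG' hn hj i hx.2 with h | h
    · exact Or.inl ((hT _).2 ⟨S.hvr j hj _, h⟩)
    · exact Or.inr ((hT _).2 ⟨S.hvr j hj _, h⟩)
  · have hn' := hn
    obtain ⟨F, hF, h⟩ := hn'
    refine le_trans ?_ hF
    rw [← Finset.card_range (S.w + 1), ← Finset.card_product]
    let f : X × ℕ → Sym2 (FL (HL (Core X))) := fun p =>
      if p.2 < S.w then s(Sum.inl (Sum.inl (Q p.1)), Sum.inl (Sum.inl (D p.1 p.2)))
      else s(Sum.inl (Sum.inl (P p.1)), Sum.inl (Sum.inl (Q p.1)))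
    refine Finset.card_le_card_of_injOn f ?_ ?_
    · rintro ⟨x, l⟩ hp
      simp only [Finset.coe_product, Finset.coe_filter, Finset.coe_range, Set.mem_prod,
        Set.mem_setOf_eq, Set.mem_Iio, hT] at hp
      obtain ⟨⟨⟨hx1, hx2⟩, hx3⟩, hl⟩ := hp
      have hxr : x ≠ S.r := by
        rintro rfl
        rw [hrh] at hx3
        exact absurd hx3 (by simp)
      have sP : S.sup (P x) := hx1
      have sQ : S.sup (Q x) := hx1
      simp only [f]
      split_ifs with hlw
      · have sD : S.sup (D x l) := ⟨hx1, hx3, hlw⟩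
        have fPD := S.fixed_edge hG' hn sP sD rfl
        refine h _ _ ?_
        intro hiff
        have hB : (S.final K).Adj (Sum.inl (Sum.inl (Q x))) (Sum.inl (Sum.inl (D x l))) := by
          refine ⟨⟨sQ, sD, Or.inl rfl⟩, ?_⟩
          rintro (⟨h1, h2⟩ | ⟨h1, h2⟩)
          · exact absurd h1 (by simp)
          · exact absurd h2 (by simp)
        have hrem := hiff.1 hB
        exact hx2 (S.rule hG' hn (w := D x l) ⟨sP, sQ, rfl⟩ sD fPD hrem)
      · refine h _ _ ?_
        intro hiff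
        have hB : (S.final K).Adj (Sum.inl (Sum.inl (P x))) (Sum.inl (Sum.inl (Q x))) := by
          refine ⟨⟨sP, sQ, Or.inl rfl⟩, ?_⟩
          rintro (⟨h1, h2⟩ | ⟨h1, h2⟩)
          · simp only [P.injEq] at h1
            exact hxr h1
          · exact absurd h1 (by simp)
        exact hx2 (hiff.1 hB)
    · rintro ⟨x, l⟩ hp ⟨y, l'⟩ hq hxy
      simp only [Finset.coe_product, Finset.coe_range, Set.mem_prod, Set.mem_Iio] at hp hq
      simp only [f] at hxy
      split_ifs at hxy with h1 h2 h2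
      · simp only [Sym2.eq_iff, Sum.inl.injEq, Q.injEq, D.injEq, reduceCtorEq, false_and,
          or_false] at hxy
        simp [hxy.2.1, hxy.2.2]
      · simp at hxy
      · simp at hxy
      · simp only [Sym2.eq_iff, Sum.inl.injEq, Q.injEq, P.injEq, reduceCtorEq, false_and,
          or_false] at hxy
        have e1 : l = l' := by omega
        simp [hxy.1, e1]

end No

/-! ### From solutions to edits -/

section Yes

variable (T : Finset X)

/-- the deleted edges of the core -/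
def delE (s t : Core X) : Prop := S.dl s t ∧ vof S s ∈ T

/-- the core after the deletion -/
def R : SimpleGraph (Core X) where
  Adj s t := S.G.Adj s t ∧ ¬ S.delE T s t ∧ ¬ S.delE T t s
  symm := ⟨fun s t h => ⟨h.1.symm, h.2.2, h.2.1⟩⟩
  loopless := ⟨fun s h => S.G.loopless.irrefl s h.1⟩

variable {T}

theorem tri' (hN : ∀ j ∈ S.js, ∀ i, S.vr j i ∈ T → S.vr j (i + 1) ∈ T ∨ S.vr j (i + 1 + 1) ∈ T)
    {a b c : Core X} (hd : S.delE T a b) (hac : (S.R T).Adj a c) (hbc : (S.R T).Adj b c) :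
    False := by
  obtain ⟨⟨sa, sb, hab⟩, hT⟩ := hd
  rcases a with x | x | ⟨x, j, i⟩ | ⟨x, j, i⟩ | ⟨j, i⟩ | ⟨x, l⟩ <;>
    rcases b with y | y | ⟨y, j', i'⟩ | ⟨y, j', i'⟩ | ⟨j', i'⟩ | ⟨y, l'⟩ <;>
    simp only [dlU] at hab
  · -- P, Q
    subst hab
    have hc := hbc.1.2.1
    have h1 := hac.1.2.2
    have h2 := hbc.2.1
    cases c <;> simp only [dlU, fxU, or_false, false_or] at h1
    · exact hbc.1.ne (by rw [h1])
    · subst h1
      exact h2 ⟨⟨sb, hc, rfl⟩, hT⟩
    · subst h1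
      exact h2 ⟨⟨sb, hc, rfl⟩, hT⟩
  · -- Q, U
    subst hab
    rcases S.adjU hbc.1 with rfl | rfl | rfl | rfl
    · exact hac.2.2 ⟨⟨hac.1.2.1, sa, rfl⟩, hT⟩
    · exact hac.1.ne rfl
    · exact hbc.2.1 ⟨⟨sb, hbc.1.2.1, rfl, rfl, rfl⟩, hT⟩
    · have := hac.1.2.2
      simp [dlU, fxU] at this
  · -- Q, D
    subst hab
    rcases S.adjD hbc.1 with rfl | rfl
    · exact hac.2.2 ⟨⟨hac.1.2.1, sa, rfl⟩, hT⟩
    · exact hac.1.ne rfl
  · -- U, V
    obtain ⟨rfl, rfl, rfl⟩ := hab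
    rcases S.adjU hac.1 with rfl | rfl | rfl | rfl
    · have := hbc.1.2.2
      simp [dlU, fxU] at this
    · exact hac.2.2 ⟨⟨hac.1.2.1, sa, rfl⟩, hT⟩
    · exact hbc.1.ne rfl
    · exact hbc.2.1 ⟨⟨sb, hbc.1.2.1, rfl, rfl⟩, hT⟩
  · -- V, C
    obtain ⟨rfl, rfl⟩ := hab
    rcases S.adjV hac.1 with rfl | rfl | rfl | rfl
    · have := hbc.1.2.2
      simp [dlU, fxU] at this
    · exact hac.2.2 ⟨⟨hac.1.2.1, sa, rfl, rfl, rfl⟩, hT⟩
    · exact hbc.1.ne rfl
    · have hx : x = S.vr j i' := sa.2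
      refine hbc.2.1 ⟨⟨sb, hbc.1.2.1, rfl, rfl⟩, ?_⟩
      change S.vr j i' ∈ T
      rw [← hx]
      exact hT
  · -- C, C
    obtain ⟨rfl, rfl⟩ := hab
    rcases S.adjC hac.1 with ⟨i', rfl, hi⟩ | rfl | rfl | rfl
    · rcases NS.fin3_cases hi with rfl | rfl
      · exact hbc.1.ne rfl
      · rcases hN j sa i hT with h | h
        · exact hbc.2.1 ⟨⟨sb, hbc.1.2.1, rfl, rfl⟩, h⟩
        · refine hac.2.2 ⟨⟨hac.1.2.1, sa, rfl, ?_⟩, h⟩
          rw [(fin3_add_ne i).2.2]
    · have h1 := hbc.1.2.2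
      simp only [dlU, fxU, or_false, false_or] at h1
      have h2 := (fin3_add_ne i).1
      exact h2 h1.2.symm
    · exact hac.2.2 ⟨⟨hac.1.2.1, sa, rfl, rfl⟩, hT⟩
    · have h1 := hbc.1.2.2
      simp only [dlU, fxU, or_false, false_or, true_and] at h1
      rw [(fin3_add_ne i).2.2] at h1
      rcases h1 with h1 | h1
      · exact (fin3_add_ne (i + 1)).1 h1
      · exact (fin3_add_ne i).1 h1.symm

theorem tri (hN : ∀ j ∈ S.js, ∀ i, S.vr j i ∈ T → S.vr j (i + 1) ∈ T ∨ S.vr j (i + 1 + 1) ∈ T)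
    (a b c : Core X) (hab : S.G.Adj a b) (hnab : ¬ (S.R T).Adj a b) (hac : (S.R T).Adj a c)
    (hbc : (S.R T).Adj b c) : False := by
  by_cases h1 : S.delE T a b
  · exact S.tri' hN h1 hac hbc
  · by_cases h2 : S.delE T b a
    · exact S.tri' hN h2 hbc hac
    · exact hnab ⟨hab, h1, h2⟩

open Classical in
/-- from a solution of the system to an edit set, which only deletes edges -/
theorem yes (hr : S.r ∈ T)
    (hN : ∀ j ∈ S.js, ∀ i, S.vr j i ∈ T → S.vr j (i + 1) ∈ T ∨ S.vr j (i + 1 + 1) ∈ T) {K : ℕ}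
    (hK : T.card + (T.filter (fun x => S.hv x = true)).card * S.w +
      4 * ((S.js.toFinset ×ˢ (Finset.univ : Finset (Fin 3))).filter
        (fun p => S.vr p.1 p.2 ∈ T)).card ≤ K) :
    ∃ G' : SimpleGraph (FL (HL (Core X))), C4Free G' ∧ Near (S.final K) G' K ∧
      G' ≤ S.final K := by
  have hRle : S.R T ≤ S.R0 := by
    intro s t h
    refine ⟨h.1, ?_⟩
    rintro (⟨rfl, rfl⟩ | ⟨rfl, rfl⟩)
    · exact h.2.1 ⟨⟨S.hr, S.hr, rfl⟩, hr⟩
    · exact h.2.2 ⟨⟨S.hr, S.hr, rfl⟩, hr⟩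
  have hB' : C4Free (hp S.dl (S.R T)) :=
    hp_c4free S.c4free (fun _ _ h => h.1) S.dl_asymm (fun _ _ h => S.dl_adj h) (S.tri hN)
  have hdiff : ∀ u v, ¬ (S.B.Adj u v ↔ (hp S.dl (S.R T)).Adj u v) →
      ∃ a b, u = Sum.inl a ∧ v = Sum.inl b ∧ (S.delE T a b ∨ S.delE T b a) ∧
        ¬ rootE S.r a b := by
    rintro (a | ⟨s, t⟩) (b | ⟨s', t'⟩) h
    · refine ⟨a, b, rfl, rfl, ?_⟩
      have h1 : S.R0.Adj a b := by
        by_contra hc
        exact h ⟨fun h' => absurd h' hc, fun h' => absurd (hRle h') hc⟩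
      have h2 : ¬ (S.R T).Adj a b := fun hc => h ⟨fun _ => hc, fun _ => h1⟩
      refine ⟨?_, h1.2⟩
      by_contra hc
      push Not at hc
      exact h2 ⟨h1.1, hc.1, hc.2⟩
    · exact absurd Iff.rfl h
    · exact absurd Iff.rfl h
    · exact absurd Iff.rfl h
  refine ⟨plus S.B (hp S.dl (S.R T)) S.Fx K, plus_c4free ?_ hB', plus_near ?_, ?_⟩
  · intro u v hfx
    by_contra hc
    obtain ⟨a, b, rfl, rfl, h1, h2⟩ := hdiff u v hc
    refine hfx.2.2.2 ⟨?_, h2⟩
    rcases h1 with h1 | h1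
    · exact Or.inl h1.1
    · exact Or.inr h1.1
  · let O := (S.js.toFinset ×ˢ (Finset.univ : Finset (Fin 3))).filter
        (fun p => S.vr p.1 p.2 ∈ T)
    let F : Finset (Sym2 (HL (Core X))) :=
      T.image (fun x => s(Sum.inl (P x), Sum.inl (Q x))) ∪
      (((T.filter (fun x => S.hv x = true)) ×ˢ Finset.range S.w).image
        (fun p => s(Sum.inl (Q p.1), Sum.inl (D p.1 p.2))) ∪
      (O.image (fun p => s(Sum.inl (Q (S.vr p.1 p.2)), Sum.inl (U (S.vr p.1 p.2) p.1 p.2))) ∪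
      (O.image (fun p => s(Sum.inl (U (S.vr p.1 p.2) p.1 p.2),
        Sum.inl (V (S.vr p.1 p.2) p.1 p.2))) ∪
      (O.image (fun p => s(Sum.inl (V (S.vr p.1 p.2) p.1 p.2), Sum.inl (C p.1 p.2))) ∪
      O.image (fun p => s(Sum.inl (C p.1 p.2), Sum.inl (C p.1 (p.2 + 1))))))))
    refine ⟨F, ?_, ?_⟩
    · refine le_trans (card_union6 _ _ _ _ _ _) ?_
      have c0 := Finset.card_image_le (s := T)
        (f := fun x => (s(Sum.inl (P x), Sum.inl (Q x)) : Sym2 (HL (Core X))))
      have c1 := Finset.card_image_le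
        (s := (T.filter (fun x => S.hv x = true)) ×ˢ Finset.range S.w)
        (f := fun p => (s(Sum.inl (Q p.1), Sum.inl (D p.1 p.2)) : Sym2 (HL (Core X))))
      rw [Finset.card_product, Finset.card_range] at c1
      have c2 := Finset.card_image_le (s := O) (f := fun p =>
        (s(Sum.inl (Q (S.vr p.1 p.2)), Sum.inl (U (S.vr p.1 p.2) p.1 p.2)) :
          Sym2 (HL (Core X))))
      have c3 := Finset.card_image_le (s := O) (f := fun p =>
        (s(Sum.inl (U (S.vr p.1 p.2) p.1 p.2), Sum.inl (V (S.vr p.1 p.2) p.1 p.2)) :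
          Sym2 (HL (Core X))))
      have c4 := Finset.card_image_le (s := O) (f := fun p =>
        (s(Sum.inl (V (S.vr p.1 p.2) p.1 p.2), Sum.inl (C p.1 p.2)) : Sym2 (HL (Core X))))
      have c5 := Finset.card_image_le (s := O) (f := fun p =>
        (s(Sum.inl (C p.1 p.2), Sum.inl (C p.1 (p.2 + 1))) : Sym2 (HL (Core X))))
      have hK' : T.card + (T.filter (fun x => S.hv x = true)).card * S.w + 4 * O.card ≤ K := hK
      omega
    · have hcore : ∀ a b, S.delE T a b → s(Sum.inl a, Sum.inl b) ∈ F := by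
        rintro a b ⟨⟨sa, sb, hab⟩, hT⟩
        simp only [F, Finset.mem_union, Finset.mem_image]
        rcases a with x | x | ⟨x, j, i⟩ | ⟨x, j, i⟩ | ⟨j, i⟩ | ⟨x, l⟩ <;>
          rcases b with y | y | ⟨y, j', i'⟩ | ⟨y, j', i'⟩ | ⟨j', i'⟩ | ⟨y, l'⟩ <;>
          simp only [dlU] at hab
        · subst hab
          exact Or.inl ⟨x, hT, rfl⟩
        · subst hab
          right; right; left
          refine ⟨(j', i'), ?_, ?_⟩
          · simp only [O, Finset.mem_filter, Finset.mem_product, List.mem_toFinset,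
              Finset.mem_univ, and_true]
            exact ⟨sb.1, by rw [← sb.2]; exact hT⟩
          · simp only
            rw [← sb.2]
        · subst hab
          right; left
          refine ⟨(x, l'), ?_, rfl⟩
          simp only [Finset.mem_product, Finset.mem_filter, Finset.mem_range]
          exact ⟨⟨hT, sb.2.1⟩, sb.2.2⟩
        · obtain ⟨rfl, rfl, rfl⟩ := hab
          right; right; right; left
          refine ⟨(j, i), ?_, ?_⟩
          · simp only [O, Finset.mem_filter, Finset.mem_product, List.mem_toFinset,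
              Finset.mem_univ, and_true]
            exact ⟨sb.1, by rw [← sb.2]; exact hT⟩
          · simp only
            rw [← sb.2]
        · obtain ⟨rfl, rfl⟩ := hab
          right; right; right; right; left
          refine ⟨(j, i'), ?_, ?_⟩
          · simp only [O, Finset.mem_filter, Finset.mem_product, List.mem_toFinset,
              Finset.mem_univ, and_true]
            exact ⟨sa.1, by rw [← sa.2]; exact hT⟩
          · simp only
            rw [← sa.2]
        · obtain ⟨rfl, rfl⟩ := hab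
          right; right; right; right; right
          refine ⟨(j, i), ?_, rfl⟩
          simp only [O, Finset.mem_filter, Finset.mem_product, List.mem_toFinset,
              Finset.mem_univ, and_true]
          exact ⟨sa, hT⟩
      intro u v huv
      obtain ⟨a, b, rfl, rfl, h1 | h1, h2⟩ := hdiff u v huv
      · exact hcore a b h1
      · rw [Sym2.eq_swap]
        exact hcore b a h1
  · -- deletions only
    have hle : hp S.dl (S.R T) ≤ S.B := by
      rintro (a | ⟨s, t⟩) (b | ⟨s', t'⟩) h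
      · exact hRle h
      · exact h
      · exact h
      · exact h
    rintro (a | ⟨s, t, l, e⟩) (b | ⟨s', t', l', e'⟩) h
    · exact hle h
    · exact h
    · exact h
    · exact h

end Yes

end NS

end Pool.Agent.H670R4
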