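import Pool.Agent.H670R4.Sys

/-!
# Solutions of the system and satisfying assignments
-/

set_option autoImplicit false

namespace Pool.Agent.H670R4

open Pool.Agent.NPC

theorem sys_no {fs : List Fm} (hg : Good fs) (ht : fs ≠ []) (w K : ℕ)
    (hK : K < (3 * maxL fs + 1) * (w + 1)) (T : Finset Nm) (hr : (0, 0, 1) ∈ T)
    (hN : ∀ j ∈ (sys fs hg w).js, ∀ i, (sys fs hg w).vr j i ∈ T →
      (sys fs hg w).vr j (i + 1) ∈ T ∨ (sys fs hg w).vr j (i + 1 + 1) ∈ T)
    (hc : (T.filter (fun x => heavy x = true)).card * (w + 1) ≤ K) :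
    ∃ φ ∈ fs, SAT3 φ := by
  classical
  have ht' : 0 < fs.length := List.length_pos_iff.2 ht
  -- the triples
  have hN0 : ∀ j ∈ jsL fs, (trip fs j).1 ∈ T → (trip fs j).2.1 ∈ T ∨ (trip fs j).2.2 ∈ T :=
    fun j hj h => hN j hj 0 h
  -- a leaf
  obtain ⟨i, hi, hleaf⟩ : ∃ i < fs.length, (0, 0, fs.length + i) ∈ T := by
    let A : Finset ℕ := (Finset.range (2 * fs.length)).filter
      (fun x => 1 ≤ x ∧ ((0, 0, x) : Nm) ∈ T)
    have hA : A.Nonempty := ⟨1, by
      simp only [A, Finset.mem_filter, Finset.mem_range]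
      exact ⟨by omega, le_rfl, hr⟩⟩
    obtain ⟨x, hx, hmax⟩ := A.exists_max_image id hA
    simp only [A, Finset.mem_filter, Finset.mem_range] at hx
    by_cases hxt : x < fs.length
    · exfalso
      have h1 := hN0 (0, 0, x) (mem_jsL.2 (Or.inl ⟨rfl, rfl, hx.2.1, hxt⟩))
      simp only [trip, if_true] at h1
      have key : ∀ y : ℕ, y < 2 * fs.length → x < y → ((0, 0, y) : Nm) ∈ T → False := by
        intro y hy hxy hyT
        have := hmax y (by
          simp only [A, Finset.mem_filter, Finset.mem_range]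
          exact ⟨hy, by omega, hyT⟩)
        simp only [id] at this
        omega
      rcases h1 hx.2.2 with h | h
      · exact key _ (by omega) (by omega) h
      · exact key _ (by omega) (by omega) h
    · exact ⟨x - fs.length, by omega, by
        have : fs.length + (x - fs.length) = x := by omega
        rw [this]
        exact hx.2.2⟩
  set M := maxL fs with hM
  -- every variable has a true literal
  have hlit : ∀ v < 3 * M, ((1, i, v) : Nm) ∈ T ∨ ((2, i, v) : Nm) ∈ T := by
    intro v hv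
    have h1 := hN0 (1, i, v) (mem_jsL.2 (Or.inr (Or.inl ⟨rfl, hi, hv⟩)))
    simp only [trip, one_ne_zero, if_false, if_true] at h1
    exact h1 hleaf
  have hcard : (T.filter (fun x => heavy x = true)).card ≤ 3 * M := by
    by_contra hcon
    have h1 : (3 * M + 1) * (w + 1) ≤ (T.filter (fun x => heavy x = true)).card * (w + 1) :=
      Nat.mul_le_mul_right _ (by omega)
    omega
  -- and only one
  have hone : ∀ v < 3 * M, ((1, i, v) : Nm) ∈ T → ((2, i, v) : Nm) ∉ T := by
    intro v0 hv0 hp hn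
    have h1 : (Finset.range (3 * M + 1)).card ≤ (T.filter (fun x => heavy x = true)).card := by
      refine Finset.card_le_card_of_injOn (fun v => if v = 3 * M then ((2, i, v0) : Nm) else
        if ((1, i, v) : Nm) ∈ T then (1, i, v) else (2, i, v)) ?_ ?_
      · intro v hv
        rw [Finset.coe_range, Set.mem_Iio] at hv
        simp only [Finset.coe_filter, Set.mem_ofPred_eq]
        split_ifs with h2 h3
        · exact ⟨hn, rfl⟩
        · exact ⟨h3, rfl⟩
        · exact ⟨(hlit v (by omega)).resolve_left h3, rfl⟩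
      · intro v hv v' hv' h
        rw [Finset.coe_range, Set.mem_Iio] at hv hv'
        simp only at h
        split_ifs at h with h2 h3 h4 h5 h6 h7 h8
        · omega
        · simp at h
        · simp only [Prod.mk.injEq, true_and] at h
          subst h
          exact absurd hp h4
        · simp at h
        · simpa using h
        · simp at h
        · simp only [Prod.mk.injEq, true_and] at h
          subst h
          exact absurd hp h5
        · simp at h
        · simpa using h
    rw [Finset.card_range] at h1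
    omega
  have hnum : ∀ l : Lit ℕ, l.2 < 3 * M → ltn i l ∈ T →
      decide (((1, i, l.2) : Nm) ∈ T) = l.1 := by
    rintro ⟨s, v⟩ hv hT
    cases s with
    | true =>
      simp only [ltn, if_true] at hT
      simp [hT]
    | false =>
      simp only [ltn, Bool.false_eq_true, if_false] at hT
      have : ((1, i, v) : Nm) ∉ T := fun h => hone v hv h hT
      simp [this]
  refine ⟨fget fs i, fget_mem hi, fun v => decide (((1, i, v) : Nm) ∈ T), ?_⟩
  intro cl hcl
  obtain ⟨c, hcl1, hcl2⟩ := List.getElem_of_mem hcl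
  have hcc : cget (fget fs i) c = cl := by
    unfold cget
    rw [List.getD_eq_getElem _ _ hcl1, hcl2]
  have h1 := hN0 (2, i, c) (mem_jsL.2 (Or.inr (Or.inr ⟨Or.inl rfl, hi, hcl1⟩)))
  have h2 := hN0 (3, i, c) (mem_jsL.2 (Or.inr (Or.inr ⟨Or.inr rfl, hi, hcl1⟩)))
  simp only [trip, OfNat.ofNat_ne_zero, OfNat.ofNat_ne_one, if_false, if_true,
    show (3 : ℕ) ≠ 2 from by decide, hcc] at h1 h2
  have hb : ∀ l : Lit ℕ, (l = cl.1 ∨ l = cl.2.1 ∨ l = cl.2.2) → l.2 < 3 * M := by
    intro l hl
    rw [← hcc] at hl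
    exact ltn_mem hg hi hcl1 l hl
  rcases h1 hleaf with h | h
  · exact Or.inl (hnum _ (hb _ (Or.inl rfl)) h)
  · rcases h2 h with h | h
    · exact Or.inr (Or.inl (hnum _ (hb _ (Or.inr (Or.inl rfl))) h))
    · exact Or.inr (Or.inr (hnum _ (hb _ (Or.inr (Or.inr rfl))) h))

/-- the ancestors of `n` in the binary tree -/
theorem anc_iff {n x : ℕ} : (∃ e < n.size, n / 2 ^ e = x) ↔ 1 ≤ x ∧ ∃ e, n / 2 ^ e = x := by
  constructor
  · rintro ⟨e, he, rfl⟩
    rw [Nat.lt_size] at he
    exact ⟨Nat.div_pos he (by positivity), e, rfl⟩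
  · rintro ⟨h1, e, rfl⟩
    refine ⟨e, ?_, rfl⟩
    rw [Nat.lt_size]
    by_contra hcon
    rw [Nat.div_eq_of_lt (by omega)] at h1
    omega

open Classical in
theorem sys_yes {fs : List Fm} (hg : Good fs) (w : ℕ) {φ : Fm} (hφ : φ ∈ fs) (hs : SAT3 φ) :
    ∃ T : Finset Nm, (0, 0, 1) ∈ T ∧
      (∀ j ∈ (sys fs hg w).js, ∀ i, (sys fs hg w).vr j i ∈ T →
        (sys fs hg w).vr j (i + 1) ∈ T ∨ (sys fs hg w).vr j (i + 1 + 1) ∈ T) ∧
      T.card + (T.filter (fun x => (sys fs hg w).hv x = true)).card * w +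
        4 * (((sys fs hg w).js.toFinset ×ˢ (Finset.univ : Finset (Fin 3))).filter
          (fun p => (sys fs hg w).vr p.1 p.2 ∈ T)).card ≤
        3 * maxL fs * w + (13 * (2 * fs.length).size + 64 * maxL fs) := by
  obtain ⟨i, hi, hφi⟩ := List.getElem_of_mem hφ
  obtain ⟨τ, hτ⟩ := hs
  have hget : fget fs i = φ := by
    unfold fget
    rw [List.getD_eq_getElem _ _ hi, hφi]
  set M := maxL fs with hM
  have hlen : φ.length ≤ M := le_maxL hφ
  set n := fs.length + i with hn
  -- truth of the second part of a clause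
  let bc : ℕ → Prop := fun c => τ (cget φ c).2.1.2 = (cget φ c).2.1.1 ∨
    τ (cget φ c).2.2.2 = (cget φ c).2.2.1
  let T1 : Finset Nm := (Finset.range n.size).image (fun e => (0, 0, n / 2 ^ e))
  let T2 : Finset Nm := (Finset.range (3 * M)).image (fun v => (if τ v then 1 else 2, i, v))
  let T3 : Finset Nm := ((Finset.range φ.length).filter bc).image (fun c => (3, i, c))
  let T : Finset Nm := T1 ∪ (T2 ∪ T3)
  have hT : ∀ x : Nm, x ∈ T ↔ (x.1 = 0 ∧ x.2.1 = 0 ∧ 1 ≤ x.2.2 ∧ ∃ e, n / 2 ^ e = x.2.2) ∨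
      (x.1 = (if τ x.2.2 then 1 else 2) ∧ x.2.1 = i ∧ x.2.2 < 3 * M) ∨
      (x.1 = 3 ∧ x.2.1 = i ∧ x.2.2 < φ.length ∧ bc x.2.2) := by
    rintro ⟨k, a, b⟩
    simp only [T, T1, T2, T3, Finset.mem_union, Finset.mem_image, Finset.mem_range,
      Finset.mem_filter, Prod.mk.injEq]
    rw [← anc_iff]
    constructor
    · rintro (⟨e, he, rfl, rfl, h⟩ | ⟨v, hv, rfl, rfl, rfl⟩ | ⟨c, hc, rfl, rfl, rfl⟩)
      · exact Or.inl ⟨rfl, rfl, e, he, h⟩
      · exact Or.inr (Or.inl ⟨rfl, rfl, hv⟩)
      · exact Or.inr (Or.inr ⟨rfl, rfl, hc⟩)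
    · rintro (⟨rfl, rfl, e, he, h⟩ | ⟨h1, h2, hv⟩ | ⟨rfl, rfl, hc⟩)
      · exact Or.inl ⟨e, he, rfl, rfl, h⟩
      · exact Or.inr (Or.inl ⟨b, hv, h1.symm, h2.symm, rfl⟩)
      · exact Or.inr (Or.inr ⟨b, hc, rfl, rfl, rfl⟩)
  have hT0 : ∀ x, ((0, 0, x) : Nm) ∈ T ↔ 1 ≤ x ∧ ∃ e, n / 2 ^ e = x := by
    intro x
    rw [hT]
    simp only [true_and]
    constructor
    · rintro (h | ⟨h, -⟩ | ⟨h, -⟩)
      · exact h
      · split_ifs at h <;> omega
      · omega
    · exact Or.inl
  have hT3 : ∀ a c, ((3, a, c) : Nm) ∈ T ↔ a = i ∧ c < φ.length ∧ bc c := by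
    intro a c
    rw [hT]
    simp only [OfNat.ofNat_ne_zero, false_and, false_or, true_and]
    constructor
    · rintro (⟨h, -⟩ | h)
      · split_ifs at h <;> omega
      · exact h
    · exact Or.inr
  have hTl : ∀ a (l : Lit ℕ), ltn a l ∈ T ↔ a = i ∧ l.2 < 3 * M ∧ τ l.2 = l.1 := by
    rintro a ⟨s, v⟩
    rw [hT]
    unfold ltn
    simp only
    constructor
    · rintro (⟨h, -⟩ | ⟨h, h1, h2⟩ | ⟨h, -⟩)
      · split_ifs at h <;> omega
      · refine ⟨h1, h2, ?_⟩
        cases s <;> cases hv : τ v <;> simp_all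
      · split_ifs at h <;> omega
    · rintro ⟨rfl, h2, h3⟩
      refine Or.inr (Or.inl ⟨?_, rfl, h2⟩)
      rw [h3]
  have hT1 : ∀ a v, ((1, a, v) : Nm) ∈ T ↔ a = i ∧ v < 3 * M ∧ τ v = true := fun a v =>
    hTl a (true, v)
  have hT2 : ∀ a v, ((2, a, v) : Nm) ∈ T ↔ a = i ∧ v < 3 * M ∧ τ v = false := fun a v =>
    hTl a (false, v)
  have hleaf : ∀ a, a < fs.length → (((0, 0, fs.length + a) : Nm) ∈ T ↔ a = i) := by
    intro a ha
    rw [hT0]
    constructor
    · rintro ⟨-, e, he⟩
      rcases Nat.eq_zero_or_pos e with rfl | hpos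
      · rw [pow_zero, Nat.div_one] at he
        omega
      · exfalso
        have h1 : n / 2 ^ e ≤ n / 2 := by
          refine Nat.div_le_div_left ?_ (by norm_num)
          calc 2 = 2 ^ 1 := rfl
            _ ≤ 2 ^ e := Nat.pow_le_pow_right (by norm_num) hpos
        omega
    · rintro rfl
      exact ⟨by omega, 0, by simp [hn]⟩
  -- children and parents
  have hup : ∀ x y, 1 ≤ x → y / 2 = x → ((0, 0, y) : Nm) ∈ T → ((0, 0, x) : Nm) ∈ T := by
    intro x y hx hy h
    rw [hT0] at h ⊢
    obtain ⟨h1, e, he⟩ := h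
    refine ⟨hx, e + 1, ?_⟩
    rw [pow_succ, ← Nat.div_div_eq_div_mul, he, hy]
  have hdown : ∀ x, x < fs.length → ((0, 0, x) : Nm) ∈ T →
      ((0, 0, 2 * x) : Nm) ∈ T ∨ ((0, 0, 2 * x + 1) : Nm) ∈ T := by
    intro x hx h
    rw [hT0] at h
    obtain ⟨h1, e, he⟩ := h
    rcases Nat.eq_zero_or_pos e with rfl | hpos
    · rw [pow_zero, Nat.div_one] at he
      omega
    · obtain ⟨e', rfl⟩ := Nat.exists_eq_succ_of_ne_zero hpos.ne'
      rw [Nat.succ_eq_add_one, pow_succ, ← Nat.div_div_eq_div_mul] at he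
      rcases Nat.even_or_odd' (n / 2 ^ e') with ⟨y, hy | hy⟩
      · left
        rw [hT0]
        exact ⟨by omega, e', by omega⟩
      · right
        rw [hT0]
        exact ⟨by omega, e', by omega⟩
  -- the triples
  have hjs : ∀ j ∈ jsL fs,
      ((trip fs j).1 ∈ T → (trip fs j).2.1 ∈ T ∨ (trip fs j).2.2 ∈ T) ∧
      ((trip fs j).2.1 ∈ T → (trip fs j).1 ∈ T) ∧ ((trip fs j).2.2 ∈ T → (trip fs j).1 ∈ T) ∧
      ((trip fs j).1 ∈ T → (j ∈ T1 ∨ (j.2.1 = i ∧ ((j.1 = 1 ∧ j.2.2 < 3 * M) ∨
        ((j.1 = 2 ∨ j.1 = 3) ∧ j.2.2 < φ.length))))) := by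
    rintro ⟨k, a, b⟩ hj
    rw [mem_jsL] at hj
    simp only at hj
    rcases hj with ⟨rfl, rfl, h1, h2⟩ | ⟨rfl, h1, h2⟩ | ⟨rfl | rfl, h1, h2⟩
    · simp only [trip, if_true]
      refine ⟨hdown b h2, hup b _ h1 (by omega), hup b _ h1 (by omega), fun h => Or.inl ?_⟩
      rw [hT0, ← anc_iff] at h
      obtain ⟨e, he, rfl⟩ := h
      exact Finset.mem_image.2 ⟨e, Finset.mem_range.2 he, rfl⟩
    · simp only [trip, one_ne_zero, if_false, if_true]
      rw [hleaf a h1, hT1, hT2]
      refine ⟨?_, fun h => h.1, fun h => h.1, fun h => Or.inr ⟨h, Or.inl (by simpa using h2)⟩⟩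
      rintro rfl
      cases hv : τ b
      · exact Or.inr ⟨rfl, h2, rfl⟩
      · exact Or.inl ⟨rfl, h2, rfl⟩
    · simp only [trip, OfNat.ofNat_ne_zero, OfNat.ofNat_ne_one, if_false, if_true]
      rw [hleaf a h1, hTl, hT3]
      refine ⟨?_, fun h => h.1, fun h => h.1, ?_⟩
      · rintro rfl
        rw [hget] at h2 ⊢
        rcases hτ _ (cget_mem h2) with h | h | h
        · refine Or.inl ⟨rfl, ?_, h⟩
          have := ltn_mem hg h1 (c := b) (by rw [hget]; exact h2) (cget φ b).1
            (Or.inl (by rw [hget]))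
          exact this
        · exact Or.inr ⟨rfl, h2, Or.inl h⟩
        · exact Or.inr ⟨rfl, h2, Or.inr h⟩
      · rintro rfl
        rw [hget] at h2
        exact Or.inr ⟨rfl, Or.inr ⟨by simp, h2⟩⟩
    · simp only [trip, OfNat.ofNat_ne_zero, OfNat.ofNat_ne_one, if_false,
        show (3 : ℕ) ≠ 2 from by decide]
      rw [hT3, hTl, hTl]
      refine ⟨?_, ?_, ?_, ?_⟩
      · rintro ⟨rfl, h3, h4⟩
        rw [hget]
        rcases h4 with h | h
        · refine Or.inl ⟨rfl, ?_, h⟩
          have := ltn_mem hg h1 (c := b) (by rw [hget]; exact h3) (cget φ b).2.1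
            (Or.inr (Or.inl (by rw [hget])))
          exact this
        · refine Or.inr ⟨rfl, ?_, h⟩
          have := ltn_mem hg h1 (c := b) (by rw [hget]; exact h3) (cget φ b).2.2
            (Or.inr (Or.inr (by rw [hget])))
          exact this
      · rintro ⟨rfl, h3, h4⟩
        rw [hget] at h2 h4
        exact ⟨rfl, h2, Or.inl h4⟩
      · rintro ⟨rfl, h3, h4⟩
        rw [hget] at h2 h4
        exact ⟨rfl, h2, Or.inr h4⟩
      · rintro ⟨rfl, h3, h4⟩
        exact Or.inr ⟨rfl, Or.inr ⟨by simp, h3⟩⟩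
  refine ⟨T, (hT0 1).2 ⟨le_rfl, n.size - 1, ?_⟩, ?_, ?_⟩
  · have hpos : 0 < n := by omega
    have h1 : 0 < n.size := Nat.size_pos.2 hpos
    have h2 : 2 ^ (n.size - 1) ≤ n := by
      rw [← Nat.lt_size]
      omega
    have h3 : n < 2 ^ n.size := Nat.lt_size_self n
    have h4 : 2 ^ n.size = 2 * 2 ^ (n.size - 1) := by
      rw [← pow_succ']
      congr 1
      omega
    refine Nat.div_eq_of_lt_le ?_ ?_
    · omega
    · omega
  · intro j hj i'
    obtain ⟨h1, h2, h3, -⟩ := hjs j hj
    have e0 : (sys fs hg w).vr j 0 = (trip fs j).1 := rfl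
    have e1 : (sys fs hg w).vr j 1 = (trip fs j).2.1 := rfl
    have e2 : (sys fs hg w).vr j 2 = (trip fs j).2.2 := rfl
    fin_cases i'
    · exact h1
    · exact fun h => Or.inr (h2 h)
    · exact fun h => Or.inl (h3 h)
  · have c1 : T1.card ≤ n.size := Finset.card_image_le.trans (by rw [Finset.card_range])
    have c2 : T2.card ≤ 3 * M := Finset.card_image_le.trans (by rw [Finset.card_range])
    have c3 : T3.card ≤ M := Finset.card_image_le.trans
      ((Finset.card_filter_le _ _).trans (by rw [Finset.card_range]; exact hlen))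
    have cT : T.card ≤ n.size + (3 * M + M) := by
      have u1 := Finset.card_union_le T1 (T2 ∪ T3)
      have u2 := Finset.card_union_le T2 T3
      change (T1 ∪ (T2 ∪ T3)).card ≤ _
      omega
    have hsz : n.size ≤ (2 * fs.length).size := by
      rw [Nat.size_le]
      have := Nat.lt_size_self (2 * fs.length)
      omega
    have cH : (T.filter (fun x => (sys fs hg w).hv x = true)).card ≤ 3 * M := by
      refine (Finset.card_le_card ?_).trans c2
      intro x hx
      rw [Finset.mem_filter] at hx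
      obtain ⟨h1, h2⟩ := hx
      have h2' : x.1 = 1 ∨ x.1 = 2 := by
        simpa [sys, heavy] using h2
      rw [hT] at h1
      rcases h1 with h1 | h1 | h1
      · omega
      · exact Finset.mem_image.2 ⟨x.2.2, Finset.mem_range.2 h1.2.2, by
          rw [← h1.1, ← h1.2.1]⟩
      · omega
    have cO : (((sys fs hg w).js.toFinset ×ˢ (Finset.univ : Finset (Fin 3))).filter
          (fun p => (sys fs hg w).vr p.1 p.2 ∈ T)).card ≤ (n.size + (3 * M + (M + M))) * 3 := by
      let J : Finset Nm := T1 ∪ ((Finset.range (3 * M)).image (fun v => (1, i, v)) ∪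
        ((Finset.range φ.length).image (fun c => (2, i, c)) ∪
          (Finset.range φ.length).image (fun c => (3, i, c))))
      have cJ : J.card ≤ n.size + (3 * M + (M + M)) := by
        have u1 := Finset.card_union_le T1 ((Finset.range (3 * M)).image (fun v => ((1, i, v) : Nm))
          ∪ ((Finset.range φ.length).image (fun c => (2, i, c)) ∪
          (Finset.range φ.length).image (fun c => (3, i, c))))
        have u2 := Finset.card_union_le ((Finset.range (3 * M)).image (fun v => ((1, i, v) : Nm)))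
          ((Finset.range φ.length).image (fun c => (2, i, c)) ∪
          (Finset.range φ.length).image (fun c => (3, i, c)))
        have u3 := Finset.card_union_le ((Finset.range φ.length).image (fun c => ((2, i, c) : Nm)))
          ((Finset.range φ.length).image (fun c => (3, i, c)))
        have d1 := Finset.card_image_le (s := Finset.range (3 * M))
          (f := fun v => ((1, i, v) : Nm))
        have d2 := Finset.card_image_le (s := Finset.range φ.length)
          (f := fun v => ((2, i, v) : Nm))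
        have d3 := Finset.card_image_le (s := Finset.range φ.length)
          (f := fun v => ((3, i, v) : Nm))
        rw [Finset.card_range] at d1 d2 d3
        change (T1 ∪ _).card ≤ _
        omega
      refine le_trans (Finset.card_le_card (t := J ×ˢ (Finset.univ : Finset (Fin 3))) ?_) ?_
      · rintro ⟨j, i'⟩ hp
        rw [Finset.mem_filter, Finset.mem_product, List.mem_toFinset] at hp
        rw [Finset.mem_product]
        refine ⟨?_, Finset.mem_univ _⟩
        obtain ⟨⟨hj, -⟩, hv⟩ := hp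
        simp only at hj hv ⊢
        obtain ⟨-, h2, h3, h4⟩ := hjs j hj
        have h5 : (trip fs j).1 ∈ T := by
          fin_cases i'
          · exact hv
          · exact h2 hv
          · exact h3 hv
        obtain ⟨k, a, b⟩ := j
        simp only [J, Finset.mem_union, Finset.mem_image, Finset.mem_range, Prod.mk.injEq]
        rcases h4 h5 with h | ⟨h, ⟨h', h''⟩ | ⟨h' | h', h''⟩⟩
        · exact Or.inl h
        · exact Or.inr (Or.inl ⟨b, h'', h'.symm, h.symm, rfl⟩)
        · exact Or.inr (Or.inr (Or.inl ⟨b, h'', h'.symm, h.symm, rfl⟩))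
        · exact Or.inr (Or.inr (Or.inr ⟨b, h'', h'.symm, h.symm, rfl⟩))
      · rw [Finset.card_product, Finset.card_univ, Fintype.card_fin]
        exact Nat.mul_le_mul_right _ cJ
    have c4 : (T.filter (fun x => (sys fs hg w).hv x = true)).card * w ≤ 3 * M * w :=
      Nat.mul_le_mul_right _ cH
    omega

end Pool.Agent.H670R4
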