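import Pool.Agent.H670R4.Red
import Pool.Agent.NPC.Sat2
import Pool.Agent.H671R2.CK.K13

/-!
# The system of triples of a list of formulas
-/

set_option autoImplicit false

namespace Pool.Agent.H670R4

open Pool.Agent.NPC

/-- names -/
abbrev Nm : Type := ℕ × ℕ × ℕ

/-- formulas with three literals in every clause -/
abbrev Fm : Type := List (Lit ℕ × Lit ℕ × Lit ℕ)

/-- the largest number of clauses, and at least one -/
abbrev maxL (fs : List Fm) : ℕ := CK.maxLen fs

theorem foldl_max_le (fs : List Fm) (b : ℕ) :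
    b ≤ fs.foldl (fun a φ => max a φ.length) b ∧
      ∀ φ ∈ fs, φ.length ≤ fs.foldl (fun a φ => max a φ.length) b := by
  induction fs generalizing b with
  | nil => simp
  | cons φ fs ih =>
    rw [List.foldl_cons]
    obtain ⟨h1, h2⟩ := ih (max b φ.length)
    refine ⟨(le_max_left _ _).trans h1, fun ψ hψ => ?_⟩
    rcases List.mem_cons.1 hψ with rfl | hψ
    · exact (le_max_right _ _).trans h1
    · exact h2 ψ hψ

theorem le_maxL {fs : List Fm} {φ : Fm} (h : φ ∈ fs) : φ.length ≤ maxL fs :=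
  (foldl_max_le fs 1).2 φ h

theorem maxL_le (fs : List Fm) (m : ℕ) (h : ∀ φ ∈ fs, φ.length ≤ m) : maxL fs ≤ m + 1 := by
  have key : ∀ (fs : List Fm) (b : ℕ), (∀ φ ∈ fs, φ.length ≤ m) →
      fs.foldl (fun a φ => max a φ.length) b ≤ max b m := by
    intro fs
    induction fs with
    | nil => simp
    | cons φ fs ih =>
      intro b h
      rw [List.foldl_cons]
      refine (ih _ fun ψ hψ => h ψ (List.mem_cons_of_mem _ hψ)).trans ?_
      have := h φ List.mem_cons_self
      omega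
  have := key fs 1 h
  change fs.foldl (fun a φ => max a φ.length) 1 ≤ m + 1
  omega

/-- the `i`-th formula -/
def fget (fs : List Fm) (i : ℕ) : Fm := fs.getD i []

/-- the `c`-th clause -/
def cget (φ : Fm) (c : ℕ) : Lit ℕ × Lit ℕ × Lit ℕ := φ.getD c ((true, 0), (true, 1), (true, 2))

theorem fget_mem {fs : List Fm} {i : ℕ} (h : i < fs.length) : fget fs i ∈ fs := by
  unfold fget
  rw [List.getD_eq_getElem _ _ h]
  exact List.getElem_mem h

theorem cget_mem {φ : Fm} {c : ℕ} (h : c < φ.length) : cget φ c ∈ φ := by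
  unfold cget
  rw [List.getD_eq_getElem _ _ h]
  exact List.getElem_mem h

/-- the name of a literal in the `i`-th instance -/
def ltn (i : ℕ) (l : Lit ℕ) : Nm := (if l.1 then 1 else 2, i, l.2)

/-- the triple with a given name -/
def trip (fs : List Fm) (j : Nm) : Nm × Nm × Nm :=
  if j.1 = 0 then ((0, 0, j.2.2), (0, 0, 2 * j.2.2), (0, 0, 2 * j.2.2 + 1))
  else if j.1 = 1 then ((0, 0, fs.length + j.2.1), (1, j.2.1, j.2.2), (2, j.2.1, j.2.2))
  else if j.1 = 2 then
    ((0, 0, fs.length + j.2.1), ltn j.2.1 (cget (fget fs j.2.1) j.2.2).1, (3, j.2.1, j.2.2))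
  else ((3, j.2.1, j.2.2), ltn j.2.1 (cget (fget fs j.2.1) j.2.2).2.1,
    ltn j.2.1 (cget (fget fs j.2.1) j.2.2).2.2)

/-- the names of the triples -/
def jsL (fs : List Fm) : List Nm :=
  ((List.range fs.length).filter (fun x => decide (1 ≤ x))).map (fun x => (0, 0, x)) ++
    (List.range fs.length).flatMap fun i =>
      (List.range (3 * maxL fs)).map (fun v => (1, i, v)) ++
        (List.range (fget fs i).length).flatMap fun c => [(2, i, c), (3, i, c)]

/-- the variables -/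
def varsL (fs : List Fm) : List Nm :=
  ((List.range (2 * fs.length + 2)).filter (fun x => decide (1 ≤ x))).map (fun x => (0, 0, x)) ++
    (List.range fs.length).flatMap fun i =>
      (List.range (3 * maxL fs)).flatMap (fun v => [(1, i, v), (2, i, v)]) ++
        (List.range (fget fs i).length).map fun c => (3, i, c)

/-- the heavy variables -/
def heavy (x : Nm) : Bool := decide (x.1 = 1) || decide (x.1 = 2)

/-- the conditions on the formulas -/
def Good (fs : List Fm) : Prop := ∀ φ ∈ fs, Distinct3 φ ∧ Bounded3 φ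

theorem mem_jsL {fs : List Fm} {j : Nm} : j ∈ jsL fs ↔
    (j.1 = 0 ∧ j.2.1 = 0 ∧ 1 ≤ j.2.2 ∧ j.2.2 < fs.length) ∨
    (j.1 = 1 ∧ j.2.1 < fs.length ∧ j.2.2 < 3 * maxL fs) ∨
    ((j.1 = 2 ∨ j.1 = 3) ∧ j.2.1 < fs.length ∧ j.2.2 < (fget fs j.2.1).length) := by
  obtain ⟨k, a, b⟩ := j
  simp only [jsL, List.mem_append, List.mem_map, List.mem_filter, List.mem_range,
    List.mem_flatMap, Prod.mk.injEq, decide_eq_true_eq, List.mem_cons, List.not_mem_nil,
    or_false]
  constructor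
  · rintro (⟨x, ⟨h1, h2⟩, rfl, rfl, rfl⟩ | ⟨i, hi, ⟨v, hv, rfl, rfl, rfl⟩ |
      ⟨c, hc, ⟨rfl, rfl, rfl⟩ | ⟨rfl, rfl, rfl⟩⟩⟩)
    · exact Or.inl ⟨rfl, rfl, h2, h1⟩
    · exact Or.inr (Or.inl ⟨rfl, hi, hv⟩)
    · exact Or.inr (Or.inr ⟨Or.inl rfl, hi, hc⟩)
    · exact Or.inr (Or.inr ⟨Or.inr rfl, hi, hc⟩)
  · rintro (⟨rfl, rfl, h1, h2⟩ | ⟨rfl, h1, h2⟩ | ⟨rfl | rfl, h1, h2⟩)
    · exact Or.inl ⟨b, ⟨h2, h1⟩, rfl, rfl, rfl⟩
    · exact Or.inr ⟨a, h1, Or.inl ⟨b, h2, rfl, rfl, rfl⟩⟩
    · exact Or.inr ⟨a, h1, Or.inr ⟨b, h2, Or.inl ⟨rfl, rfl, rfl⟩⟩⟩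
    · exact Or.inr ⟨a, h1, Or.inr ⟨b, h2, Or.inr ⟨rfl, rfl, rfl⟩⟩⟩

theorem mem_varsL {fs : List Fm} {j : Nm} : j ∈ varsL fs ↔
    (j.1 = 0 ∧ j.2.1 = 0 ∧ 1 ≤ j.2.2 ∧ j.2.2 < 2 * fs.length + 2) ∨
    ((j.1 = 1 ∨ j.1 = 2) ∧ j.2.1 < fs.length ∧ j.2.2 < 3 * maxL fs) ∨
    (j.1 = 3 ∧ j.2.1 < fs.length ∧ j.2.2 < (fget fs j.2.1).length) := by
  obtain ⟨k, a, b⟩ := j
  simp only [varsL, List.mem_append, List.mem_map, List.mem_filter, List.mem_range,
    List.mem_flatMap, Prod.mk.injEq, decide_eq_true_eq, List.mem_cons, List.not_mem_nil,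
    or_false]
  constructor
  · rintro (⟨x, ⟨h1, h2⟩, rfl, rfl, rfl⟩ | ⟨i, hi, ⟨v, hv, ⟨rfl, rfl, rfl⟩ | ⟨rfl, rfl, rfl⟩⟩ |
      ⟨c, hc, rfl, rfl, rfl⟩⟩)
    · exact Or.inl ⟨rfl, rfl, h2, h1⟩
    · exact Or.inr (Or.inl ⟨Or.inl rfl, hi, hv⟩)
    · exact Or.inr (Or.inl ⟨Or.inr rfl, hi, hv⟩)
    · exact Or.inr (Or.inr ⟨rfl, hi, hc⟩)
  · rintro (⟨rfl, rfl, h1, h2⟩ | ⟨rfl | rfl, h1, h2⟩ | ⟨rfl, h1, h2⟩)
    · exact Or.inl ⟨b, ⟨h2, h1⟩, rfl, rfl, rfl⟩
    · exact Or.inr ⟨a, h1, Or.inl ⟨b, h2, Or.inl ⟨rfl, rfl, rfl⟩⟩⟩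
    · exact Or.inr ⟨a, h1, Or.inl ⟨b, h2, Or.inr ⟨rfl, rfl, rfl⟩⟩⟩
    · exact Or.inr ⟨a, h1, Or.inr ⟨b, h2, rfl, rfl, rfl⟩⟩

/-- the components of a triple -/
def comp3 (c : Nm × Nm × Nm) : Fin 3 → Nm := ![c.1, c.2.1, c.2.2]

theorem ltn_mem {fs : List Fm} (hg : Good fs) {i c : ℕ} (hi : i < fs.length)
    (hc : c < (fget fs i).length) (l : Lit ℕ)
    (hl : l = (cget (fget fs i) c).1 ∨ l = (cget (fget fs i) c).2.1 ∨
      l = (cget (fget fs i) c).2.2) : l.2 < 3 * maxL fs := by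
  have h1 := fget_mem hi
  have h2 := (hg _ h1).2 _ (cget_mem hc)
  have h3 := le_maxL h1
  rcases hl with rfl | rfl | rfl
  · omega
  · omega
  · omega

theorem ltn_fst (i : ℕ) (l : Lit ℕ) : ((ltn i l).1 = 1 ∨ (ltn i l).1 = 2) ∧ (ltn i l).2 = (i, l.2) := by
  unfold ltn
  refine ⟨?_, rfl⟩
  split_ifs
  · exact Or.inl rfl
  · exact Or.inr rfl

/-- the system of triples of a list of formulas -/
def sys (fs : List Fm) (hg : Good fs) (w : ℕ) : NS Nm where
  js := jsL fs
  vr j i := comp3 (trip fs j) i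
  vars := varsL fs
  hv := heavy
  w := w
  r := (0, 0, 1)
  hr := mem_varsL.2 (Or.inl ⟨rfl, rfl, le_rfl, by simp⟩)
  hvr := by
    intro j hj i
    rw [mem_jsL] at hj
    obtain ⟨k, a, b⟩ := j
    simp only at hj
    rcases hj with ⟨rfl, rfl, h1, h2⟩ | ⟨rfl, h1, h2⟩ | ⟨rfl | rfl, h1, h2⟩
    · rw [mem_varsL]
      left
      fin_cases i <;> simp [comp3, trip] <;> omega
    · rw [mem_varsL]
      fin_cases i
      · left; simp [comp3, trip]; omega
      · right; left; simp [comp3, trip]; omega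
      · right; left; simp [comp3, trip]; omega
    · rw [mem_varsL]
      fin_cases i
      · left; simp [comp3, trip]; omega
      · right; left
        have e1 := ltn_fst a (cget (fget fs a) b).1
        have e2 := ltn_mem hg h1 h2 _ (Or.inl rfl)
        refine ⟨?_, ?_, ?_⟩
        · simpa [comp3, trip] using e1.1
        · simp [comp3, trip, e1.2, h1]
        · simp only [comp3, trip]
          simpa [e1.2] using e2
      · right; right; simp [comp3, trip]; omega
    · rw [mem_varsL]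
      fin_cases i
      · right; right; simp [comp3, trip]; omega
      · right; left
        have e1 := ltn_fst a (cget (fget fs a) b).2.1
        have e2 := ltn_mem hg h1 h2 _ (Or.inr (Or.inl rfl))
        refine ⟨?_, ?_, ?_⟩
        · simpa [comp3, trip] using e1.1
        · simp [comp3, trip, e1.2, h1]
        · simp only [comp3, trip]
          simpa [e1.2] using e2
      · right; left
        have e1 := ltn_fst a (cget (fget fs a) b).2.2
        have e2 := ltn_mem hg h1 h2 _ (Or.inr (Or.inr rfl))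
        refine ⟨?_, ?_, ?_⟩
        · simpa [comp3, trip] using e1.1
        · simp [comp3, trip, e1.2, h1]
        · simp only [comp3, trip]
          simpa [e1.2] using e2
  hd := by
    have key : ∀ c : Nm × Nm × Nm, c.1 ≠ c.2.1 → c.1 ≠ c.2.2 → c.2.1 ≠ c.2.2 →
        ∀ i i', comp3 c i = comp3 c i' → i = i' := by
      intro c h1 h2 h3 i i' h
      fin_cases i <;> fin_cases i' <;> simp_all [comp3]
    intro j hj i i' h
    rw [mem_jsL] at hj
    obtain ⟨k, a, b⟩ := j
    simp only at hj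
    refine key (trip fs (k, a, b)) ?_ ?_ ?_ i i' h
    · rcases hj with ⟨rfl, rfl, h1, h2⟩ | ⟨rfl, h1, h2⟩ | ⟨rfl | rfl, h1, h2⟩
      · simp [trip]; omega
      · simp [trip]
      · have e1 := ltn_fst a (cget (fget fs a) b).1
        intro hc
        simp only [trip] at hc
        have h3 : (ltn a (cget (fget fs a) b).1).1 = 0 := by
          have := congrArg Prod.fst hc
          simpa using this.symm
        rcases e1.1 with e | e <;> omega
      · have e1 := ltn_fst a (cget (fget fs a) b).2.1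
        intro hc
        simp only [trip] at hc
        have h3 : (ltn a (cget (fget fs a) b).2.1).1 = 3 := by
          have := congrArg Prod.fst hc
          simpa using this.symm
        rcases e1.1 with e | e <;> omega
    · rcases hj with ⟨rfl, rfl, h1, h2⟩ | ⟨rfl, h1, h2⟩ | ⟨rfl | rfl, h1, h2⟩
      · simp [trip]; omega
      · simp [trip]
      · simp [trip]
      · have e1 := ltn_fst a (cget (fget fs a) b).2.2
        intro hc
        simp only [trip] at hc
        have h3 : (ltn a (cget (fget fs a) b).2.2).1 = 3 := by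
          have := congrArg Prod.fst hc
          simpa using this.symm
        rcases e1.1 with e | e <;> omega
    · rcases hj with ⟨rfl, rfl, h1, h2⟩ | ⟨rfl, h1, h2⟩ | ⟨rfl | rfl, h1, h2⟩
      · simp [trip]
      · simp [trip]
      · have e1 := ltn_fst a (cget (fget fs a) b).1
        intro hc
        simp only [trip] at hc
        have h3 : (ltn a (cget (fget fs a) b).1).1 = 3 := by
          have := congrArg Prod.fst hc
          simpa using this
        rcases e1.1 with e | e <;> omega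
      · intro hc
        have h4 := ((hg _ (fget_mem h1)).1 _ (cget_mem h2)).2.2
        apply h4
        simp only [trip, ltn] at hc
        have := congrArg (fun x : Nm => x.2.2) hc
        simpa using this

end Pool.Agent.H670R4
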